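import Pool.Agent.MP_646035_al.MC.Iface
import Pool.Agent.MP_4a6971_al.H83.Klein

attribute [-instance] SMulCommClass.continuousConstSMul GradedMonoid.GradeZero.mulAction
  Submonoid.instSMulSubtypeMem IsScalarTower.continuousConstSMul DivisionCommMonoid.toDivisionMonoid
  Module.toDistribMulAction CommSemiring.toSemiring SMulWithZero.toSMulZeroClass
  MulActionWithZero.toMulAction Action.FintypeCat.instMulActionObjFiniteOf
  SeminormedCommGroup.toPseudoMetricSpace SeminormedGroup.toPseudoMetricSpace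
  MonTypeEquivalenceMon.monMonoid DivisionSemiring.toSemiring SubringClass.toRing Algebra.toSMul
  MulSemiringAction.toDistribMulAction Prod.distribSMul Subgroup.instMulDistribMulActionSubtypeMem
  NonUnitalRingHomClass.toMulHomClass Valued.toUniformSpace SemigroupWithZero.toSemigroup
  AddQuantale.instAddLeftMono SetLike.GradeZero.instSemiring SetLike.GradeZero.instMonoid
  GroupConeClass.toSubmonoidClass Torsor.toMulAction Prod.instMul SetLike.GradeZero.instRing
  MonoidWithZero.toMonoid NonUnitalNonAssocRing.toAddCommGroup MulDistribMulAction.toMulAction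
  UniformContinuousConstSMul.instContinuousConstSMul Action.instMulAction
  NonUnitalNormedRing.toNormedAddCommGroup Topology.IsScott.instClosedIicTopologyOfUnivSet
  IdemSemiring.toSemiring instSMulZeroClass NonUnitalSeminormedRing.toPseudoMetricSpace

/-!
Thin collars about the lifts of a simple closed geodesic, and the flow along a lift.
-/

namespace Pool.Agent.MP_646035_al.MC

open Set Topology Pool.Agent.MP_4a6971_al.H66 Pool.Agent.MP_4a6971_al.H83

variable {Γ : Type} [Group Γ] (Y : Fuchs Γ)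

theorem tw1_loc_fin {α : Γ} (hα : α ≠ 1) {E : V} (hE : IsAx (Y.σ α) E) (R : ℝ) :
    {F | (∃ γ, F = Y.σ γ • E) ∧ |Bf F o| ≤ R}.Finite := by
  obtain ⟨R', h⟩ := norm_pt (Y.hyp α hα) hE R
  refine ((Y.proper R').image fun φ => (Y.σ φ)⁻¹ • E).subset ?_
  rintro _ ⟨⟨w, rfl⟩, hw⟩
  rw [Bf_move, ← map_inv] at hw
  obtain ⟨k, hk⟩ := h _ (H2_o.smul _) hw
  refine ⟨α ^ k * w⁻¹, by rwa [mem_ofPred_eq, map_mul, map_zpow, mul_smul], ?_⟩
  simp only [map_mul, map_zpow, map_inv, mul_inv_rev, inv_inv, mul_smul]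
  rw [← zpow_neg, hE.zpow]

theorem tw1_per_fin (R : ℝ) : {N | N ∈ Y.per ∧ |Bf N o| ≤ R}.Finite := by
  obtain ⟨T, hT, h⟩ := Y.per_fin
  refine ((hT.subset (inter_subset_left (t := Y.per))).biUnion
    (t := fun M => {F | (∃ γ, F = Y.σ γ • M) ∧ |Bf F o| ≤ R}) fun M hM => ?_).subset ?_
  · obtain ⟨γ, h1, h2⟩ := Y.per_ax M hM.2
    exact tw1_loc_fin Y h1 h2 R
  · rintro N ⟨h1, h2⟩
    obtain ⟨γ, hγ⟩ := h N h1
    exact mem_biUnion (x := Y.σ γ • N) ⟨hγ, Y.per_smul γ N h1⟩
      ⟨⟨γ⁻¹, by rw [map_inv, inv_smul_smul]⟩, h2⟩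

/-- No element reverses an axis. -/
theorem tw1_ne_neg {E : V} (hE : Bf E E = 1) (γ : Γ) : Y.σ γ • E ≠ -E := by
  intro h
  have key : E ≠ -E := fun e => by
    have : Bf E E = -Bf E E := by
      nth_rewrite 1 [e]
      simp
    linarith
  by_cases h1 : γ = 1
  · rw [h1, map_one, one_smul] at h
    exact key h
  · obtain ⟨A, hA⟩ := (Y.hyp γ h1).exists_ax
    rcases (Y.hyp γ h1).zpow_fix hA hE one_ne_zero (Or.inr (by simpa using h)) with e | e
    · rw [e, hA.2] at h
      exact key (e ▸ h)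
    · rw [e, hA.neg.2] at h
      exact key (e ▸ h)

/-- Two unit normals whose lines have a common point. -/
theorem tw1_meet {E F : V} (hE : Bf E E = 1) (hF : Bf F F = 1) {x : X} (h1 : bf E x = 0)
    (h2 : bf F x = 0) (h : ¬ Cr E F) : F = E ∨ F = -E := by
  have a := Klein_perp (M := F - Bf E F • E) (v := x) (by
    simp only [bf, Bf_sub_left, Bf_smul_left] at h1 h2 ⊢
    rw [h1, h2]
    ring)
  have e : Bf (F - Bf E F • E) (F - Bf E F • E) = 1 - Bf E F ^ 2 := by
    simp only [Bf_sub_left, Bf_sub_right, Bf_smul_left, Bf_smul_right, hE, hF, Bf_comm F E]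
    ring
  rw [e] at a
  rw [Cr, not_lt] at h
  have b : F - Bf E F • E = 0 := by_contra fun c => by linarith [a.2 c]
  rw [sub_eq_zero] at b
  rcases mul_self_eq_one_iff.1 (show Bf E F * Bf E F = 1 by linarith only [a.1, h]) with c | c
  · exact Or.inl (by rw [b, c, one_smul])
  · exact Or.inr (by rw [b, c, neg_smul, one_smul])

/-- An axis lies in front of the boundary lines. -/
theorem tw1_front {α : Γ} (hα : α ≠ 1) {E N : V} (hE : IsAx (Y.σ α) E) (hN : N ∈ Y.per)
    (h1 : E ∉ Y.per) (h2 : -E ∉ Y.per) {x : X} (hx : bf E x = 0) : 0 < bf N x := by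
  obtain ⟨f, t, hf, h0⟩ := (Y.hyp α hα).fr0 hE
  obtain ⟨β, -, hβ⟩ := Y.per_ax N hN
  have hp := H2_o.smul f
  have key : ∀ k : ℤ, 0 < Bf (f • N) (dil (k * t) • f • o) := fun k => by
    rw [← hf.eq, Bf_isom, Bf_comm, Bf_move, Bf_comm, ← map_zpow, ← map_inv]
    exact Y.per_o _ (Y.per_smul _ N hN)
  have hy := x.2.smul f
  have e0 : (f • x.1).2.1 = 0 := by rw [← Bf_E0, ← h0, Bf_isom]; exact hx
  have eN : Bf (f • N) (f • N) = 1 := by rw [Bf_isom, hβ.1]
  have n1 : f • N ≠ E0 := fun e => h1 (by rwa [← smul_left_cancel f (e.trans h0.symm)])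
  have n2 : f • N ≠ -E0 := fun e => h2 (by
    rw [← h0, ← smul_neg] at e
    rwa [← smul_left_cancel f e])
  change 0 < Bf N x.1
  rw [← Bf_isom f]
  have p1 := hp.2
  have p2 := hp.pos
  have y1 := hy.2
  have y2 := hy.pos
  generalize f • N = M at key eN n1 n2 ⊢
  generalize f • o = p at key p1 p2
  generalize f • x.1 = y at e0 y1 y2 ⊢
  obtain ⟨a, b, c⟩ := M
  simp only [dil_smul, Bf] at key eN ⊢
  have ha : a ≤ 0 := by
    by_contra! ha
    obtain ⟨n, hn⟩ := grow_aux (α := a * p.2.2 / 2) (β := -(b * p.2.1)) (γ := c * p.1 / 2) hf.pos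
      (by positivity) 0
    have u := hn n le_rfl
    have v := key n
    rw [Int.cast_natCast] at v
    linarith only [u, v]
  have hc : c ≤ 0 := by
    by_contra! hc
    obtain ⟨n, hn⟩ := grow_aux (α := c * p.1 / 2) (β := -(b * p.2.1)) (γ := a * p.2.2 / 2) hf.pos
      (by positivity) 0
    have u := hn n le_rfl
    have v := key (-n)
    rw [Int.cast_neg, Int.cast_natCast, neg_mul, neg_neg] at v
    linarith only [u, v]
  rw [e0]
  by_contra! h
  have a0 : a = 0 := by nlinarith only [mul_nonneg (neg_nonneg.2 hc) y1.le, y2, ha, h]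
  have c0 : c = 0 := by nlinarith only [mul_nonneg (neg_nonneg.2 ha) y2.le, y1, hc, h]
  subst a0 c0
  rcases mul_self_eq_one_iff.1 (show b * b = 1 by linarith only [eN]) with rfl | rfl
  · exact n1 rfl
  · exact n2 (by simp [E0])

/-- The collars of width `η` are disjoint from each other and from the funnels. -/
structure Collar (E : V) (η : ℝ) : Prop where
  pos : 0 < η
  sep : ∀ γ x, |bf E x| ≤ η → |bf (Y.σ γ • E) x| ≤ η → Y.σ γ • E = E
  per : ∀ N ∈ Y.per, ∀ x, |bf E x| ≤ η → η < bf N x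

theorem exists_collar {E : V} (h : Y.Curve E) : ∃ η, Collar Y E η := by
  obtain ⟨α, hα, hE⟩ := h.ax
  obtain ⟨R, hR⟩ := norm_pt (Y.hyp α hα) hE 1
  have c1 : Continuous fun p : V × X => bf p.1 p.2 :=
    continuous_Bf.comp (continuous_fst.prodMk (continuous_subtype_val.comp continuous_snd))
  obtain ⟨a, a0, a1⟩ := ((((tw1_loc_fin Y hα hE (3 * R)).subset
    (inter_subset_left (t := {F | F ≠ E}))).isCompact).prod (isCompact_Dsc oX R)).exists_forall_le'
    (f := fun p : V × X => max |bf E p.2| |bf p.1 p.2|) (a := 0)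
    (Continuous.continuousOn (by fun_prop)) (by
      rintro ⟨_, x⟩ ⟨⟨⟨⟨γ, rfl⟩, -⟩, n⟩, -⟩
      by_contra! c
      rw [max_le_iff, abs_nonpos_iff, abs_nonpos_iff] at c
      exact (tw1_meet hE.1 (by simpa using hE.1) c.1 c.2 (h.simple γ)).elim n
        (tw1_ne_neg Y hE.1 γ))
  obtain ⟨b, b0, b1⟩ := (((tw1_per_fin Y (3 * R)).isCompact).prod
    (isCompact_Dsc oX R)).exists_forall_le'
    (f := fun p : V × X => max |bf E p.2| (bf p.1 p.2)) (a := 0)
    (Continuous.continuousOn (by fun_prop)) (by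
      rintro ⟨N, x⟩ ⟨⟨n, -⟩, -⟩
      by_contra! c
      rw [max_le_iff, abs_nonpos_iff] at c
      exact c.2.not_gt (tw1_front Y hα hE n h.pos h.neg c.1))
  have m0 : 0 < min 1 (min a b) := by positivity
  have m1 := min_le_left 1 (min a b)
  have m2 := (min_le_right 1 (min a b)).trans (min_le_left a b)
  have m3 := (min_le_right 1 (min a b)).trans (min_le_right a b)
  generalize min 1 (min a b) = m at m0 m1 m2 m3
  have mv : ∀ (k : ℤ) (N : V) (x : X), bf (Y.σ (α ^ k) • N) (Y.σ (α ^ k) • x) = bf N x :=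
    fun k N x => bf_smul _ _ _
  have fx : ∀ k : ℤ, Y.σ (α ^ k) • E = E := fun k => by rw [map_zpow, hE.zpow]
  have bd : ∀ (N : V) (y : X), Bf N N = 1 → cd oX y ≤ R → |bf N y| ≤ 1 → |Bf N o| ≤ 3 * R :=
    fun N y u v w => by
      have r := abs_Bf_le u H2_o y.2
      have r1 := one_le_cd oX y
      rw [ch_comm] at r
      change |Bf N o| ≤ (1 + 2 * |bf N y|) * cd oX y at r
      nlinarith only [v, w, r1, r]
  refine ⟨m / 2, by positivity, fun γ x h1 h2 => ?_, fun N hN x h1 => ?_⟩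
  · obtain ⟨k, hk⟩ := hR x.1 x.2 (h1.trans (by linarith only [m1]))
    rw [← map_zpow] at hk
    rw [← mv k] at h1 h2
    rw [fx] at h1
    by_contra n
    have := a1 (Y.σ (α ^ k) • Y.σ γ • E, Y.σ (α ^ k) • x) ⟨⟨⟨⟨α ^ k * γ, by rw [map_mul, mul_smul]⟩,
      bd _ (Y.σ (α ^ k) • x) (by simpa using hE.1) hk (h2.trans (by linarith only [m1]))⟩,
      fun e => n (smul_left_cancel _ (e.trans (fx k).symm))⟩, hk⟩
    have := max_le h1 h2
    linarith
  · obtain ⟨k, hk⟩ := hR x.1 x.2 (h1.trans (by linarith))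
    rw [← map_zpow] at hk
    rw [← mv k] at h1 ⊢
    rw [fx] at h1
    have n := Y.per_smul (α ^ k) N hN
    obtain ⟨β, -, hβ⟩ := Y.per_ax _ n
    change cd oX (Y.σ (α ^ k) • x) ≤ R at hk
    generalize Y.σ (α ^ k) • x = y at h1 hk
    generalize Y.σ (α ^ k) • N = M at n hβ
    by_contra! c
    have r1 := one_le_cd oX y
    have : |Bf M o| ≤ 3 * R := by
      rcases le_total 0 (bf M y) with d | d
      · exact bd M y hβ.1 hk (by rw [abs_of_nonneg d]; linarith)
      · have := abs_Bf_le_of_sign hβ.1 H2_o y.2 (mul_nonpos_of_nonneg_of_nonpos (Y.per_o M n).le d)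
        rw [ch_comm] at this
        change _ ≤ cd oX y at this
        linarith only [hk, r1, this]
    have := b1 (M, y) ⟨⟨n, this⟩, hk⟩
    have := max_le h1 c
    linarith

/-- A translation in the frame of another one with the same axis. -/
theorem tw1_dil {u f : Isom} (hu : Hyp u) {E : V} (hE : IsAx u E) (h0 : f • E = E0) :
    ∃ s, ∀ Q : V, f • u • Q = dil s • f • Q := by
  obtain ⟨f', t, hf, h1⟩ := hu.fr0 hE
  have hw : (f * f'⁻¹) • E0 = E0 := by rw [mul_smul, ← h1, inv_smul_smul, h0, h1]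
  suffices h : ∃ s, ∀ Q : V, (f * f'⁻¹) • dil t • Q = dil s • (f * f'⁻¹) • Q by
    obtain ⟨s, hs⟩ := h
    refine ⟨s, fun Q => ?_⟩
    have := hs (f' • Q)
    rwa [← hf.one, mul_smul, mul_smul, inv_smul_smul, inv_smul_smul] at this
  generalize f * f'⁻¹ = w at hw
  have dec : ∀ (Q : V), w • Q = Q.1 • w • ((1, 0, 0) : V) + Q.2.1 • E0 +
      Q.2.2 • w • ((0, 0, 1) : V) := fun Q => by
    rw [← hw, ← isom_smul, ← isom_smul, ← isom_smul, ← smul_add, ← smul_add]
    congr 1
    ext <;> simp [E0]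
  have a1 := Bf_isom w E0 (1, 0, 0)
  have a2 := Bf_isom w E0 (0, 0, 1)
  have a3 := Bf_isom w (1, 0, 0) (1, 0, 0)
  have a4 := Bf_isom w (0, 0, 1) (0, 0, 1)
  have a5 := Bf_isom w (1, 0, 0) (0, 0, 1)
  rw [hw, Bf_E0, Bf_E0] at a1 a2
  generalize w • ((1, 0, 0) : V) = A at dec a1 a3 a5
  generalize w • ((0, 0, 1) : V) = B at dec a2 a4 a5
  obtain ⟨p, q, r⟩ := A
  obtain ⟨p', q', r'⟩ := B
  simp only [Bf] at a1 a2 a3 a4 a5
  subst a1 a2
  have b1 : p * r = 0 := by linarith only [a3]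
  have b2 : p' * r' = 0 := by linarith only [a4]
  have b3 : p * r' + p' * r = 1 := by linarith only [a5]
  rcases mul_eq_zero.1 b1 with rfl | rfl
  · have : r' = 0 := by linear_combination r * b2 - r' * b3
    subst this
    refine ⟨-t, fun Q => ?_⟩
    rw [dec, dec]
    ext <;> simp only [dil_smul, Prod.smul_mk, smul_eq_mul, mul_zero, E0, mul_one, Prod.mk_add_mk, add_zero, zero_add, neg_neg] <;> ring
  · have : p' = 0 := by linear_combination p * b2 - p' * b3
    subst this
    refine ⟨t, fun Q => ?_⟩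
    rw [dec, dec]
    ext <;> simp only [dil_smul, Prod.smul_mk, smul_eq_mul, mul_zero, E0, mul_one, Prod.mk_add_mk, add_zero, zero_add] <;> ring

/-- The flow along the line `E` whose time one map is `τ`. -/
structure Flow (E : V) (τ : Γ) (fl : ℝ → Isom) : Prop where
  cont : Continuous fun p : ℝ × X => fl p.1 • p.2
  add : ∀ a b, fl (a + b) = fl a * fl b
  one : fl 1 = Y.σ τ
  fix : ∀ a, fl a • E = E
  comm : ∀ a γ, Y.σ γ • E = E → Y.σ γ * fl a = fl a * Y.σ γ

theorem exists_flow' {τ : Γ} (hτ : τ ≠ 1) {E : V} (hE : IsAx (Y.σ τ) E) :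
    ∃ fl, Flow Y E τ fl := by
  obtain ⟨f, t, hf, h0⟩ := (Y.hyp τ hτ).fr0 hE
  have e : ∀ (a : ℝ) (Q : V), f • (f⁻¹ * dil (a * t) * f) • Q = dil (a * t) • f • Q := fun a Q => by
    rw [mul_smul, mul_smul, smul_inv_smul]
  refine ⟨fun a => f⁻¹ * dil (a * t) * f, ?_, fun a b => ?_, ?_, fun a => ?_, fun a γ h => ?_⟩
  · refine Continuous.subtype_mk ?_ _
    simp only [mul_smul]
    refine (continuous_isom f⁻¹).comp ?_
    simp only [dil_smul]
    have := (continuous_isom f).comp (continuous_subtype_val.comp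
      (continuous_snd : Continuous fun p : ℝ × X => p.2))
    have c : Continuous fun p : ℝ × X => f • p.2.1 := this
    fun_prop
  · simp only [add_mul, dil_add]
    group
  · refine isom_ext fun Q => smul_left_cancel f ?_
    rw [e, hf.one, one_mul]
  · refine smul_left_cancel f ?_
    rw [e, h0]
    simp only [E0, dil_smul, zero_mul]
  · by_cases h1 : γ = 1
    · simp only [h1, map_one, one_mul, mul_one]
    obtain ⟨s, hs⟩ := tw1_dil (Y.hyp γ h1) ⟨hE.1, h⟩ h0
    refine isom_ext fun Q => smul_left_cancel f ?_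
    rw [mul_smul (Y.σ γ), mul_smul _ (Y.σ γ), hs, e, e, hs, ← mul_smul, ← mul_smul (dil _) (dil _),
      ← dil_add, ← dil_add, add_comm]

end Pool.Agent.MP_646035_al.MC
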