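import Pool.Agent.MP_646035_al.Cx.Defs
import Pool.Agent.MP_646035_al.Cx.Tw1

attribute [-instance] SMulWithZero.toSMulZeroClass Semiring.toMonoid
  DivisionCommMonoid.toDivisionMonoid Prod.mulAction AddMonoidWithOne.toAddMonoid
  ESeminormedAddCommMonoid.toAddCommMonoid MonTypeEquivalenceMon.monMonoid Algebra.toSMul
  AddCommGroup.toAddGroup AddQuantale.instAddLeftMono ESeminormedAddMonoid.toAddMonoid
  CommSemiring.toSemiring Submonoid.instSMulSubtypeMem NonUnitalRingHomClass.toMulHomClass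
  Module.toDistribMulAction instSMulZeroClass MulActionWithZero.toMulAction
  SetLike.GradeZero.instMonoid GradedMonoid.GradeZero.mulAction GroupConeClass.toSubmonoidClass
  IdemSemiring.toCanonicallyOrderedAdd SemigroupWithZero.toSemigroup MonoidWithZero.toMonoid
  NonUnitalNonAssocSemiring.toAddCommMonoid AddQuantale.instAddRightMono NumberField.to_charZero
  DivisionSemiring.toSemiring MulSemiringAction.toDistribMulAction SubsemiringClass.toSubmonoidClass
  Quantale.instMulRightMono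

/-!
Charts at the holes: every cover with ends is a model.
-/

namespace Pool.Agent.MP_646035_al.MC

open Pool.Agent.MP_4a6971_al Pool.Agent.MP_4a6971_al.H66 Pool.Agent.MP_4a6971_al.H83
  Pool.Agent.MP_4a6971_al.Mcg Set Topology

variable {Γ : Type} [Group Γ] {Y : Fuchs Γ} {S : Type} [TopologicalSpace S] {m : ℕ}

theorem base_zpow {u f : Isom} {t : ℝ} (h : u * f = f * dil t) (k : ℤ) (s r : ℝ) :
    u ^ k • f • fm s r = f • fm (s + k * t) r := by
  have e : u = f * dil t * f⁻¹ := by rw [← h, mul_inv_cancel_right]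
  rw [e, conj_zpow, dil_zpow, mul_smul, mul_smul, inv_smul_smul, dil_fm]

/-- The stabiliser of a boundary line is infinite cyclic. -/
theorem base_frame (Y : Fuchs Γ) {N : V} (hN : N ∈ Y.per) :
    ∃ (γ : Γ) (f : Isom) (t : ℝ), 0 < t ∧ f • E0 = N ∧ Y.σ γ * f = f * dil t ∧
      ∀ δ, Y.σ δ • N = N → δ ∈ Subgroup.zpowers γ := by
  obtain ⟨α, hα, hE⟩ := Y.per_ax N hN
  obtain ⟨g, t₀, hg, h0⟩ := (Y.hyp α hα).fr0 hE
  have conv : ∀ δ s, (∀ Q : V, g • Y.σ δ • Q = dil s • g • Q) → Y.σ δ * g⁻¹ = g⁻¹ * dil s :=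
    fun δ s h => isom_ext fun Q => by
      rw [mul_smul, mul_smul, eq_inv_smul_iff, h, smul_inv_smul]
  let H : AddSubgroup ℝ :=
    { carrier := {s | ∃ δ, Y.σ δ * g⁻¹ = g⁻¹ * dil s}
      zero_mem' := ⟨1, by rw [map_one, dil_zero, one_mul, mul_one]⟩
      add_mem' := by
        rintro a b ⟨δ, h⟩ ⟨δ', h'⟩
        exact ⟨δ * δ', by rw [map_mul, mul_assoc, h', ← mul_assoc, h, dil_add, mul_assoc]⟩
      neg_mem' := by
        rintro a ⟨δ, h⟩
        exact ⟨δ⁻¹, by rw [map_inv, dil_neg, inv_mul_eq_iff_eq_mul, ← mul_assoc, h,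
          mul_inv_cancel_right]⟩ }
  have mv : ∀ δ s, Y.σ δ * g⁻¹ = g⁻¹ * dil s → Y.σ δ • g⁻¹ • fm 0 0 = g⁻¹ • fm s 0 :=
    fun δ s h => by simpa only [zpow_ofNat, pow_one, Int.cast_one, one_mul, zero_add] using base_zpow h 1 0 0
  have fin : {s | (s ∈ H ∧ 0 < s) ∧ s ≤ t₀}.Finite := by
    have c : IsCompact ((fun s => g⁻¹ • fm s 0) '' Icc 0 t₀) :=
      isCompact_Icc.image ((continuous_const_smul g⁻¹).comp
        (continuous_fm.comp (f := fun s : ℝ => (s, (0 : ℝ))) (by fun_prop)))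
    refine ((Y.finite_meet (isCompact_singleton (x := g⁻¹ • fm 0 0)) c).image
      fun δ => fs (g • Y.σ δ • g⁻¹ • fm 0 0)).subset ?_
    rintro s ⟨⟨⟨δ, h⟩, a⟩, b⟩
    exact ⟨δ, ⟨_, rfl, s, ⟨a.le, b⟩, (mv δ s h).symm⟩, by
      simp only [mv δ s h, smul_inv_smul, fs_fm]⟩
  obtain ⟨t, ⟨⟨⟨γ, hγ⟩, tp⟩, tl⟩, hm⟩ := exists_min_image _ id fin
    ⟨t₀, ⟨⟨α, conv α t₀ hg.one⟩, hg.pos⟩, le_rfl⟩
  have cyc : H = AddSubgroup.closure {t} := AddSubgroup.cyclic_of_min
    ⟨⟨⟨γ, hγ⟩, tp⟩, fun s hs => (le_total s t₀).elim (fun a => hm s ⟨hs, a⟩) tl.trans⟩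
  refine ⟨γ, g⁻¹, t, tp, by rw [← h0, inv_smul_smul], hγ, fun δ hδ => ?_⟩
  by_cases h1 : δ = 1
  · exact h1 ▸ one_mem _
  obtain ⟨s, hs⟩ := tw1_dil (Y.hyp δ h1) ⟨hE.1, hδ⟩ h0
  have a : s ∈ H := ⟨δ, conv δ s hs⟩
  rw [cyc, AddSubgroup.mem_closure_singleton] at a
  obtain ⟨k, rfl⟩ := a
  refine ⟨k, Y.cancel (g⁻¹ • fm 0 0) ?_⟩
  rw [mv δ _ (conv δ _ hs), map_zpow, base_zpow hγ, zero_add, zsmul_eq_mul]

/-- The group is cocompact on the neighbourhoods of the boundary lines. -/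
theorem base_near (Y : Fuchs Γ) (ρ : ℝ) :
    ∃ R, ∀ N ∈ Y.per, ∀ x : X, |bf N x| ≤ ρ → ∃ γ, Y.σ γ • x ∈ Dsc oX R := by
  obtain ⟨T, hT, h⟩ := Y.per_fin
  have a : ∀ M : V, ∃ R, M ∈ Y.per → ∀ x : X, |bf M x| ≤ ρ → ∃ γ, Y.σ γ • x ∈ Dsc oX R := fun M => by
    by_cases hM : M ∈ Y.per
    · obtain ⟨α, hα, hE⟩ := Y.per_ax M hM
      obtain ⟨R, hR⟩ := norm_pt (Y.hyp α hα) hE ρ
      refine ⟨R, fun _ x hx => ?_⟩
      obtain ⟨k, hk⟩ := hR x.1 x.2 hx
      exact ⟨α ^ k, by rwa [map_zpow]⟩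
    · exact ⟨0, fun c => absurd c hM⟩
  choose R hR using a
  obtain ⟨R₀, h₀⟩ := (hT.image R).bddAbove
  refine ⟨R₀, fun N hN x hx => ?_⟩
  obtain ⟨γ, hγ⟩ := h N hN
  obtain ⟨δ, hδ⟩ := hR _ (Y.per_smul γ N hN) (Y.σ γ • x) (by rwa [bf_smul])
  exact ⟨δ * γ, by
    rw [map_mul, mul_smul]
    exact le_trans hδ (h₀ ⟨_, hγ, rfl⟩)⟩

/-- The group is cocompact outside the deep parts of the funnels. -/
theorem base_core (Y : Fuchs Γ) (r : ℝ) :
    ∃ K : Set X, IsCompact K ∧ ∀ x : X, (∀ N ∈ Y.per, r ≤ bf N x) → ∃ γ, Y.σ γ • x ∈ K := by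
  obtain ⟨R, hR⟩ := base_near Y |r|
  obtain ⟨R', hR'⟩ := Y.cocompact
  refine ⟨_, (isCompact_Dsc oX R).union (isCompact_Dsc oX R'), fun x hx => ?_⟩
  by_cases h : ∀ N ∈ Y.per, 0 ≤ Bf N x.1
  · obtain ⟨γ, hγ⟩ := hR' x.1 x.2 h
    refine ⟨γ⁻¹, Or.inr ?_⟩
    change cd oX (Y.σ γ⁻¹ • x) ≤ R'
    rw [← cd_smul (Y.σ γ), map_inv, smul_inv_smul, cd_comm]
    exact hγ
  · push Not at h
    obtain ⟨N, a, b⟩ := h
    obtain ⟨γ, hγ⟩ := hR N a x (by
      rw [abs_of_neg (show bf N x < 0 from b)]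
      linarith [hx N a, neg_abs_le r])
    exact ⟨γ, Or.inl hγ⟩

theorem base_lower {E F : V} (hE : Bf E E = 1) (hF : Bf F F = 1) (x : X) :
    -1 - (bf E x + bf F x) ^ 2 / 2 ≤ Bf E F := by
  have h := x.2.1
  have a := (Klein_perp (M := E + F + (bf E x + bf F x) • x.1) (v := x) (by
    simp only [bf, Bf_add_left, Bf_smul_left, h]
    ring)).1
  simp only [bf, Bf_add_left, Bf_add_right, Bf_smul_left, Bf_smul_right, h, hE, hF, Bf_comm F E,
    Bf_comm x.1 E, Bf_comm x.1 F] at a ⊢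
  linarith only [a]

/-- The funnels have disjoint collars. -/
theorem base_collar (Y : Fuchs Γ) :
    ∃ ε, 0 < ε ∧ ∀ N ∈ Y.per, ∀ N' ∈ Y.per, ∀ x, bf N x < ε → bf N' x < ε → N = N' := by
  obtain ⟨R, hR⟩ := base_near Y 1
  have un : ∀ N ∈ Y.per, Bf N N = 1 := fun N hN => (Y.per_ax N hN).choose_spec.2.1
  have fin := tw1_per_fin Y (3 * R)
  obtain ⟨η, hη, h⟩ : ∃ η, 0 < η ∧ ∀ p ∈ {N | N ∈ Y.per ∧ |Bf N o| ≤ 3 * R} ×ˢ
      {N | N ∈ Y.per ∧ |Bf N o| ≤ 3 * R}, p.1 ≠ p.2 → Bf p.1 p.2 < -1 - η := by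
    have : ∀ᶠ η in 𝓝[>] (0 : ℝ), ∀ p ∈ {N | N ∈ Y.per ∧ |Bf N o| ≤ 3 * R} ×ˢ
        {N | N ∈ Y.per ∧ |Bf N o| ≤ 3 * R}, p.1 ≠ p.2 → Bf p.1 p.2 < -1 - η := by
      refine (Filter.eventually_all_finite (fin.prod fin)).2 fun p hp => ?_
      by_cases c : p.1 = p.2
      · exact .of_forall fun _ d => absurd c d
      · have := Y.per_far _ hp.1.1 _ hp.2.1 c
        filter_upwards [Ioo_mem_nhdsGT (show (0 : ℝ) < -1 - Bf p.1 p.2 by linarith)] with η a _
        linarith [a.2]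
    obtain ⟨η, a, b⟩ := (this.and self_mem_nhdsWithin).exists
    exact ⟨η, b, a⟩
  refine ⟨min 1 (η / 2), lt_min one_pos (half_pos hη), fun N hN N' hN' x a b => ?_⟩
  by_contra c
  obtain ⟨a1, a2⟩ := lt_min_iff.1 a
  obtain ⟨b1, b2⟩ := lt_min_iff.1 b
  have s : 0 < bf N x + bf N' x := Bf_add_pos (un N hN) (un N' hN') (Y.per_far N hN N' hN' c)
    (add_pos (Y.per_o N hN) (Y.per_o N' hN')) x.2.fut
  have a3 : |bf N x| ≤ 1 := abs_le.2 ⟨by linarith only [b1, s], a1.le⟩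
  have b3 : |bf N' x| ≤ 1 := abs_le.2 ⟨by linarith only [a1, s], b1.le⟩
  obtain ⟨γ, hγ⟩ := hR N hN x a3
  have key : ∀ M ∈ Y.per, |bf M x| ≤ 1 → Y.σ γ • M ∈ {N | N ∈ Y.per ∧ |Bf N o| ≤ 3 * R} :=
    fun M hM d => by
      refine ⟨Y.per_smul γ M hM, ?_⟩
      have e := abs_Bf_le (un _ (Y.per_smul γ M hM)) H2_o (Y.σ γ • x).2
      have e1 : ch (Y.σ γ • x).1 o ≤ R := by
        rw [ch_comm]
        exact hγ
      have e2 := one_le_ch (Y.σ γ • x).2 H2_o
      have e3 : |Bf (Y.σ γ • M) (Y.σ γ • x).1| ≤ 1 := by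
        rw [coe_smul, Bf_isom]
        exact d
      nlinarith only [e, e1, e2, e3]
  have k := h (Y.σ γ • N, Y.σ γ • N') ⟨key N hN a3, key N' hN' b3⟩
    fun e => c (smul_left_cancel _ e)
  rw [Bf_isom] at k
  nlinarith only [base_lower (un N hN) (un N' hN') x, a1, a2, b1, b2, s, k]

namespace Ends

variable [T2Space S] (Z : Ends Y S m)

omit [T2Space S] in
theorem base_ne (x : X) (i : Fin m) : Z.π x ≠ Z.ctr i := (Z.rng _).1 ⟨x, rfl⟩ i

omit [T2Space S] in
/-- A point is a centre, lies deep in a funnel, or lies in the image of a compact set. -/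
theorem base_cases (r : ℝ) : ∃ K : Set X, IsCompact K ∧ ∀ s : S,
    (∃ i, s = Z.ctr i) ∨ (∃ i x, bf (Z.B i) x ≤ r ∧ Z.π x = s) ∨ s ∈ Z.π '' K := by
  obtain ⟨K, hK, h⟩ := base_core Y r
  refine ⟨K, hK, fun s => ?_⟩
  by_cases a : ∀ i, s ≠ Z.ctr i
  · obtain ⟨x, rfl⟩ := (Z.rng s).2 a
    by_cases b : ∀ N ∈ Y.per, r ≤ bf N x
    · obtain ⟨γ, hγ⟩ := h x b
      exact Or.inr (Or.inr ⟨_, hγ, Z.π_smul γ x⟩)
    · push Not at b
      obtain ⟨N, hN, c⟩ := b
      obtain ⟨i, γ, rfl⟩ := Z.orb N hN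
      refine Or.inr (Or.inl ⟨i, Y.σ γ⁻¹ • x, ?_, Z.π_smul _ x⟩)
      rw [← bf_smul (Y.σ γ), map_inv, smul_inv_smul]
      exact c.le
  · push Not at a
    exact Or.inl a

theorem base_opn : IsOpenMap Z.π := by
  intro U hU
  rw [isOpen_iff_mem_nhds]
  rintro _ ⟨x, hx, rfl⟩
  choose A B hA hB xA cB dj using fun i => t2_separation (Z.base_ne x i)
  choose r hr using fun i => Z.lim i (B i) ((hB i).mem_nhds (cB i))
  obtain ⟨r₀, h₀⟩ := (finite_range r).bddBelow
  obtain ⟨K, hK, h⟩ := Z.base_cases r₀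
  have c : IsCompact (Z.π '' (K ∩ ⋂ γ, (fun y => Y.σ γ • y) ⁻¹' Uᶜ)) :=
    (hK.inter_right (isClosed_iInter fun γ =>
      hU.isClosed_compl.preimage (continuous_const_smul _))).image Z.cont
  have n : Z.π x ∉ Z.π '' (K ∩ ⋂ γ, (fun y => Y.σ γ • y) ⁻¹' Uᶜ) := by
    rintro ⟨y, ⟨-, a⟩, e⟩
    obtain ⟨γ, rfl⟩ := (Z.fib x y).1 e.symm
    exact mem_iInter.1 a γ hx
  filter_upwards [c.isClosed.isOpen_compl.mem_nhds n,
    Filter.iInter_mem.2 fun i => (hA i).mem_nhds (xA i)] with s a b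
  rw [mem_iInter] at b
  rcases h s with ⟨i, rfl⟩ | ⟨i, y, e, rfl⟩ | ⟨y, e, rfl⟩
  · exact absurd (cB i) (disjoint_left.1 (dj i) (b i))
  · exact absurd (hr i y (e.trans (h₀ ⟨i, rfl⟩))) (disjoint_left.1 (dj i) (b i))
  · by_contra d
    exact a ⟨y, ⟨e, mem_iInter.2 fun γ k => d ⟨_, k, Z.π_smul γ y⟩⟩, rfl⟩

/-- Different ends belong to different orbits of boundary lines. -/
theorem base_orb {i j : Fin m} {δ : Γ} (h : Z.B i = Y.σ δ • Z.B j) : i = j := by
  by_contra c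
  obtain ⟨A, B, hA, hB, a, b, dj⟩ := t2_separation fun e => c (Z.inj e)
  obtain ⟨r, hr⟩ := Z.lim i A (hA.mem_nhds a)
  obtain ⟨r', hr'⟩ := Z.lim j B (hB.mem_nhds b)
  obtain ⟨-, f, -, -, hf, -⟩ := base_frame Y (Z.B_per j)
  have e : bf (Z.B j) (f • fm 0 (min r r')) = min r r' := by rw [← hf, bf_smul, bf_fm]
  have p := hr (Y.σ δ • f • fm 0 (min r r')) (by rw [h, bf_smul, e]; exact min_le_left _ _)
  rw [Z.π_smul] at p
  exact disjoint_left.1 dj p (hr' _ (by rw [e]; exact min_le_right _ _))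

end Ends

/-- Logarithmic coordinates on a half plane. -/
noncomputable def baseP (ε t : ℝ) (w : ℂ) : X :=
  fm (w.im * t / (2 * Real.pi)) (ε * (1 - Real.exp (-w.re)))

/-- The inverse coordinates. -/
noncomputable def baseQ (ε t s r : ℝ) : ℂ := ⟨Real.log (ε / (ε - r)), 2 * Real.pi * s / t⟩

variable {ε t : ℝ}

theorem baseP_cont : Continuous (baseP ε t) :=
  continuous_fm.comp (f := fun w : ℂ => (w.im * t / (2 * Real.pi), ε * (1 - Real.exp (-w.re))))
    (by fun_prop)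

theorem baseP_lt (hε : 0 < ε) (a : ℝ) : ε * (1 - Real.exp a) < ε := by
  nlinarith only [Real.exp_pos a, hε]

theorem baseP_Q (hε : 0 < ε) (ht : 0 < t) (s : ℝ) {r : ℝ} (hr : r < ε) :
    baseP ε t (baseQ ε t s r) = fm s r := by
  have := Real.pi_pos
  have a : 0 < ε - r := sub_pos.2 hr
  simp only [baseP, baseQ]
  rw [Real.exp_neg, Real.exp_log (div_pos hε a)]
  congr 1 <;> field_simp
  ring

theorem baseQ_P (hε : 0 < ε) (ht : 0 < t) (w : ℂ) :
    baseQ ε t (fs (baseP ε t w)) (bf E0 (baseP ε t w)) = w := by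
  have := Real.pi_pos
  simp only [baseP, baseQ, fs_fm, bf_fm]
  refine Complex.ext ?_ ?_ <;> simp only
  · rw [show ε / (ε - ε * (1 - Real.exp (-w.re))) = Real.exp w.re by
      rw [Real.exp_neg]; field_simp; ring, Real.log_exp]
  · field_simp

theorem baseP_open (hε : 0 < ε) (ht : 0 < t) : IsOpenMap (baseP ε t) := by
  intro W hW
  have c : ContinuousOn (fun x : X => baseQ ε t (fs x) (bf E0 x)) {x | bf E0 x < ε} := by
    have e : (fun x : X => baseQ ε t (fs x) (bf E0 x)) = fun x =>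
        (Real.log (ε / (ε - bf E0 x)) : ℂ) + (2 * Real.pi * fs x / t : ℝ) * Complex.I :=
      funext fun x => Complex.mk_eq_add_mul_I _ _
    rw [e]
    refine ContinuousOn.add (Complex.continuous_ofReal.comp_continuousOn (ContinuousOn.log
      (continuousOn_const.div (by fun_prop) fun x hx => (sub_pos.2 hx).ne')
      fun x hx => (div_pos hε (sub_pos.2 hx)).ne')) (Continuous.continuousOn ?_)
    have := continuous_fs
    fun_prop
  convert c.isOpen_inter_preimage (isOpen_lt (by fun_prop) continuous_const) hW using 1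
  ext x
  constructor
  · rintro ⟨w, hw, rfl⟩
    exact ⟨by rw [mem_ofPred_eq, baseP, bf_fm]; exact baseP_lt hε _,
      by rwa [mem_preimage, baseQ_P hε ht]⟩
  · rintro ⟨a, b⟩
    exact ⟨_, b, by rw [baseP_Q hε ht _ a, fm_fs]⟩

theorem baseQ_exp (hε : 0 < ε) (s : ℝ) {r : ℝ} (hr : r < ε) : Complex.exp (baseQ ε t s r) =
    (ε / (ε - r) : ℝ) * Complex.exp ((2 * Real.pi * s / t : ℝ) * Complex.I) := by
  rw [baseQ, Complex.mk_eq_add_mul_I, Complex.exp_add, ← Complex.ofReal_exp,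
    Real.exp_log (div_pos hε (sub_pos.2 hr))]

theorem Ends.exists_model [T2Space S] (Z : Ends Y S m) : ∃ M : Model Y S m, M.toEnds = Z := by
  classical
  obtain ⟨ε, hε, col⟩ := base_collar Y
  choose γ fr t ht hB hγ hst using fun i => base_frame Y (Z.B_per i)
  have hp := Real.pi_pos
  have opn := Z.base_opn
  obtain ⟨G, hG⟩ : ∃ G : Fin m → ℂ → S, ∀ i w, G i w = Z.π (fr i • baseP ε (t i) w) :=
    ⟨_, fun _ _ => rfl⟩
  have lev : ∀ i w, bf (Z.B i) (fr i • baseP ε (t i) w) = ε * (1 - Real.exp (-w.re)) :=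
    fun i w => by rw [← hB, bf_smul, baseP, bf_fm]
  have Gc : ∀ i, Continuous (G i) := fun i =>
    (Z.cont.comp (baseP_cont.const_smul (fr i))).congr fun w => (hG i w).symm
  have Go : ∀ i, IsOpenMap (G i) := fun i => by
    rw [show G i = Z.π ∘ (fun x => fr i • x) ∘ baseP ε (t i) from funext (hG i)]
    exact opn.comp ((isOpenMap_smul _).comp (baseP_open hε (ht i)))
  have Gp : ∀ i w w', Complex.exp w = Complex.exp w' → G i w = G i w' := fun i w w' e => by
    obtain ⟨k, rfl⟩ := Complex.exp_eq_exp_iff_exists_int.1 e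
    rw [hG, hG, ← Z.π_smul (γ i ^ k) (fr i • baseP ε (t i) w'), map_zpow, baseP, baseP,
      base_zpow (hγ i)]
    congr 3
    · simp only [Complex.add_im, Complex.mul_im, Complex.intCast_re, Complex.mul_re, Complex.re_ofNat, Complex.ofReal_re, Complex.im_ofNat, Complex.ofReal_im, mul_zero, sub_zero, Complex.I_im, mul_one, zero_mul, add_zero, Complex.I_re, Complex.intCast_im, sub_self]
      field_simp
    · simp
  have Gi : ∀ i j w w', G i w = G j w' → i = j ∧ Complex.exp w = Complex.exp w' :=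
    fun i j w w' e => by
      rw [hG, hG] at e
      obtain ⟨δ, hδ⟩ := (Z.fib _ _).1 e
      have a := col _ (Z.B_per i) _ (Y.per_smul δ _ (Z.B_per j)) (fr i • baseP ε (t i) w)
        (by rw [lev]; exact baseP_lt hε _) (by rw [hδ, bf_smul, lev]; exact baseP_lt hε _)
      obtain rfl := Z.base_orb a
      obtain ⟨k, rfl⟩ := hst i δ a.symm
      refine ⟨rfl, Complex.exp_eq_exp_iff_exists_int.2 ⟨k, ?_⟩⟩
      simp only [map_zpow] at hδ
      rw [baseP, baseP, base_zpow (hγ i), smul_left_cancel_iff] at hδ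
      have b := congrArg fs hδ
      have c := congrArg (bf E0) hδ
      rw [fs_fm, fs_fm] at b
      rw [bf_fm, bf_fm, mul_right_inj' hε.ne', sub_right_inj, Real.exp_eq_exp, neg_inj] at c
      have d := ht i
      refine Complex.ext (by simpa using c) ?_
      simp
      field_simp at b
      linarith only [b]
  obtain ⟨D, D0, De⟩ : ∃ D : Fin m → ℂ → S, (∀ i, D i 0 = Z.ctr i) ∧
      ∀ i w, D i (Complex.exp w) = G i w :=
    ⟨fun i z => if z = 0 then Z.ctr i else G i (Complex.log z), fun i => if_pos rfl,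
      fun i w => (if_neg (Complex.exp_ne_zero w)).trans
        (Gp i _ _ (Complex.exp_log (Complex.exp_ne_zero w)))⟩
  have pol : ∀ z : ℂ, z = 0 ∨ ∃ w, z = Complex.exp w := fun z =>
    or_iff_not_imp_left.2 fun h => ⟨_, (Complex.exp_log h).symm⟩
  have Di : ∀ i j z z', D i z = D j z' → i = j ∧ z = z' := fun i j z z' e => by
    rcases pol z with rfl | ⟨w, rfl⟩ <;> rcases pol z' with rfl | ⟨w', rfl⟩
    · exact ⟨Z.inj (by rwa [D0, D0] at e), rfl⟩
    · exact absurd (by rw [← D0, e, De, hG]) (Z.base_ne (fr j • baseP ε (t j) w') i)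
    · exact absurd (by rw [← D0, ← e, De, hG]) (Z.base_ne (fr i • baseP ε (t i) w) j)
    · exact Gi i j w w' (by rwa [De, De] at e)
  have Dπ : ∀ i (s r : ℝ), r < ε → Z.π (fr i • fm s r) =
      D i (Complex.exp (baseQ ε (t i) s r)) := fun i s r hr => by
    rw [De, hG, baseP_Q hε (ht i) s hr]
  have mapexp : ∀ w, Filter.map Complex.exp (𝓝 w) = 𝓝 (Complex.exp w) := fun w =>
    Complex.isOpenMap_exp.map_nhds_eq Complex.continuous_exp.continuousAt
  have comp : ∀ i, D i ∘ Complex.exp = G i := fun i => funext (De i)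
  have Dc : ∀ i, Continuous (D i) := fun i => continuous_iff_continuousAt.2 fun z => by
    rcases pol z with rfl | ⟨w, rfl⟩
    · intro U hU
      rw [D0] at hU
      obtain ⟨r, hr⟩ := Z.lim i U hU
      have p : 0 < ε / (ε + |r|) := by positivity
      rw [Filter.mem_map]
      filter_upwards [Metric.ball_mem_nhds (0 : ℂ) p] with z hz
      rcases pol z with rfl | ⟨w, rfl⟩
      · rw [mem_preimage, D0]
        exact mem_of_mem_nhds hU
      · rw [mem_preimage, De, hG]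
        refine hr _ ?_
        rw [mem_ball_zero_iff, Complex.norm_exp, lt_div_iff₀ (by positivity)] at hz
        have e : Real.exp w.re * Real.exp (-w.re) = 1 := by rw [← Real.exp_add]; simp
        have q := Real.exp_pos (-w.re)
        have u : ε + |r| < ε * Real.exp (-w.re) := by
          have := mul_lt_mul_of_pos_right hz q
          rwa [mul_right_comm, e, one_mul] at this
        rw [lev]
        linarith only [neg_abs_le r, u]
    · rw [ContinuousAt, ← mapexp, Filter.tendsto_map'_iff, comp, De]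
      exact (Gc i).continuousAt
  have deep : ∀ i x r, r < ε → bf (Z.B i) x ≤ r → ∃ z, Z.π x = D i z ∧ ‖z‖ ≤ ε / (ε - r) :=
    fun i x r hr hx => by
      have a : bf E0 ((fr i)⁻¹ • x) = bf (Z.B i) x := by
        rw [← bf_smul (fr i), hB, smul_inv_smul]
      have b := hx.trans_lt hr
      refine ⟨_, by rw [← Dπ i (fs ((fr i)⁻¹ • x)) _ b, ← a, fm_fs, smul_inv_smul], ?_⟩
      rw [Complex.norm_exp, baseQ, Real.exp_log (div_pos hε (sub_pos.2 b))]
      gcongr
  have Do : ∀ i, IsOpenMap (D i) := fun i => isOpenMap_iff_nhds_le.2 fun z => by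
    rcases pol z with rfl | ⟨w, rfl⟩
    · intro U hU
      obtain ⟨ρ, hρ, hb⟩ := Metric.nhds_basis_closedBall.mem_iff.1 hU
      have q := div_pos hε hρ
      obtain ⟨K, hK, h⟩ := Z.base_cases (-(ε / ρ))
      have cl : ∀ j, IsClosed (D j '' Metric.closedBall 0 ρ) := fun j =>
        ((isCompact_closedBall 0 ρ).image (Dc j)).isClosed
      have n1 : D i 0 ∉ Z.π '' K := by
        rintro ⟨x, -, e⟩
        exact Z.base_ne x i (e.trans (D0 i))
      have n2 : ∀ j, ∀ᶠ s in 𝓝 (D i 0), j ≠ i → s ∉ D j '' Metric.closedBall 0 ρ := fun j => by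
        by_cases c : j = i
        · exact .of_forall fun _ d => absurd c d
        · filter_upwards [(cl j).isOpen_compl.mem_nhds
            (x := D i 0) fun ⟨z, _, e⟩ => c (Di j i z 0 e).1] with s a _ using a
      filter_upwards [(hK.image Z.cont).isClosed.isOpen_compl.mem_nhds n1,
        Filter.eventually_all.2 n2] with s a b
      have fin : ∀ j z, ‖z‖ ≤ ρ → s = D j z → s ∈ U := fun j z c e => by
        obtain rfl : j = i := by_contra fun d =>
          b j d ⟨z, mem_closedBall_zero_iff.2 c, e.symm⟩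
        exact e ▸ hb (mem_closedBall_zero_iff.2 c)
      rcases h s with ⟨j, e⟩ | ⟨j, x, c, e⟩ | c
      · exact fin j 0 (by simpa only [norm_zero] using hρ.le) (e.trans (D0 j).symm)
      · obtain ⟨z, e', d⟩ := deep j x _ (by linarith only [hε, q]) c
        refine fin j z (d.trans ?_) (e.symm.trans e')
        rw [div_le_iff₀ (by linarith), sub_neg_eq_add, mul_add, mul_div_cancel₀ _ hρ.ne']
        nlinarith only [hε, hρ]
      · exact absurd c a
    · rw [← mapexp, Filter.map_map, comp, De]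
      exact (Go i).nhds_le w
  exact ⟨{ Z with
    γ := γ, fr := fr, t := t, ε := ε, D := D, opn := opn, t_pos := ht, ε_pos := hε, fr_B := hB
    fr_γ := hγ, stab := hst, collar := col
    emb := fun i => .of_continuous_injective_isOpenMap (Dc i) (fun z z' e => (Di i i z z' e).2) (Do i)
    disj := fun i j z w e => (Di i j z w e).1
    D0 := D0
    Dπ := fun i s r hr => by rw [Dπ i s r hr, baseQ_exp hε s hr] }, rfl⟩

end Pool.Agent.MP_646035_al.MC
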