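import Pool.Agent.MP_646035_al.Cx.Lift

attribute [-instance] Prod.instSMul SMulWithZero.toSMulZeroClass Semiring.toMonoid
  AddMonoidWithOne.toAddMonoid ESeminormedAddCommMonoid.toAddCommMonoid AddCommGroup.toAddGroup
  ESeminormedAddMonoid.toAddMonoid Algebra.toSMul MonTypeEquivalenceMon.monMonoid Prod.mulAction
  IdemSemiring.toCanonicallyOrderedAdd AddQuantale.instAddLeftMono SemigroupWithZero.toSemigroup
  SetLike.GradeZero.instMonoid NumberField.to_charZero NonUnitalNonAssocSemiring.toAddCommMonoid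

/-!
The hyperbolic model of a surface with holes: the definitions of part C.
-/

namespace Pool.Agent.MP_646035_al.MC

open Pool.Agent.MP_4a6971_al Pool.Agent.MP_4a6971_al.H66 Pool.Agent.MP_4a6971_al.H83
  Pool.Agent.MP_4a6971_al.Mcg Set Topology

/-- Coordinates adapted to the standard axis: `s` along it, `r` is the value of its form. -/
noncomputable def fm (s r : ℝ) : X :=
  ⟨(√(1 + r ^ 2) * Real.exp (-s), r, √(1 + r ^ 2) * Real.exp s), H2.of_eq (by
      rw [mul_mul_mul_comm, Real.mul_self_sqrt (by positivity), ← Real.exp_add]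
      simp) (by positivity)⟩

theorem bf_fm (s r : ℝ) : bf E0 (fm s r) = r := Bf_E0 _

theorem dil_fm (t s r : ℝ) : dil t • fm s r = fm (s + t) r := Subtype.ext (by
  rw [coe_smul, dil_smul]
  simp only [fm, neg_add, Real.exp_add, mul_assoc])

theorem continuous_fm : Continuous fun p : ℝ × ℝ => fm p.1 p.2 :=
  Continuous.subtype_mk (by fun_prop) _

/-- The coordinate along the standard axis. -/
noncomputable def fs (x : X) : ℝ := Real.log (x.1.2.2 / x.1.1) / 2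

theorem fs_fm (s r : ℝ) : fs (fm s r) = s := by
  have : √(1 + r ^ 2) ≠ 0 := by positivity
  simp only [fs, fm]
  rw [mul_div_mul_left _ _ this, ← Real.exp_sub, Real.log_exp]
  ring

theorem pos_snd (x : X) : 0 < x.1.2.2 := by
  have a := x.2.eq
  have b := x.2.2
  by_contra! c
  linarith only [mul_nonneg b.le (neg_nonneg.2 c), sq_nonneg x.1.2.1, a]

theorem continuous_fs : Continuous fs := by
  refine Continuous.div_const (Continuous.log (Continuous.div (by fun_prop) (by fun_prop)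
    fun x => x.2.2.ne') fun x => (div_pos (pos_snd x) x.2.2).ne') _

theorem fm_fs (x : X) : fm (fs x) (bf E0 x) = x := by
  have a := x.2.eq
  have b := x.2.2
  have c := pos_snd x
  have e : Real.exp (fs x) ^ 2 = x.1.2.2 / x.1.1 := by
    rw [sq, ← Real.exp_add, fs, add_halves, Real.exp_log (div_pos c b)]
  have p := Real.exp_pos (fs x)
  have q : √(1 + x.1.2.1 ^ 2) = x.1.1 * Real.exp (fs x) := by
    rw [Real.sqrt_eq_iff_mul_self_eq_of_pos (by positivity), mul_mul_mul_comm,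
      ← sq (Real.exp _), e, ← a]
    field_simp
  refine Subtype.ext (Prod.ext ?_ (Prod.ext (Bf_E0 _) ?_))
  · simp only [fm, bf, Bf_E0]
    rw [q, Real.exp_neg, mul_assoc, mul_inv_cancel₀ p.ne', mul_one]
  · simp only [fm, bf, Bf_E0]
    rw [q, mul_assoc, ← sq, e]
    field_simp

variable {Γ : Type} [Group Γ]

namespace Fuchs

variable (Y : Fuchs Γ)

/-- `F` commutes with the group. -/
def Comm (F : X ≃ₜ X) : Prop := ∀ γ x, F (Y.σ γ • x) = Y.σ γ • F x

/-- `F` is the identity below the level `r` behind every boundary line. -/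
def Fix (r : ℝ) (F : X ≃ₜ X) : Prop := ∀ N ∈ Y.per, ∀ x, bf N x ≤ r → F x = x

/-- The relative theorem of Baer and Epstein, with a loss of level. -/
def Baer (ρ : ℝ) : Prop :=
  ∀ F : X ≃ₜ X, Y.Comm F → Y.Fix 0 F → ∃ H : ℝ → X ≃ₜ X,
    Continuous (fun p : ℝ × X => H p.1 p.2) ∧ (∀ t, Y.Comm (H t) ∧ Y.Fix ρ (H t)) ∧
      H 0 = 1 ∧ H 1 = F

/-- `α` is a non trivial element that stabilises a boundary line. -/
def Peri (α : Γ) : Prop := α ≠ 1 ∧ ∃ N ∈ Y.per, Y.σ α • N = N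

/-- The group is the group of a pair of pants. -/
def Pants : Prop :=
  ∃ x y : Γ, Subgroup.closure {x, y} = ⊤ ∧ Y.Peri x ∧ Y.Peri y ∧ Y.Peri (x * y)

/-- Every curve is crossed by a curve. -/
def Fill : Prop := ∀ E, Y.Curve E → ∃ F, Y.Curve F ∧ Cr E F

end Fuchs

/-- The quotient of the plane is `S` without `m` centres; the funnel behind `B i` ends at the
centre `i`. -/
structure Ends (Y : Fuchs Γ) (S : Type) [TopologicalSpace S] (m : ℕ) where
  ctr : Fin m → S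
  inj : Function.Injective ctr
  π : X → S
  cont : Continuous π
  rng : ∀ s, (∃ x, π x = s) ↔ ∀ i, s ≠ ctr i
  fib : ∀ x y, π x = π y ↔ ∃ γ, x = Y.σ γ • y
  B : Fin m → V
  B_per : ∀ i, B i ∈ Y.per
  orb : ∀ N ∈ Y.per, ∃ i γ, N = Y.σ γ • B i
  lim : ∀ i, ∀ U ∈ 𝓝 (ctr i), ∃ r, ∀ x, bf (B i) x ≤ r → π x ∈ U

/-- A covering together with charts at the holes. -/
structure Model (Y : Fuchs Γ) (S : Type) [TopologicalSpace S] (m : ℕ) extends Ends Y S m where
  γ : Fin m → Γ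
  fr : Fin m → Isom
  t : Fin m → ℝ
  ε : ℝ
  D : Fin m → ℂ → S
  opn : IsOpenMap π
  t_pos : ∀ i, 0 < t i
  ε_pos : 0 < ε
  fr_B : ∀ i, fr i • E0 = B i
  fr_γ : ∀ i, Y.σ (γ i) * fr i = fr i * dil (t i)
  stab : ∀ i δ, Y.σ δ • B i = B i → δ ∈ Subgroup.zpowers (γ i)
  collar : ∀ N ∈ Y.per, ∀ N' ∈ Y.per, ∀ x, bf N x < ε → bf N' x < ε → N = N'
  emb : ∀ i, IsOpenEmbedding (D i)
  disj : ∀ i j z w, D i z = D j w → i = j
  D0 : ∀ i, D i 0 = ctr i
  Dπ : ∀ i (s r : ℝ), r < ε → π (fr i • fm s r) =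
    D i ((ε / (ε - r) : ℝ) * Complex.exp ((2 * Real.pi * s / t i : ℝ) * Complex.I))

variable {Y : Fuchs Γ} {S : Type} [TopologicalSpace S] {m : ℕ}

theorem Ends.π_smul (Z : Ends Y S m) (γ : Γ) (x : X) : Z.π (Y.σ γ • x) = Z.π x :=
  (Z.fib _ _).2 ⟨γ, rfl⟩

namespace Model

variable (Z : Model Y S m) (T : Finset (Fin m))

theorem bf_fr (i : Fin m) (s r : ℝ) : bf (Z.B i) (Z.fr i • fm s r) = r := by
  rw [← Z.fr_B, bf_smul, bf_fm]

theorem exists_fm (i : Fin m) (x : X) : ∃ s, x = Z.fr i • fm s (bf (Z.B i) x) :=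
  ⟨fs ((Z.fr i)⁻¹ • x), by
    rw [← inv_smul_eq_iff, ← Z.fr_B, ← bf_smul (Z.fr i)⁻¹, inv_smul_smul, fm_fs]⟩

theorem γ_fm (i : Fin m) (s r : ℝ) :
    Y.σ (Z.γ i) • Z.fr i • fm s r = Z.fr i • fm (s + Z.t i) r := by
  rw [← mul_smul, Z.fr_γ, mul_smul, dil_fm]

/-- Every point of the punctured chart comes from the funnel or its collar. -/
theorem exists_pt (i : Fin m) {z : ℂ} (hz : z ≠ 0) :
    ∃ x, Z.π x = Z.D i z ∧ bf (Z.B i) x = Z.ε * (1 - ‖z‖⁻¹) := by
  have p := Z.ε_pos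
  have q := norm_pos_iff.2 hz
  have tp := Z.t_pos i
  have hp := Real.pi_pos
  refine ⟨Z.fr i • fm (z.arg * Z.t i / (2 * Real.pi)) (Z.ε * (1 - ‖z‖⁻¹)), ?_, Z.bf_fr _ _ _⟩
  rw [Z.Dπ _ _ _ (by linarith only [mul_pos p (inv_pos.2 q)])]
  congr 1
  rw [show Z.ε / (Z.ε - Z.ε * (1 - ‖z‖⁻¹)) = ‖z‖ by field_simp; ring,
    show 2 * Real.pi * (z.arg * Z.t i / (2 * Real.pi)) / Z.t i = z.arg by field_simp]
  exact Complex.norm_mul_exp_arg_mul_I z

/-- The points of the funnel and its collar lie in the chart. -/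
theorem exists_z (i : Fin m) {x : X} (hx : bf (Z.B i) x < Z.ε) :
    ∃ z, Z.π x = Z.D i z ∧ ‖z‖ = Z.ε / (Z.ε - bf (Z.B i) x) := by
  obtain ⟨s, e⟩ := Z.exists_fm i x
  refine ⟨_, (congrArg Z.π e).trans (Z.Dπ i s _ hx), ?_⟩
  rw [norm_mul, Complex.norm_exp_ofReal_mul_I, mul_one, Complex.norm_real, Real.norm_eq_abs,
    abs_of_pos (div_pos Z.ε_pos (sub_pos.2 hx))]

/-- The standard marks: the holes in `T` are boundary components, the others are punctures. -/
noncomputable def marks : Marks S where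
  P := Tᶜ.map ⟨Z.ctr, Z.inj⟩
  b := T.card
  d k := Z.D (T.orderEmbOfFin rfl k)
  emb _ := Z.emb _
  disj _ _ z w h := (T.orderEmbOfFin rfl).injective (Z.disj _ _ z w h)
  avoid k z h := by
    obtain ⟨j, a, b⟩ := Finset.mem_map.1 h
    have e := Z.disj _ _ _ _ ((Z.D0 j).trans b)
    exact Finset.mem_compl.1 a (e ▸ T.orderEmbOfFin_mem rfl k)

theorem mem_P {x : S} : x ∈ (Z.marks T).P ↔ ∃ i, i ∉ T ∧ Z.ctr i = x := by
  simp only [marks, Finset.mem_map, Finset.mem_compl, Function.Embedding.coeFn_mk]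

theorem mem_adm {f : S ≃ₜ S} : f ∈ (Z.marks T).Adm ↔
    (∀ x, (∃ i, i ∉ T ∧ Z.ctr i = f x) ↔ ∃ i, i ∉ T ∧ Z.ctr i = x) ∧
      ∀ i ∈ T, ∀ z : ℂ, ‖z‖ ≤ 1 → f (Z.D i z) = Z.D i z := by
  refine and_congr (forall_congr' fun x => iff_congr (Z.mem_P T) (Z.mem_P T))
    ⟨fun h i hi => ?_, fun h k => h _ (T.orderEmbOfFin_mem rfl k)⟩
  obtain ⟨k, rfl⟩ : i ∈ range (T.orderEmbOfFin rfl) := by
    rw [Finset.range_orderEmbOfFin]
    exact hi
  exact h k

theorem card_P : (Z.marks T).P.card = m - T.card := by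
  simp only [marks, Finset.card_map, Finset.card_compl, Fintype.card_fin]

theorem mem_ctr {x : S} : x ∈ (Z.marks T).ctr ↔ ∃ i, Z.ctr i = x := by
  constructor
  · rintro (h | ⟨k, rfl⟩)
    · obtain ⟨i, -, e⟩ := (Z.mem_P T).1 h
      exact ⟨i, e⟩
    · exact ⟨_, (Z.D0 _).symm⟩
  · rintro ⟨i, rfl⟩
    by_cases hi : i ∈ T
    · obtain ⟨k, rfl⟩ : i ∈ range (T.orderEmbOfFin rfl) := by
        rw [Finset.range_orderEmbOfFin]
        exact hi
      exact Or.inr ⟨k, (Z.D0 _).symm⟩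
    · exact Or.inl ((Z.mem_P T).2 ⟨i, hi, rfl⟩)

theorem cov : Cov Y (Z.marks T) Z.π :=
  Cov.of_open Z.cont Z.opn (fun y => (Z.rng y).trans (by
    rw [Z.mem_ctr, not_exists]
    exact forall_congr' fun i => ne_comm)) Z.fib

/-- A homeomorphism with a lift that commutes with the group and is the identity behind the
boundary components is isotopic to the identity. -/
def Ker : Prop :=
  ∀ (f : (Z.marks T).Homeo) F, Y.Lifts Z.π f.1 F 1 →
    (∀ i ∈ T, ∀ x, bf (Z.B i) x ≤ 0 → F x = x) → f ∈ (Z.marks T).Zero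

end Model

/-- The concrete model. -/
def GoalModel : Prop :=
  ∀ g m : ℕ, 3 ≤ 2 * g + m →
    ∃ (Γ : Type) (_ : Group Γ) (_ : Group.FG Γ) (Y : Fuchs Γ), Nonempty (Ends Y (Surface g) m) ∧
      (∃ ρ, Y.Baer ρ) ∧ Y.Fill ∧ (g = 0 ∧ m = 3 → Y.Pants) ∧ (¬ (g = 0 ∧ m = 3) → ∃ E, Y.Curve E)

end Pool.Agent.MP_646035_al.MC
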