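import Pool.Agent.MP_4a6971_al.H83.Schoen

attribute [-instance] AddQuantale.instAddLeftMono LieAdmissibleAlgebra.toModule
  RightPreLieAlgebra.toModule LeftPreLieAlgebra.toModule
  ContinuousAddMonoidHom.instCoeOutOfAddMonoidHomClassOfContinuousMapClass
  AddQuantale.instAddRightMono NumberField.to_charZero IdemSemiring.toCanonicallyOrderedAdd
  GrpTypeEquivalenceGrp.grpGroup NonarchimedeanRing.toIsTopologicalRing
  MonTypeEquivalenceMon.monMonoid ProperSMul.toContinuousSMul Valued.toUniformSpace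
  Quantale.instMulRightMono NonarchimedeanAddGroup.toIsTopologicalAddGroup
  MonoidWithZeroHomClass.toMonoidHomClass CStarAlgebra.instOrderClosedTopology
  continuousSub_of_discreteTopology ContDiffMapSupportedInClass.toDFunLike
  LinearOrderedCommMonoidWithZero.toIsBotZeroClass NormedRing.toRing

/-!
Any two closed topological discs in the interior of a compact convex set of the plane are exchanged
by a homeomorphism of the plane supported in that set.
-/

namespace Pool.Agent.MP_646035_al.MC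

open Set Topology Metric Complex Pool.Agent.MP_4a6971_al.H83

/-- A function that increases in one direction takes its maximum outside the open part. -/
theorem dp_max {Ω J : Set ℂ} (hΩ : IsOpen Ω) (hc : IsCompact (Ω ∪ J)) (hne : Ω.Nonempty)
    {f : ℂ → ℝ} (hf : Continuous f) (v : ℂ) (hv : ∀ z, ∀ s : ℝ, 0 < s → f z < f (z + s • v)) :
    ∃ w ∈ J, (∀ y ∈ Ω, f y < f w) ∧ ∀ y ∈ Ω ∪ J, f y ≤ f w := by
  obtain ⟨w, hw, hm⟩ := hc.exists_isMaxOn (hne.mono subset_union_left) hf.continuousOn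
  have key : ∀ y ∈ Ω, f y < f w := fun y hy => by
    obtain ⟨ε, ε0, hε⟩ := Metric.isOpen_iff.1 hΩ y hy
    have hn : 0 < ‖v‖ + 1 := by positivity
    have s0 : 0 < ε / (‖v‖ + 1) := div_pos ε0 hn
    have m : y + (ε / (‖v‖ + 1)) • v ∈ Ω := by
      refine hε ?_
      rw [mem_ball_iff_norm, add_sub_cancel_left, norm_smul, Real.norm_of_nonneg s0.le,
        div_mul_eq_mul_div, div_lt_iff₀ hn]
      linarith only [ε0]
    exact (hv y _ s0).trans_le (hm (Or.inl m))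
  exact ⟨w, hw.resolve_left fun a => lt_irrefl _ (key w a), key, fun y hy => hm hy⟩

/-- The open triangle with vertices `± i / 3` and `σ / 3`. -/
def dp_V (σ : ℝ) : Set ℂ :=
  {z | 0 < σ * z.re ∧ σ * z.re + z.im < 1 / 3 ∧ σ * z.re - z.im < 1 / 3}

theorem dp_V_convex (σ : ℝ) : Convex ℝ (dp_V σ) := by
  rintro x ⟨x1, x2, x3⟩ y ⟨y1, y2, y3⟩ a b ha hb hab
  have key : ∀ u v r : ℝ, u < r → v < r → a * u + b * v < r := fun u v r hu hv => by
    rcases ha.eq_or_lt with rfl | ha'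
    · rw [zero_add] at hab
      simpa [hab] using hv
    · have e : a * r + b * r = r := by rw [← add_mul, hab, one_mul]
      linarith only [mul_pos ha' (sub_pos.2 hu), mul_nonneg hb (sub_pos.2 hv).le, e]
  have k1 := key (-(σ * x.re)) (-(σ * y.re)) 0 (by linarith only [x1]) (by linarith only [y1])
  have k2 := key _ _ _ x2 y2
  have k3 := key _ _ _ x3 y3
  refine ⟨?_, ?_, ?_⟩ <;>
    simp only [add_re, add_im, real_smul, mul_re, mul_im, ofReal_re, ofReal_im, zero_mul, sub_zero,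
      add_zero] <;> linarith only [k1, k2, k3]

/-- A disc whose boundary lies in the boundary of the triangle is the closed triangle. -/
theorem dp_tri {σ : ℝ} (hσ : σ * σ = 1) {Ω J : Set ℂ} (hΩ : IsOpen Ω) (hc : IsCompact (Ω ∪ J))
    (hne : Ω.Nonempty) (hcl : Ω ∪ J ⊆ closure Ω)
    (h1 : ∀ w ∈ J, 0 ≤ σ * w.re ∧ σ * w.re + w.im ≤ 1 / 3 ∧ σ * w.re - w.im ≤ 1 / 3)
    (h2 : ∀ w ∈ J, w ∉ dp_V σ) : Ω ∪ J = closure (dp_V σ) := by
  have a : Ω ⊆ dp_V σ := fun y hy => by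
    obtain ⟨w₁, m₁, b₁, -⟩ := dp_max hΩ hc hne (f := fun z => -(σ * z.re)) (by fun_prop)
      (-(σ : ℂ)) (fun z s hs => by simp only [smul_neg, real_smul, add_re, neg_re, mul_re, ofReal_re, ofReal_im, mul_zero, sub_zero, neg_lt_neg_iff]; nlinarith only [hσ, hs])
    obtain ⟨w₂, m₂, b₂, -⟩ := dp_max hΩ hc hne (f := fun z => σ * z.re + z.im) (by fun_prop)
      I (fun z s hs => by simpa using hs)
    obtain ⟨w₃, m₃, b₃, -⟩ := dp_max hΩ hc hne (f := fun z => σ * z.re - z.im) (by fun_prop)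
      (-I) (fun z s hs => by simp; linarith)
    have c₁ := b₁ y hy
    have c₂ := b₂ y hy
    have c₃ := b₃ y hy
    exact ⟨by linarith [(h1 _ m₁).1], c₂.trans_le (h1 _ m₂).2.1, c₃.trans_le (h1 _ m₃).2.2⟩
  have b : dp_V σ ⊆ Ω := by
    obtain ⟨y, hy⟩ := hne
    refine (dp_V_convex σ).isPreconnected.subset_of_closure_inter_subset hΩ ⟨y, a hy, hy⟩ ?_
    rintro z ⟨z1, z2⟩
    exact (closure_minimal subset_union_left hc.isClosed z1).resolve_right fun m => h2 z m z2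
  rw [← a.antisymm b]
  exact hcl.antisymm (closure_minimal subset_union_left hc.isClosed)

/-- A proper arc of the unit disc from `i` to `-i` whose middle third is a given arc. -/
theorem dp_arc {a : ℝ → ℂ} (hc : ContinuousOn a (Icc 0 1)) (hi : InjOn a (Icc 0 1))
    (hb : ∀ t ∈ Icc (0 : ℝ) 1, a t ∈ ball (0 : ℂ) 1)
    (hm : ∀ t ∈ Icc (0 : ℝ) 1, (a 1).im ≤ (a t).im ∧ (a t).im ≤ (a 0).im) :
    ∃ γ : ℝ → ℂ, PArc (closedBall (0 : ℂ) 1) γ ∧ γ 0 = I ∧ γ 1 = -I ∧
      (∀ s ∈ Icc (0 : ℝ) 1, γ ((s + 1) / 3) = a s) ∧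
      ∀ t ∈ Icc (0 : ℝ) 1, (a 0).im < (γ t).im ∨ (γ t).im < (a 1).im ∨ ∃ s ∈ Icc (0 : ℝ) 1,
        γ t = a s := by
  have z0 : (0 : ℝ) ∈ Icc (0 : ℝ) 1 := by simp only [mem_Icc, Std.le_refl, zero_le_one, and_self]
  have z1 : (1 : ℝ) ∈ Icc (0 : ℝ) 1 := by simp only [mem_Icc, zero_le_one, Std.le_refl, and_self]
  have hB : interior (closedBall (0 : ℂ) 1) = ball 0 1 := interior_closedBall 0 one_ne_zero
  obtain ⟨γ, hγ⟩ : ∃ γ : ℝ → ℂ, γ = fun t => a (max 0 (min (3 * t - 1) 1)) +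
    (max (1 - 3 * t) 0) • (I - a 0) + (max (3 * t - 2) 0) • (-I - a 1) := ⟨_, rfl⟩
  have p1 : ∀ t : ℝ, 3 * t ≤ 1 → γ t = a 0 + (1 - 3 * t) • (I - a 0) := fun t ht => by
    rw [hγ]
    beta_reduce
    rw [min_eq_left (by linarith), max_eq_left (by linarith), max_eq_left (by linarith),
      max_eq_right (by linarith), zero_smul, add_zero]
  have p2 : ∀ t : ℝ, 1 ≤ 3 * t → 3 * t ≤ 2 → γ t = a (3 * t - 1) := fun t ht ht' => by
    rw [hγ]
    beta_reduce
    rw [min_eq_left (by linarith), max_eq_right (by linarith), max_eq_right (by linarith),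
      max_eq_right (by linarith), zero_smul, zero_smul, add_zero, add_zero]
  have p3 : ∀ t : ℝ, 2 ≤ 3 * t → γ t = a 1 + (3 * t - 2) • (-I - a 1) := fun t ht => by
    rw [hγ]
    beta_reduce
    rw [min_eq_right (by linarith), max_eq_right zero_le_one, max_eq_right (by linarith),
      max_eq_left (by linarith), zero_smul, add_zero]
  have i0 : (a 0).im < 1 :=
    ((le_abs_self _).trans (abs_im_le_norm _)).trans_lt (mem_ball_zero_iff.1 (hb 0 z0))
  have i1 : -(a 1).im < 1 :=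
    ((neg_le_abs _).trans (abs_im_le_norm _)).trans_lt (mem_ball_zero_iff.1 (hb 1 z1))
  have q1 : ∀ t : ℝ, 3 * t ≤ 1 → (γ t).im = (a 0).im + (1 - 3 * t) * (1 - (a 0).im) :=
    fun t ht => by rw [p1 t ht]; simp
  have q3 : ∀ t : ℝ, 2 ≤ 3 * t → (γ t).im = (a 1).im + (3 * t - 2) * (-1 - (a 1).im) :=
    fun t ht => by rw [p3 t ht]; simp
  have r1 : ∀ t : ℝ, 3 * t < 1 → (a 0).im < (γ t).im := fun t ht => by
    rw [q1 t ht.le]; nlinarith only [i0, ht]
  have r3 : ∀ t : ℝ, 2 < 3 * t → (γ t).im < (a 1).im := fun t ht => by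
    rw [q3 t ht.le]; nlinarith only [i1, ht]
  have m2 : ∀ t : ℝ, 1 ≤ 3 * t → 3 * t ≤ 2 → 3 * t - 1 ∈ Icc (0 : ℝ) 1 := fun t h h' =>
    ⟨by linarith, by linarith⟩
  have r2 : ∀ t : ℝ, 1 ≤ 3 * t → 3 * t ≤ 2 → (a 1).im ≤ (γ t).im ∧ (γ t).im ≤ (a 0).im :=
    fun t h h' => by rw [p2 t h h']; exact hm _ (m2 t h h')
  have h10 := (hm 0 z0).1
  have e0 : γ 0 = I := by rw [p1 0 (by norm_num)]; simp
  have e1 : γ 1 = -I := by rw [p3 1 (by norm_num)]; norm_num only [one_smul, add_sub_cancel]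
  refine ⟨γ, ⟨?_, ?_, by simp [e0], by simp [e0, hB], by simp [e1], by simp [e1, hB], ?_⟩, e0, e1,
    fun s hs => ?_, fun t _ => ?_⟩
  · rw [hγ]
    refine (ContinuousOn.add (hc.comp (by fun_prop) fun t _ => ?_) (by fun_prop)).add (by fun_prop)
    exact ⟨le_max_left _ _, max_le zero_le_one (min_le_right _ _)⟩
  · intro t _ t' _ e
    have e' : (γ t).im = (γ t').im := by rw [e]
    rcases lt_or_ge (3 * t) 1 with a1 | a1 <;> rcases lt_or_ge (3 * t') 1 with b1 | b1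
    · rw [q1 t a1.le, q1 t' b1.le] at e'
      have := mul_right_cancel₀ (sub_pos.2 i0).ne' (add_left_cancel e')
      linarith only [this]
    · have := r1 t a1
      rcases le_or_gt (3 * t') 2 with b2 | b2
      · linarith [(r2 t' b1 b2).2]
      · linarith [r3 t' b2]
    · have := r1 t' b1
      rcases le_or_gt (3 * t) 2 with a2 | a2
      · linarith [(r2 t a1 a2).2]
      · linarith [r3 t a2]
    · rcases le_or_gt (3 * t) 2 with a2 | a2 <;> rcases le_or_gt (3 * t') 2 with b2 | b2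
      · rw [p2 t a1 a2, p2 t' b1 b2] at e
        linarith [hi (m2 t a1 a2) (m2 t' b1 b2) e]
      · linarith [(r2 t a1 a2).1, r3 t' b2]
      · linarith [(r2 t' b1 b2).1, r3 t a2]
      · rw [q3 t a2.le, q3 t' b2.le] at e'
        have := mul_right_cancel₀ (show -1 - (a 1).im ≠ 0 by linarith) (add_left_cancel e')
        linarith only [this]
  · intro t ht
    rcases le_or_gt (3 * t) 1 with a1 | a1
    · have := (convex_closedBall (0 : ℂ) 1).combo_interior_self_mem_interior (hB ▸ hb 0 z0)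
        (show I ∈ closedBall (0 : ℂ) 1 by simp) (a := 3 * t) (b := 1 - 3 * t) (by linarith [ht.1])
        (by linarith) (by ring)
      rw [p1 t a1]
      convert this using 1
      module
    rcases le_or_gt (3 * t) 2 with a2 | a2
    · rw [p2 t a1.le a2, hB]
      exact hb _ (m2 t a1.le a2)
    · have := (convex_closedBall (0 : ℂ) 1).combo_interior_self_mem_interior (hB ▸ hb 1 z1)
        (show -I ∈ closedBall (0 : ℂ) 1 by simp) (a := 3 - 3 * t) (b := 3 * t - 2)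
        (by linarith only [ht.2]) (by linarith) (by ring)
      rw [p3 t a2.le]
      convert this using 1
      module
  · rw [p2 _ (by linarith [hs.1]) (by linarith [hs.2])]
    congr 1
    ring
  · rcases lt_or_ge (3 * t) 1 with a1 | a1
    · exact Or.inl (r1 t a1)
    rcases le_or_gt (3 * t) 2 with a2 | a2
    · exact Or.inr (Or.inr ⟨_, m2 t a1 a2, p2 t a1 a2⟩)
    · exact Or.inr (Or.inl (r3 t a2))

/-- `A` is carried onto `B` by a homeomorphism supported in `K`. -/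
def Eqv {Z : Type} [TopologicalSpace Z] (K A B : Set Z) : Prop :=
  ∃ φ : Z ≃ₜ Z, Supp φ K ∧ φ '' A = B

theorem Eqv.refl {Z : Type} [TopologicalSpace Z] (K A : Set Z) : Eqv K A A :=
  ⟨1, Supp.refl K, image_id A⟩

theorem Eqv.symm {Z : Type} [TopologicalSpace Z] {K A B : Set Z} (h : Eqv K A B) : Eqv K B A := by
  obtain ⟨φ, a, rfl⟩ := h
  exact ⟨φ⁻¹, a.inv, φ.toEquiv.symm_image_image A⟩

theorem Eqv.trans {Z : Type} [TopologicalSpace Z] {K A B C : Set Z} (h : Eqv K A B)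
    (h' : Eqv K B C) : Eqv K A C := by
  obtain ⟨φ, a, rfl⟩ := h
  obtain ⟨ψ, b, rfl⟩ := h'
  exact ⟨ψ * φ, b.mul a, (image_image ψ φ A).symm⟩

/-- Every closed disc in the open unit disc is carried onto one of the two triangles. -/
theorem dp_norm {e : ℂ → ℂ} (hc : ContinuousOn e (closedBall 0 1)) (hi : InjOn e (closedBall 0 1))
    (ho : IsOpen (e '' ball 0 1)) (hb : e '' closedBall 0 1 ⊆ ball 0 1) :
    ∃ σ : ℝ, (σ = 1 ∨ σ = -1) ∧
      Eqv (closedBall (0 : ℂ) 1) (e '' closedBall 0 1) (closure (dp_V σ)) := by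
  have z0 : (0 : ℝ) ∈ Icc (0 : ℝ) 1 := by simp only [mem_Icc, Std.le_refl, zero_le_one, and_self]
  have z1 : (1 : ℝ) ∈ Icc (0 : ℝ) 1 := by simp only [mem_Icc, zero_le_one, Std.le_refl, and_self]
  have hB : interior (closedBall (0 : ℂ) 1) = ball 0 1 := interior_closedBall 0 one_ne_zero
  have hU : e '' ball 0 1 ∪ e '' sphere 0 1 = e '' closedBall 0 1 := by
    rw [← image_union, ball_union_sphere]
  have hD : IsCompact (e '' closedBall 0 1) := (isCompact_closedBall 0 1).image_of_continuousOn hc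
  have hne : (e '' ball 0 1).Nonempty := ⟨_, 0, by simp, rfl⟩
  obtain ⟨_, ⟨p, hp, rfl⟩, p1, p2⟩ := dp_max ho (hU ▸ hD) hne (f := fun z => z.im) (by fun_prop)
    I (fun z s hs => by simpa using hs)
  obtain ⟨_, ⟨q, hq, rfl⟩, q1, q2⟩ := dp_max ho (hU ▸ hD) hne (f := fun z => -z.im) (by fun_prop)
    (-I) (fun z s hs => by simp; linarith)
  rw [hU] at p2 q2
  have hpq : p ≠ q := by
    rintro rfl
    obtain ⟨y, hy⟩ := hne
    linarith only [p1 y hy, q1 y hy]
  obtain ⟨α₁, α₂, c₁, c₂, i₁, i₂, a₁, b₁, a₂, b₂, hu, hd⟩ := Arc_circle hp hq hpq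
  have s₁ : ∀ t ∈ Icc (0 : ℝ) 1, α₁ t ∈ closedBall (0 : ℂ) 1 := fun t ht =>
    sphere_subset_closedBall (hu ▸ Or.inl ⟨t, ht, rfl⟩)
  have s₂ : ∀ t ∈ Icc (0 : ℝ) 1, α₂ t ∈ closedBall (0 : ℂ) 1 := fun t ht =>
    sphere_subset_closedBall (hu ▸ Or.inr ⟨t, ht, rfl⟩)
  obtain ⟨γ, hγ, g0, g1, g2, g3⟩ := dp_arc (a := fun t => e (α₁ t))
    (hc.comp c₁.continuousOn s₁) (fun t ht t' ht' h => i₁ ht ht' (hi (s₁ t ht) (s₁ t' ht') h))
    (fun t ht => hb ⟨_, s₁ t ht, rfl⟩) (fun t ht => by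
      have u := p2 _ ⟨_, s₁ t ht, rfl⟩
      have v := q2 _ ⟨_, s₁ t ht, rfl⟩
      simp only [a₁, b₁]
      exact ⟨by linarith, u⟩)
  simp only [a₁, b₁] at g3
  have hδ : PArc (closedBall (0 : ℂ) 1) fun t : ℝ => ((1 - 2 * t : ℝ) : ℂ) * I := by
    refine ⟨by fun_prop, fun t _ t' _ h => ?_, by simp, by simp [hB], by norm_num,
      by rw [hB]; norm_num, fun t ht => ?_⟩
    · have := congrArg Complex.im h
      simp at this
      exact this
    · rw [hB, mem_ball_zero_iff, norm_mul, norm_I, mul_one, norm_real, Real.norm_eq_abs, abs_lt]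
      constructor <;> linarith only [ht.1, ht.2]
  obtain ⟨φ₁, S₁, f₁⟩ := arc_lemma (isCompact_closedBall 0 1) (convex_closedBall 0 1) hγ hδ
    (by simp [g0]) (by rw [g1]; norm_num)
  have k₁ : ∀ s ∈ Icc (0 : ℝ) 1, φ₁ (e (α₁ s)) = (((1 - 2 * s) / 3 : ℝ) : ℂ) * I := fun s hs => by
    rw [← g2 s hs, f₁ _ ⟨by linarith [hs.1], by linarith [hs.2]⟩]
    congr 2
    ring
  have bl : ∀ t ∈ Icc (0 : ℝ) 1, φ₁ (e (α₂ t)) ∈ ball (0 : ℂ) 1 := fun t ht => by
    rw [← hB, S₁.mem_interior, hB]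
    exact hb ⟨_, s₂ t ht, rfl⟩
  have cβ : ContinuousOn (fun t => φ₁ (e (α₂ t))) (Icc 0 1) :=
    φ₁.continuous.comp_continuousOn (hc.comp c₂.continuousOn s₂)
  have nz : ∀ t ∈ Ioo (0 : ℝ) 1, (φ₁ (e (α₂ t))).re ≠ 0 := fun t ht h => by
    have ht' := Ioo_subset_Icc_self ht
    have u := abs_lt.1 ((abs_im_le_norm _).trans_lt (mem_ball_zero_iff.1 (bl t ht')))
    have m : (1 - (φ₁ (e (α₂ t))).im) / 2 ∈ Icc (0 : ℝ) 1 := ⟨by linarith [u.2], by linarith [u.1]⟩
    have v : γ ((1 - (φ₁ (e (α₂ t))).im) / 2) = e (α₂ t) := by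
      refine φ₁.injective ?_
      rw [f₁ _ m]
      refine Complex.ext (by simp [h]) ?_
      simp only [mul_im, ofReal_re, I_im, ofReal_im, I_re]
      ring
    rcases g3 _ m with w | w | ⟨s, hs, w⟩
    · rw [v] at w
      linarith only [p2 _ ⟨_, s₂ t ht', rfl⟩, w]
    · rw [v] at w
      linarith [q2 _ ⟨_, s₂ t ht', rfl⟩]
    · exact Theta_meet i₂ (a₁.trans a₂.symm) (b₁.trans b₂.symm)
        (fun t ht t' ht' => (hd t' ht' t ht).symm) ht
        ⟨s, hs, hi (s₁ s hs) (s₂ t ht') (w.symm.trans v)⟩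
  obtain ⟨σ, hσ, pos⟩ : ∃ σ : ℝ, (σ = 1 ∨ σ = -1) ∧
      ∀ t ∈ Ioo (0 : ℝ) 1, 0 < σ * (φ₁ (e (α₂ t))).re := by
    rcases isPreconnected_Ioo.mapsTo_Ioi_or_Iio
      (continuous_re.comp_continuousOn (cβ.mono Ioo_subset_Icc_self)) nz with h | h
    · exact ⟨1, Or.inl rfl, fun t ht => by simpa using h ht⟩
    · exact ⟨-1, Or.inr rfl, fun t ht => by simpa only [neg_mul, one_mul, Left.neg_pos_iff, Function.comp_apply, mem_Iio] using h ht⟩
  have σ2 : σ * σ = 1 := by rcases hσ with rfl | rfl <;> norm_num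
  have σ1 : |σ| = 1 := by rcases hσ with rfl | rfl <;> norm_num
  obtain ⟨K, hK⟩ : ∃ K : Set ℂ, K = closedBall 0 1 ∩ {z : ℂ | 0 ≤ σ * z.re} := ⟨_, rfl⟩
  have Kc : IsCompact K :=
    hK ▸ (isCompact_closedBall 0 1).inter_right (isClosed_le continuous_const (by fun_prop))
  have Kv : Convex ℝ K := by
    rw [hK]
    refine (convex_closedBall 0 1).inter fun x hx y hy a b ha hb' _ => ?_
    simp only [mem_ofPred_eq, add_re, real_smul, mul_re, ofReal_re, ofReal_im, zero_mul,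
      sub_zero] at hx hy ⊢
    linarith only [mul_nonneg ha hx, mul_nonneg hb' hy]
  have Ki : ∀ z ∈ ball (0 : ℂ) 1, 0 < σ * z.re → z ∈ interior K := fun z h h' =>
    interior_maximal (t := ball 0 1 ∩ {z : ℂ | 0 < σ * z.re})
      (hK ▸ fun w hw => ⟨ball_subset_closedBall hw.1, le_of_lt (α := ℝ) hw.2⟩)
      (isOpen_ball.inter (isOpen_lt continuous_const (by fun_prop))) ⟨h, h'⟩
  have Kn : ∀ z : ℂ, z.re = 0 → z ∉ interior K := fun z h m => by
    obtain ⟨ε, ε0, hε⟩ := Metric.isOpen_iff.1 isOpen_interior z m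
    have : z - ((σ * (ε / 2) : ℝ) : ℂ) ∈ K := by
      refine interior_subset (hε ?_)
      rw [mem_ball_iff_norm, sub_sub_cancel_left, norm_neg, norm_real, Real.norm_eq_abs, abs_mul,
        σ1, one_mul, abs_of_pos (half_pos ε0)]
      exact half_lt_self ε0
    rw [hK] at this
    have u := this.2
    simp only [mem_ofPred_eq, sub_re, ofReal_re, h] at u
    nlinarith only [σ2, ε0, u]
  have Km : ∀ s : ℝ, |s| ≤ 1 → (s : ℂ) * I ∈ K := fun s hs => by
    rw [hK]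
    exact ⟨by simpa only [mem_closedBall, dist_zero_right, Complex.norm_mul, norm_real, Real.norm_eq_abs, norm_I, mul_one] using hs, by simp only [mem_ofPred_eq, mul_re, ofReal_re, I_re, mul_zero, ofReal_im, I_im, mul_one, sub_self, Std.le_refl]⟩
  have β0 : φ₁ (e (α₂ 0)) = ((1 / 3 : ℝ) : ℂ) * I := by
    rw [a₂, ← a₁, k₁ 0 z0]
    norm_num
  have β1 : φ₁ (e (α₂ 1)) = ((-1 / 3 : ℝ) : ℂ) * I := by
    rw [b₂, ← b₁, k₁ 1 z1]
    norm_num
  have hβ : PArc K fun t => φ₁ (e (α₂ t)) :=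
    ⟨cβ, fun t ht t' ht' h => i₂ ht ht' (hi (s₂ t ht) (s₂ t' ht') (φ₁.injective h)),
      β0 ▸ Km _ (by norm_num [abs_le]), β0 ▸ Kn _ (by simp), β1 ▸ Km _ (by norm_num [abs_le]),
      β1 ▸ Kn _ (by simp), fun t ht => Ki _ (bl t (Ioo_subset_Icc_self ht)) (pos t ht)⟩
  obtain ⟨δ, hδ'⟩ : ∃ δ : ℝ → ℂ, δ = fun t => ((σ * ((1 - |1 - 2 * t|) / 3) : ℝ) : ℂ) +
    (((1 - 2 * t) / 3 : ℝ) : ℂ) * I := ⟨_, rfl⟩
  have δr : ∀ t, σ * (δ t).re = (1 - |1 - 2 * t|) / 3 := fun t => by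
    rw [hδ']
    simp only [add_re, mul_re, ofReal_re, ofReal_im, I_re, I_im]
    linear_combination ((1 - |1 - 2 * t|) / 3) * σ2
  have δi : ∀ t, (δ t).im = (1 - 2 * t) / 3 := fun t => by
    rw [hδ']
    simp only [add_im, mul_im, ofReal_re, ofReal_im, I_re, I_im]
    ring
  have δ0 : δ 0 = ((1 / 3 : ℝ) : ℂ) * I := by rw [hδ']; norm_num
  have δ1 : δ 1 = ((-1 / 3 : ℝ) : ℂ) * I := by rw [hδ']; norm_num
  have hδ2 : PArc K δ := by
    refine ⟨by rw [hδ']; fun_prop, fun t _ t' _ h => ?_, δ0 ▸ Km _ (by norm_num [abs_le]),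
      δ0 ▸ Kn _ (by simp), δ1 ▸ Km _ (by norm_num [abs_le]), δ1 ▸ Kn _ (by simp), fun t ht => ?_⟩
    · have := congrArg Complex.im h
      rw [δi, δi] at this
      linarith only [this]
    · have u : |1 - 2 * t| < 1 := abs_lt.2 ⟨by linarith only [ht.2], by linarith only [ht.1]⟩
      refine Ki _ ?_ (by rw [δr]; linarith only [u])
      have v : |(δ t).re| ≤ 1 / 3 := by
        rw [← one_mul |(δ t).re|, ← σ1, ← abs_mul, δr, abs_le]
        constructor <;> linarith only [abs_nonneg (1 - 2 * t), σ1, u]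
      have w : |(δ t).im| ≤ 1 / 3 := by
        rw [δi, abs_le]
        constructor <;> linarith only [ht.1, ht.2]
      rw [mem_ball_zero_iff]
      linarith only [norm_le_abs_re_add_abs_im (δ t), v, w]
  obtain ⟨φ₂, S₂, f₂⟩ := arc_lemma Kc Kv hβ hδ2 (β0.trans δ0.symm) (β1.trans δ1.symm)
  refine ⟨σ, hσ, φ₂ * φ₁, (S₂.mono (hK ▸ inter_subset_left)).mul S₁, ?_⟩
  have hJ : ∀ w ∈ (φ₂ * φ₁) '' (e '' sphere 0 1), (0 ≤ σ * w.re ∧ σ * w.re + w.im ≤ 1 / 3 ∧
      σ * w.re - w.im ≤ 1 / 3) ∧ w ∉ dp_V σ := by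
    rintro _ ⟨_, ⟨z, hz, rfl⟩, rfl⟩
    change (0 ≤ σ * (φ₂ (φ₁ (e z))).re ∧ σ * (φ₂ (φ₁ (e z))).re + (φ₂ (φ₁ (e z))).im ≤ 1 / 3 ∧
      σ * (φ₂ (φ₁ (e z))).re - (φ₂ (φ₁ (e z))).im ≤ 1 / 3) ∧ φ₂ (φ₁ (e z)) ∉ dp_V σ
    rw [← hu] at hz
    rcases hz with ⟨s, hs, rfl⟩ | ⟨s, hs, rfl⟩
    · rw [k₁ s hs, S₂ _ (Kn _ (by simp))]
      simp only [dp_V, mem_ofPred_eq, mul_re, mul_im, ofReal_re, ofReal_im, I_re, I_im]
      refine ⟨⟨?_, ?_, ?_⟩, fun h => ?_⟩
      · simp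
      · linarith only [hs.1]
      · linarith only [hs.2]
      · simpa using h.1
    · rw [f₂ s hs]
      simp only [dp_V, mem_ofPred_eq, δr, δi]
      have u : |1 - 2 * s| ≤ 1 := abs_le.2 ⟨by linarith only [hs.2], by linarith only [hs.1]⟩
      refine ⟨⟨by linarith only [u], by linarith only [le_abs_self (1 - 2 * s)],
        by linarith only [neg_le_abs (1 - 2 * s)]⟩, fun h => ?_⟩
      rcases abs_cases (1 - 2 * s) with v | v <;> linarith only [v.1, h.2.1, h.2.2]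
  rw [← hU, image_union]
  refine dp_tri σ2 ((φ₂ * φ₁).isOpenMap _ ho) ?_ (hne.image _) ?_ (fun w hw => (hJ w hw).1)
    fun w hw => (hJ w hw).2
  · rw [← image_union, hU]
    exact hD.image (φ₂ * φ₁).continuous
  · rw [← image_union, hU, ← (φ₂ * φ₁).image_closure]
    refine image_mono ?_
    have hcl : closure (ball (0 : ℂ) 1) = closedBall 0 1 := closure_ball 0 one_ne_zero
    rw [← hcl] at hc ⊢
    exact hc.image_closure

theorem dp_swap : Eqv (closedBall (0 : ℂ) 1) (closure (dp_V 1)) (closure (dp_V (-1))) := by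
  have hB : interior (closedBall (0 : ℂ) 1) = ball 0 1 := interior_closedBall 0 one_ne_zero
  let e : ℂ ≃ₜ ℂ := Homeomorph.mulLeft₀ 2⁻¹ (by norm_num)
  obtain ⟨σ, hσ, φ, S, h⟩ := dp_norm (e := e) e.continuous.continuousOn e.injective.injOn
    (e.isOpenMap _ isOpen_ball) (by
      rintro _ ⟨z, hz, rfl⟩
      rw [mem_closedBall_zero_iff] at hz
      rw [mem_ball_zero_iff]
      change ‖2⁻¹ * z‖ < 1
      rw [norm_mul, norm_inv, Complex.norm_two]
      linarith only [hz])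
  have n1 : Homeomorph.neg ℂ '' (e '' closedBall 0 1) = e '' closedBall 0 1 := by
    refine Subset.antisymm ?_ ?_
    · rintro _ ⟨_, ⟨z, hz, rfl⟩, rfl⟩
      exact ⟨-z, by simpa only [mem_closedBall, dist_zero_right, norm_neg] using hz, mul_neg _ _⟩
    · rintro _ ⟨z, hz, rfl⟩
      exact ⟨_, ⟨-z, by simpa only [mem_closedBall, dist_zero_right, norm_neg] using hz, rfl⟩, (congrArg Neg.neg (mul_neg _ _)).trans (neg_neg _)⟩
  have n2 : Homeomorph.neg ℂ '' dp_V σ = dp_V (-σ) := by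
    refine Subset.antisymm ?_ fun z hz => ⟨-z, ?_, neg_neg z⟩
    · rintro _ ⟨z, ⟨a, b, c⟩, rfl⟩
      change -z ∈ dp_V (-σ)
      simp only [dp_V, mem_ofPred_eq, neg_re, neg_im]
      exact ⟨by linarith only [a], by linarith, by linarith⟩
    · obtain ⟨a, b, c⟩ := hz
      simp only [dp_V, mem_ofPred_eq, neg_re, neg_im]
      exact ⟨by linarith only [a], by linarith, by linarith only [b]⟩
  have h' : Eqv (closedBall (0 : ℂ) 1) (e '' closedBall 0 1) (closure (dp_V (-σ))) := by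
    refine ⟨((Homeomorph.neg ℂ).trans φ).trans (Homeomorph.neg ℂ), fun z hz => ?_, ?_⟩
    · change -φ (-z) = z
      rw [S (-z) (by simpa only [hB, mem_ball, dist_zero_right, norm_neg, not_lt] using hz), neg_neg]
    · rw [← n2, ← (Homeomorph.neg ℂ).image_closure, ← h]
      conv_rhs => rw [← n1]
      simp only [image_image]
      rfl
  have k := (Eqv.symm ⟨φ, S, h⟩).trans h'
  rcases hσ with rfl | rfl
  · exact k
  · rw [neg_neg] at k
    exact k.symm

/-- Two closed discs in the interior of a compact convex set are exchanged by a homeomorphism of the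
plane supported in that set. -/
theorem disc_convex {K : Set ℂ} (hK : IsCompact K) (hKc : Convex ℝ K) {e e' : ℂ → ℂ}
    (hc : ContinuousOn e (closedBall 0 1)) (hi : InjOn e (closedBall 0 1))
    (ho : IsOpen (e '' ball 0 1)) (hb : e '' closedBall 0 1 ⊆ interior K)
    (hc' : ContinuousOn e' (closedBall 0 1)) (hi' : InjOn e' (closedBall 0 1))
    (ho' : IsOpen (e' '' ball 0 1)) (hb' : e' '' closedBall 0 1 ⊆ interior K) :
    ∃ φ : ℂ ≃ₜ ℂ, Supp φ K ∧ φ '' (e '' closedBall 0 1) = e' '' closedBall 0 1 := by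
  obtain ⟨g, g1, -, -⟩ := exists_homeomorph_image_interior_closure_frontier_eq_unitBall hKc
    ⟨_, hb ⟨0, by simp, rfl⟩⟩ hK.isBounded
  have hB : interior (closedBall (0 : ℂ) 1) = ball 0 1 := interior_closedBall 0 one_ne_zero
  have m1 : ∀ z, g z ∈ ball (0 : ℂ) 1 ↔ z ∈ interior K := fun z => by
    rw [← g1]; exact g.injective.mem_set_image
  have key : ∀ f : ℂ → ℂ, ContinuousOn f (closedBall 0 1) → InjOn f (closedBall 0 1) →
      IsOpen (f '' ball 0 1) → f '' closedBall 0 1 ⊆ interior K →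
      Eqv (closedBall (0 : ℂ) 1) (g '' (f '' closedBall 0 1)) (closure (dp_V 1)) := by
    intro f a b c d
    obtain ⟨σ, hσ, h⟩ := dp_norm (e := fun z => g (f z)) (g.continuous.comp_continuousOn a)
      (g.injective.comp_injOn b) (by rw [← image_image]; exact g.isOpenMap _ c) (by
        rintro _ ⟨z, hz, rfl⟩
        exact (m1 _).2 (d ⟨z, hz, rfl⟩))
    rw [← image_image] at h
    rcases hσ with rfl | rfl
    · exact h
    · exact h.trans dp_swap.symm
  obtain ⟨F, F1, F2⟩ := (key e hc hi ho hb).trans (key e' hc' hi' ho' hb').symm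
  refine ⟨(g.trans F).trans g.symm, fun z hz => ?_, ?_⟩
  · change g.symm (F (g z)) = z
    rw [F1 _ (hB ▸ mt (m1 z).1 hz), g.symm_apply_apply]
  · rw [← g.toEquiv.symm_image_image (e' '' closedBall 0 1)]
    change _ = g.symm '' (g '' (e' '' closedBall 0 1))
    rw [← F2]
    simp only [image_image]
    rfl

/-- The round case. -/
theorem disc_plane {e e' : ℂ → ℂ} {R : ℝ}
    (hc : ContinuousOn e (closedBall 0 1)) (hi : InjOn e (closedBall 0 1))
    (ho : IsOpen (e '' ball 0 1)) (hb : e '' closedBall 0 1 ⊆ ball 0 R)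
    (hc' : ContinuousOn e' (closedBall 0 1)) (hi' : InjOn e' (closedBall 0 1))
    (ho' : IsOpen (e' '' ball 0 1)) (hb' : e' '' closedBall 0 1 ⊆ ball 0 R) :
    ∃ φ : ℂ ≃ₜ ℂ, (∀ z, R ≤ ‖z‖ → φ z = z) ∧ φ '' (e '' closedBall 0 1) = e' '' closedBall 0 1 := by
  have hB : interior (closedBall (0 : ℂ) R) = ball 0 R := interior_closedBall' 0 R
  obtain ⟨φ, a, b⟩ := disc_convex (isCompact_closedBall 0 R) (convex_closedBall 0 R) hc hi ho
    (hB ▸ hb) hc' hi' ho' (hB ▸ hb')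
  exact ⟨φ, fun z hz => a z (by simpa [hB] using hz), b⟩

end Pool.Agent.MP_646035_al.MC
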