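import Pool.Agent.MP_4a6971_al.H83.Schoen

/-!
The germ of a homeomorphism of the plane at a fixed point.
-/

namespace Pool.Agent.MP_646035_al.MC

open Set Topology Metric Complex ComplexConjugate Pool.Agent.MP_4a6971_al.H83

theorem ker_int (R : ℝ) : interior (closedBall (0 : ℂ) R) = ball 0 R :=
  interior_closedBall' 0 R

/-- The Alexander trick centred at a fixed point. -/
theorem ker_alex {R : ℝ} {h : ℂ ≃ₜ ℂ} (hs : Supp h (closedBall 0 R)) (h0 : h 0 = 0) :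
    ∃ H : ℝ → ℂ ≃ₜ ℂ, Continuous (fun p : ℝ × ℂ => H p.1 p.2) ∧
      (∀ t, Supp (H t) (closedBall 0 R)) ∧ (∀ t, H t 0 = 0) ∧ H 0 = 1 ∧ H 1 = h := by
  have hM : ∀ w, ‖h w - w‖ ≤ diam (closedBall (0 : ℂ) R) := fun w => by
    by_cases hw : w ∈ closedBall (0 : ℂ) R
    · rw [← dist_eq_norm]
      exact dist_le_diam_of_mem isBounded_closedBall (hs.mem.2 hw) hw
    · rw [hs w fun a => hw (interior_subset a), sub_self, norm_zero]
      exact diam_nonneg
  have ex : ∀ τ : ℝ, ∃ G : ℂ ≃ₜ ℂ, ∀ z,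
      G z = z + τ • (h (0 + τ⁻¹ • (z - 0)) - (0 + τ⁻¹ • (z - 0))) := fun τ => by
    by_cases hτ : τ = 0
    · exact ⟨1, fun z => by rw [hτ, zero_smul, add_zero]; rfl⟩
    · refine ⟨(Homeomorph.smulOfNeZero τ⁻¹ (inv_ne_zero hτ)).trans
        (h.trans (Homeomorph.smulOfNeZero τ hτ)), fun z => ?_⟩
      change τ • (h (τ⁻¹ • z)) = _
      rw [zero_add, sub_zero, smul_sub, smul_inv_smul₀ hτ]
      abel
  choose G hG using ex
  refine ⟨fun t => G (max 0 (min t 1)), ?_, fun t z hz => ?_, fun t => ?_,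
    Homeomorph.ext fun z => ?_, Homeomorph.ext fun z => ?_⟩
  · simp only [hG]
    exact continuous_snd.add ((Cone1_cont (d := fun w => h w - w) (by fun_prop) hM 0).comp
      (f := fun p : ℝ × ℂ => (max 0 (min p.1 1), p.2)) (by fun_prop))
  · have h0 : 0 ≤ max 0 (min t 1) := le_max_left _ _
    have h1 : max 0 (min t 1) ≤ 1 := max_le zero_le_one (min_le_right _ _)
    rw [hG]
    generalize max 0 (min t 1) = τ at h0 h1
    rcases h0.eq_or_lt with rfl | h2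
    · rw [zero_smul, add_zero]
    · rw [hs _ fun a => hz ?_, sub_self, smul_zero, add_zero]
      rw [ker_int, mem_ball_zero_iff] at a ⊢
      rw [zero_add, sub_zero, norm_smul, norm_inv, Real.norm_of_nonneg h0] at a
      refine lt_of_le_of_lt ?_ a
      exact le_mul_of_one_le_left (norm_nonneg _) ((one_le_inv₀ h2).2 h1)
  · rw [hG]
    simp only [sub_self, smul_zero, add_zero, h0]
  · rw [hG]
    simp only [zero_le_one, inf_of_le_left, max_self, inv_zero, sub_zero, zero_smul, add_zero, Homeomorph.one_apply]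
  · rw [hG]
    simp only [min_self, zero_le_one, sup_of_le_right, inv_one, sub_zero, one_smul, zero_add, add_sub_cancel]

/-- A germ of a homeomorphism at `0`. -/
structure Germ (a : ℝ) (φ : ℂ → ℂ) : Prop where
  pos : 0 < a
  cont : ContinuousOn φ (ball 0 a)
  inj : InjOn φ (ball 0 a)
  opn : ∀ U ⊆ ball (0 : ℂ) a, IsOpen U → IsOpen (φ '' U)

theorem Germ.comp {a : ℝ} {φ : ℂ → ℂ} (g : Germ a φ) (h : ℂ ≃ₜ ℂ) : Germ a fun z => h (φ z) :=
  ⟨g.pos, h.continuous.comp_continuousOn g.cont, h.injective.comp_injOn g.inj, fun U a b => by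
    rw [← image_image]; exact h.isOpenMap _ (g.opn U a b)⟩

/-- A germ that is the identity on a circle and fixes the centre. -/
theorem Germ.fill {a ε : ℝ} {u : ℂ → ℂ} (g : Germ a u) (h0 : u 0 = 0) (hε : 0 < ε) (ha : ε < a)
    (hs : ∀ z, ‖z‖ = ε → u z = z) :
    ∃ k : ℂ ≃ₜ ℂ, Supp k (closedBall 0 ε) ∧ ∀ z, ‖z‖ ≤ ε → k (u z) = z := by
  classical
  have s1 : closedBall (0 : ℂ) ε ⊆ ball 0 a := closedBall_subset_ball ha
  have s2 : ball (0 : ℂ) ε ⊆ ball 0 a := ball_subset_ball ha.le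
  have n1 : ∀ z ∈ ball (0 : ℂ) ε, ‖u z‖ ≠ ε := fun z hz e => by
    have := g.inj (s1 (mem_closedBall_zero_iff.2 e.le)) (s2 hz) (hs _ e)
    exact (mem_ball_zero_iff.1 hz).ne (this ▸ e)
  have m1 : ∀ z ∈ ball (0 : ℂ) ε, ‖u z‖ < ε := fun z hz => by
    have p : IsPreconnected ((fun z => ‖u z‖) '' ball (0 : ℂ) ε) :=
      (convex_ball 0 ε).isPreconnected.image _ (g.cont.mono s2).norm
    by_contra c
    obtain ⟨w, hw, e⟩ := p.Icc_subset ⟨0, mem_ball_self hε, rfl⟩ ⟨z, hz, rfl⟩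
      (⟨by simp [h0, hε.le], not_lt.1 c⟩ : ε ∈ Icc _ _)
    exact n1 w hw e
  have on : ball (0 : ℂ) ε ⊆ u '' ball 0 ε := by
    refine (convex_ball 0 ε).isPreconnected.subset_of_closure_inter_subset (g.opn _ s2 isOpen_ball)
      ⟨0, mem_ball_self hε, 0, mem_ball_self hε, h0⟩ ?_
    rintro z ⟨z1, z2⟩
    obtain ⟨w, hw, e⟩ := closure_minimal (image_mono ball_subset_closedBall)
      ((isCompact_closedBall 0 ε).image_of_continuousOn (g.cont.mono s1)).isClosed z1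
    rcases (mem_closedBall_zero_iff.1 hw).eq_or_lt with c | c
    · rw [hs w c] at e
      exact absurd (e ▸ c) (mem_ball_zero_iff.1 z2).ne
    · exact ⟨w, mem_ball_zero_iff.2 c, e⟩
  obtain ⟨f, f1, f2⟩ : ∃ f : ℂ → ℂ, (∀ z, ‖z‖ ≤ ε → f z = u z) ∧ ∀ z, ε ≤ ‖z‖ → f z = z := by
    refine ⟨fun z => if ‖z‖ ≤ ε then u z else z, fun z hz => if_pos hz, fun z hz => ?_⟩
    dsimp only
    split_ifs with c
    exacts [hs z (c.antisymm hz), rfl]
  have fc : Continuous f := by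
    rw [← continuousOn_univ, ← union_compl_self (ball (0 : ℂ) ε)]
    refine (ContinuousOn.union_of_isClosed (s := closedBall 0 ε) (t := (ball 0 ε)ᶜ) ?_ ?_
      isClosed_closedBall isOpen_ball.isClosed_compl).mono
        (union_subset_union_left _ ball_subset_closedBall)
    · exact (g.cont.mono s1).congr fun z hz => f1 z (mem_closedBall_zero_iff.1 hz)
    · exact continuousOn_id.congr fun z hz => f2 z (by simpa using hz)
  have fb : Function.Bijective f := by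
    refine ⟨fun z w e => ?_, fun w => ?_⟩
    · rcases lt_or_ge ‖z‖ ε with c | c <;> rcases lt_or_ge ‖w‖ ε with d | d
      · rw [f1 z c.le, f1 w d.le] at e
        exact g.inj (s2 (mem_ball_zero_iff.2 c)) (s2 (mem_ball_zero_iff.2 d)) e
      · rw [f1 z c.le, f2 w d] at e
        exact absurd (e ▸ m1 z (mem_ball_zero_iff.2 c)) d.not_gt
      · rw [f2 z c, f1 w d.le] at e
        exact absurd (e ▸ m1 w (mem_ball_zero_iff.2 d)) c.not_gt
      · rwa [f2 z c, f2 w d] at e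
    · rcases lt_or_ge ‖w‖ ε with d | d
      · obtain ⟨z, hz, e⟩ := on (mem_ball_zero_iff.2 d)
        exact ⟨z, (f1 z (mem_ball_zero_iff.1 hz).le).trans e⟩
      · exact ⟨w, f2 w d⟩
  obtain ⟨F, hF⟩ := homeo_of_supp fc fb (isCompact_closedBall (0 : ℂ) ε)
    fun z hz => f2 z (by simpa using le_of_lt (by simpa using hz : ε < ‖z‖))
  refine ⟨F⁻¹, Supp.inv fun z hz => (hF z).trans (f2 z ?_), fun z hz => ?_⟩
  · simpa [ker_int] using hz
  · exact F.symm_apply_eq.2 ((hF z).trans (f1 z hz)).symm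

/-- The closed upper half disc. -/
def upK (δ : ℝ) : Set ℂ := closedBall 0 δ ∩ {z | 0 ≤ z.im}

theorem upK_int (δ : ℝ) : interior (upK δ) = ball 0 δ ∩ {z | 0 < z.im} := by
  rw [upK, interior_inter, ker_int, interior_setOfPred_le_im]

theorem ker_semi {ε : ℝ} {z : ℂ} (h1 : ‖z‖ = ε) (h2 : 0 ≤ z.im) :
    ∃ t ∈ Icc (0 : ℝ) 1, circleMap 0 ε (Real.pi * t) = z := by
  refine ⟨arg z / Real.pi, ⟨div_nonneg (arg_nonneg_iff.2 h2) Real.pi_pos.le,
    (div_le_one Real.pi_pos).2 (arg_le_pi z)⟩, ?_⟩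
  rw [mul_div_cancel₀ _ Real.pi_pos.ne', circleMap, zero_add, ← h1]
  exact norm_mul_exp_arg_mul_I z

/-- Straightening the image of the upper half circle. -/
theorem ker_half {δ ε : ℝ} {u : ℂ → ℂ} (hε : 0 < ε) (hδ : ε < δ)
    (hc : ContinuousOn u (sphere 0 ε)) (hi : InjOn u (sphere 0 ε)) (e1 : u ε = ε)
    (e2 : u (-ε) = -ε) (hu : ∀ z, ‖z‖ = ε → 0 < z.im → ‖u z‖ < δ ∧ 0 < (u z).im) :
    ∃ h : ℂ ≃ₜ ℂ, (∀ z, (δ ≤ ‖z‖ ∨ z.im ≤ 0) → h z = z) ∧
      ∀ z, ‖z‖ = ε → 0 ≤ z.im → h (u z) = z := by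
  have hm : ∀ t : ℝ, circleMap 0 ε (Real.pi * t) ∈ sphere (0 : ℂ) ε := fun t =>
    circleMap_mem_sphere 0 hε.le _
  have hj : InjOn (fun t : ℝ => circleMap 0 ε (Real.pi * t)) (Icc 0 1) := fun t ht t' ht' e => by
    have := eq_of_circleMap_eq hε.ne' (a := Real.pi * t) (b := Real.pi * t') (abs_lt.2 ⟨by
      nlinarith only [Real.pi_pos, ht.1, ht'.2], by nlinarith only [Real.pi_pos, ht.2, ht'.1]⟩) e
    exact mul_left_cancel₀ Real.pi_pos.ne' this
  have z0 : circleMap 0 ε (Real.pi * (0 : ℝ)) = ε := by simp [circleMap]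
  have z1 : circleMap 0 ε (Real.pi * (1 : ℝ)) = -ε := by simp [circleMap]
  have him : ∀ t ∈ Ioo (0 : ℝ) 1, 0 < (circleMap 0 ε (Real.pi * t)).im := fun t ht => by
    rw [circleMap, zero_add, im_ofReal_mul, exp_ofReal_mul_I_im]
    exact mul_pos hε (Real.sin_pos_of_pos_of_lt_pi (mul_pos Real.pi_pos ht.1)
      (mul_lt_of_lt_one_right Real.pi_pos ht.2))
  have a0 : (ε : ℂ) ∈ upK δ := ⟨by simpa [abs_of_pos hε] using hδ.le, by simp⟩
  have a1 : (-ε : ℂ) ∈ upK δ := ⟨by simpa only [mem_closedBall, dist_zero_right, norm_neg, norm_real, Real.norm_eq_abs, abs_of_pos hε] using hδ.le, by simp⟩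
  have b0 : (ε : ℂ) ∉ interior (upK δ) := by simp [upK_int]
  have b1 : (-ε : ℂ) ∉ interior (upK δ) := by simp [upK_int]
  have hcm : Continuous fun t : ℝ => circleMap 0 ε (Real.pi * t) := by fun_prop
  have A1 : PArc (upK δ) fun t : ℝ => u (circleMap 0 ε (Real.pi * t)) := by
    refine ⟨hc.comp hcm.continuousOn fun t _ => hm t, hi.comp hj fun t _ => hm t, ?_, ?_, ?_, ?_,
      fun t ht => ?_⟩
    · rwa [z0, e1]
    · rwa [z0, e1]
    · rwa [z1, e2]
    · rwa [z1, e2]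
    · rw [upK_int]
      have := hu _ (mem_sphere_zero_iff_norm.1 (hm t)) (him t ht)
      exact ⟨mem_ball_zero_iff.2 this.1, this.2⟩
  have A2 : PArc (upK δ) fun t : ℝ => circleMap 0 ε (Real.pi * t) := by
    refine ⟨hcm.continuousOn, hj, ?_, ?_, ?_, ?_, fun t ht => ?_⟩
    · rwa [z0]
    · rwa [z0]
    · rwa [z1]
    · rwa [z1]
    · rw [upK_int]
      exact ⟨mem_ball_zero_iff.2 ((mem_sphere_zero_iff_norm.1 (hm t)).trans_lt hδ), him t ht⟩
  obtain ⟨h, h1, h2⟩ := arc_lemma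
    ((isCompact_closedBall 0 δ).inter_right (isClosed_le continuous_const continuous_im))
    ((convex_closedBall 0 δ).inter (convex_halfSpace_im_ge 0)) A1 A2
    (by simp only [z0, e1]) (by simp only [z1, e2])
  refine ⟨h, fun z hz => h1 z fun c => ?_, fun z a b => ?_⟩
  · change z ∈ interior (upK δ) at c
    rw [upK_int] at c
    exact hz.elim (mem_ball_zero_iff.1 c.1).not_ge (not_le.2 c.2)
  · obtain ⟨t, ht, rfl⟩ := ker_semi a b
    exact h2 t ht

/-- A germ that is the identity on a diameter and keeps the two half planes. -/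
theorem Germ.pos_case {a δ ε : ℝ} {u : ℂ → ℂ} (g : Germ a u) (hε : 0 < ε) (hδ : ε < δ)
    (ha : ε < a) (hr : ∀ t : ℝ, |t| ≤ ε → u t = t)
    (hu : ∀ z, ‖z‖ = ε → 0 < z.im → ‖u z‖ < δ ∧ 0 < (u z).im)
    (hl : ∀ z, ‖z‖ = ε → z.im < 0 → ‖u z‖ < δ ∧ (u z).im < 0) :
    ∃ h : ℂ ≃ₜ ℂ, Supp h (closedBall 0 δ) ∧ ∀ z, ‖z‖ ≤ ε → h (u z) = z := by
  have s1 : sphere (0 : ℂ) ε ⊆ ball 0 a := sphere_subset_closedBall.trans (closedBall_subset_ball ha)
  have e1 : u ε = ε := hr ε (abs_of_pos hε).le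
  have e2 : u (-ε) = -ε := by simpa using hr (-ε) (by rw [abs_neg, abs_of_pos hε])
  have mc : MapsTo (fun z : ℂ => conj z) (sphere (0 : ℂ) ε) (sphere 0 ε) := fun z hz => by
    simpa using hz
  obtain ⟨h, h1, h2⟩ := ker_half hε hδ (g.cont.mono s1) (g.inj.mono s1) e1 e2 hu
  obtain ⟨k, k1, k2⟩ := ker_half (u := fun z => conj (u (conj z))) hε hδ
    (continuous_conj.comp_continuousOn ((g.cont.mono s1).comp continuous_conj.continuousOn mc))
    (fun z hz w hw e => star_injective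
      ((g.inj.mono s1) (mc hz) (mc hw) (star_injective e)))
    (by simp [e1]) (by simp only [map_neg, conj_ofReal, e2]) (fun z a b => by
      simpa using hl (conj z) (by simpa using a) (by simpa using b))
  let c : ℂ ≃ₜ ℂ := conjCLE.toHomeomorph
  have hc : ∀ z, c z = conj z := fun _ => rfl
  have hk : ∀ z, (c * k * c) z = conj (k (conj z)) := fun _ => rfl
  have real : ∀ z : ℂ, ‖z‖ = ε → z.im = 0 → u z = z := fun z a b => by
    have e : z = z.re := Complex.ext rfl (by simp [b])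
    rw [e]
    exact hr _ ((abs_re_le_norm z).trans a.le)
  obtain ⟨f, f1, f2⟩ := (g.comp (c * k * c * h)).fill (ε := ε) (by
      change (c * k * c) (h (u 0)) = 0
      have : u 0 = 0 := by simpa only [ofReal_zero] using hr 0 (by simpa only [abs_zero] using hε.le)
      rw [this, h1 0 (Or.inr le_rfl), hk, k1 _ (Or.inr (by simp))]
      simp) hε ha fun z hz => by
    change (c * k * c) (h (u z)) = z
    rcases le_or_gt 0 z.im with b | b
    · rw [h2 z hz b, hk, k1 _ (Or.inr (by simpa only [conj_im, Left.neg_nonpos_iff] using b)), conj_conj]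
    · rw [h1 _ (Or.inr (hl z hz b).2.le), hk]
      have := k2 (conj z) (by simpa using hz) (by simpa only [conj_im, Left.nonneg_neg_iff] using b.le)
      simp only [conj_conj] at this
      rw [this, conj_conj]
  refine ⟨f * (c * k * c * h), (f1.mono (closedBall_subset_closedBall hδ.le)).mul fun z hz => ?_,
    f2⟩
  rw [ker_int, mem_ball_zero_iff, not_lt] at hz
  change (c * k * c) (h z) = z
  rw [h1 z (Or.inl hz), hk, k1 _ (Or.inl (by simpa using hz)), conj_conj]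

theorem ker_sign {S : Set ℂ} (hS : IsPreconnected S) {u : ℂ → ℂ} (hc : ContinuousOn u S)
    (h : ∀ z ∈ S, (u z).im ≠ 0) : (∀ z ∈ S, 0 < (u z).im) ∨ ∀ z ∈ S, (u z).im < 0 := by
  by_contra c
  simp only [not_or, not_forall, not_lt] at c
  obtain ⟨⟨z, hz, a⟩, w, hw, b⟩ := c
  obtain ⟨v, hv, e⟩ := (hS.image _ (continuous_im.comp_continuousOn hc)).Icc_subset
    ⟨z, hz, rfl⟩ ⟨w, hw, rfl⟩ (⟨a, b⟩ : (0 : ℝ) ∈ Icc _ _)
  exact h v hv e

/-- A germ that is the identity on a diameter. -/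
theorem Germ.line {a δ : ℝ} {u : ℂ → ℂ} (g : Germ a u) (hδ : 0 < δ) (ha : δ < a)
    (hr : ∀ t : ℝ, |t| ≤ δ → u t = t) :
    ∃ h : ℂ ≃ₜ ℂ, Supp h (closedBall 0 δ) ∧ ∃ ε > 0,
      (∀ z, ‖z‖ ≤ ε → h (u z) = z) ∨ ∀ z, ‖z‖ ≤ ε → h (u z) = conj z := by
  have u0 : u 0 = 0 := by simpa only [ofReal_zero] using hr 0 (by simpa only [abs_zero] using hδ.le)
  obtain ⟨r, r0, r1⟩ := Metric.mem_nhds_iff.1 (Filter.inter_mem (ball_mem_nhds (0 : ℂ) hδ)
    ((g.cont.continuousAt (ball_mem_nhds 0 g.pos)).preimage_mem_nhds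
      (show ball (0 : ℂ) δ ∈ 𝓝 (u 0) by rw [u0]; exact ball_mem_nhds _ hδ)))
  have s1 : ball (0 : ℂ) r ⊆ ball 0 a := fun z hz => ball_subset_ball ha.le (r1 hz).1
  have nz : ∀ z ∈ ball (0 : ℂ) r, z.im ≠ 0 → (u z).im ≠ 0 := fun z hz b c => by
    have e : u z = (u z).re := Complex.ext rfl (by simp [c])
    have n : |(u z).re| < δ := (abs_re_le_norm _).trans_lt (mem_ball_zero_iff.1 (r1 hz).2)
    have := g.inj (s1 hz) (show ((u z).re : ℂ) ∈ ball 0 a by simpa using n.trans ha)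
      (e.trans (hr _ n.le).symm)
    exact b (by rw [this, ofReal_im])
  have real : ∀ z ∈ ball (0 : ℂ) r, z.im = 0 → (u z).im = 0 := fun z hz b => by
    have e : z = z.re := Complex.ext rfl (by simp [b])
    rw [e, hr _ ((abs_re_le_norm z).trans (mem_ball_zero_iff.1 (r1 hz).1).le), ofReal_im]
  have P := ker_sign (u := u) ((convex_ball 0 r).inter (convex_halfSpace_im_gt 0)).isPreconnected
    (g.cont.mono fun z hz => s1 hz.1) fun z hz => nz z hz.1 (ne_of_gt hz.2)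
  have N := ker_sign (u := u) ((convex_ball 0 r).inter (convex_halfSpace_im_lt 0)).isPreconnected
    (g.cont.mono fun z hz => s1 hz.1) fun z hz => nz z hz.1 (ne_of_lt hz.2)
  obtain ⟨η, η0, η1⟩ := Metric.isOpen_iff.1 (g.opn _ s1 isOpen_ball) 0
    ⟨0, mem_ball_self r0, u0⟩
  obtain ⟨p, p1, p2⟩ := η1 (show ((η / 2 : ℝ) : ℂ) * I ∈ ball 0 η by
    simpa [abs_of_pos η0] using η0)
  obtain ⟨q, q1, q2⟩ := η1 (show ((-η / 2 : ℝ) : ℂ) * I ∈ ball 0 η by
    simpa only [ofReal_div, ofReal_neg, ofReal_ofNat, mem_ball, dist_zero_right, Complex.norm_mul, Complex.norm_div, norm_neg, norm_real, Real.norm_eq_abs, abs_of_pos η0, norm_ofNat, norm_I, mul_one, half_lt_self_iff, gt_iff_lt] using η0)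
  have p3 : 0 < (u p).im := by rw [p2]; simpa using η0
  have q3 : (u q).im < 0 := by rw [q2]; simp only [ofReal_div, ofReal_neg, ofReal_ofNat, mul_im, div_ofNat_re, neg_re, ofReal_re, I_im, mul_one, div_ofNat_im, neg_im, ofReal_im, neg_zero, zero_div, I_re, mul_zero, add_zero]; linarith only [η0]
  have e0 : 0 < min r δ / 2 := by positivity
  have e1 : min r δ / 2 < r := (half_lt_self (lt_min r0 hδ)).trans_le (min_le_left _ _)
  have e2 : min r δ / 2 < δ := (half_lt_self (lt_min r0 hδ)).trans_le (min_le_right _ _)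
  have b1 : ∀ z : ℂ, ‖z‖ = min r δ / 2 → z ∈ ball (0 : ℂ) r := fun z hz =>
    mem_ball_zero_iff.2 (hz.trans_lt e1)
  have b2 : ∀ z : ℂ, ‖z‖ = min r δ / 2 → ‖u z‖ < δ := fun z hz =>
    mem_ball_zero_iff.1 (r1 (b1 z hz)).2
  rcases P with P | P <;> rcases N with N | N
  · rcases lt_trichotomy q.im 0 with c | c | c
    exacts [absurd (N q ⟨q1, c⟩) q3.not_gt, absurd (real q q1 c) q3.ne,
      absurd (P q ⟨q1, c⟩) q3.not_gt]
  · obtain ⟨h, h1, h2⟩ := g.pos_case e0 e2 (e2.trans ha) (fun t ht => hr t (ht.trans e2.le))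
      (fun z a b => ⟨b2 z a, P z ⟨b1 z a, b⟩⟩) fun z a b => ⟨b2 z a, N z ⟨b1 z a, b⟩⟩
    exact ⟨h, h1, _, e0, Or.inl h2⟩
  · let c : ℂ ≃ₜ ℂ := conjCLE.toHomeomorph
    have hc : ∀ z, c z = conj z := fun _ => rfl
    obtain ⟨h, h1, h2⟩ := (g.comp c).pos_case e0 e2 (e2.trans ha)
      (fun t ht => by rw [hr t (ht.trans e2.le), hc, conj_ofReal])
      (fun z a b => by simpa [hc] using ⟨b2 z a, P z ⟨b1 z a, b⟩⟩)
      fun z a b => by simpa [hc] using ⟨b2 z a, N z ⟨b1 z a, b⟩⟩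
    refine ⟨c * h * c, fun z hz => ?_, _, e0, Or.inr fun z hz => congrArg c (h2 z hz)⟩
    change c (h (c z)) = z
    rw [h1 _ (by simpa only [ker_int, hc, mem_ball, dist_zero_right, RCLike.norm_conj, not_lt] using hz), hc, hc, conj_conj]
  · rcases lt_trichotomy p.im 0 with c | c | c
    exacts [absurd (N p ⟨p1, c⟩) p3.not_gt, absurd (real p p1 c) p3.ne',
      absurd (P p ⟨p1, c⟩) p3.not_gt]

theorem ker_spiral {R δ : ℝ} (hδ : 0 < δ) (hR : δ < R) {A B : ℂ} (hA : ‖A‖ = R) (hB : ‖B‖ = R)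
    (hAB : A ≠ B) : ∃ c : ℝ → ℂ, Continuous c ∧ (∀ r, ‖c r‖ = |r|) ∧ InjOn c (Icc (-R) R) ∧
      c (-R) = A ∧ c R = B ∧ ∀ r, |r| ≤ δ → c r = r := by
  have R0 : 0 < R := hδ.trans hR
  have d0 : 0 < R - δ := sub_pos.2 hR
  have B0 : B ≠ 0 := norm_pos_iff.1 (hB ▸ R0)
  have hx : |arg (-A / B)| < Real.pi := abs_lt.2 ⟨neg_pi_lt_arg _, (arg_le_pi _).lt_of_ne fun e => by
    have n : ‖-A / B‖ = 1 := by rw [norm_div, norm_neg, hA, hB, div_self R0.ne']
    have := norm_mul_exp_arg_mul_I (-A / B)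
    rw [n, e, exp_pi_mul_I, eq_div_iff B0] at this
    exact hAB (by simpa using this.symm)⟩
  obtain ⟨θ, hθ⟩ : ∃ θ : ℝ → ℝ, ∀ r, θ r = arg B * max 0 ((r - δ) / (R - δ)) +
      (arg B + arg (-A / B)) * max 0 ((-r - δ) / (R - δ)) := ⟨_, fun _ => rfl⟩
  have cθ : Continuous θ := by rw [funext hθ]; fun_prop
  have n : ∀ r : ℝ, ‖(r : ℂ) * exp (θ r * I)‖ = |r| := fun r => by
    rw [norm_mul, norm_exp_ofReal_mul_I, mul_one, norm_real, Real.norm_eq_abs]
  have m : ∀ r ∈ Icc (-R) R, max 0 ((r - δ) / (R - δ)) ∈ Icc (0 : ℝ) 1 := fun r hr =>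
    ⟨le_max_left _ _, max_le zero_le_one ((div_le_one d0).2 (by linarith [hr.2]))⟩
  refine ⟨fun r => r * exp (θ r * I), by fun_prop, n, fun r hr r' hr' e => ?_, ?_, ?_,
    fun r hr => ?_⟩
  · have e1 : |r| = |r'| := by rw [← n r, ← n r']; exact congrArg _ e
    rcases abs_eq_abs.1 e1 with c | c
    · exact c
    by_cases z : r' = 0
    · rw [c, z, neg_zero]
    subst c
    have e2 : exp (((θ (-r') - θ r' : ℝ) : ℂ) * I) = -1 := by
      have : (r' : ℂ) * (-exp (θ (-r') * I)) = r' * exp (θ r' * I) := by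
        rw [← show ((-r' : ℝ) : ℂ) * exp (θ (-r') * I) = r' * exp (θ r' * I) from e]
        push_cast
        ring
      rw [ofReal_sub, sub_mul, exp_sub, ← mul_left_cancel₀ (ofReal_ne_zero.2 z) this,
        div_neg, div_self (exp_ne_zero _)]
    have e3 : Real.cos (θ (-r') - θ r') = -1 := by
      rw [← exp_ofReal_mul_I_re, e2]
      simp
    have e4 : |θ (-r') - θ r'| < Real.pi := by
      rw [hθ, hθ, neg_neg, show ∀ a b x y : ℝ, a * x + (a + b) * y - (a * y + (a + b) * x) =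
        b * (y - x) from fun _ _ _ _ => by ring, abs_mul]
      refine lt_of_le_of_lt (mul_le_of_le_one_right (abs_nonneg _) (abs_le.2 ⟨?_, ?_⟩)) hx
      · linarith only [(m _ hr).2, (m _ hr').1]
      · linarith [(m _ hr).1, (m _ hr').2]
    have := Real.cos_lt_cos_of_nonneg_of_le_pi (abs_nonneg _) le_rfl e4
    rw [Real.cos_pi, Real.cos_abs, e3] at this
    exact absurd this (lt_irrefl _)
  · have n1 : ‖-A / B‖ = 1 := by rw [norm_div, norm_neg, hA, hB, div_self R0.ne']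
    have a1 := norm_mul_exp_arg_mul_I (-A / B)
    have a2 := norm_mul_exp_arg_mul_I B
    rw [n1, ofReal_one, one_mul] at a1
    rw [hB] at a2
    dsimp only
    rw [hθ, neg_neg, div_self d0.ne', max_eq_right zero_le_one,
      max_eq_left (div_nonpos_of_nonpos_of_nonneg (by linarith only [hδ, hR]) d0.le), mul_zero, zero_add, mul_one,
      ofReal_add, add_mul, exp_add, a1, ← mul_assoc, ofReal_neg, neg_mul, a2]
    field_simp
  · dsimp only
    rw [hθ, div_self d0.ne', max_eq_right zero_le_one,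
      max_eq_left (div_nonpos_of_nonpos_of_nonneg (by linarith only [hδ, hR]) d0.le), mul_zero, add_zero, mul_one,
      ← hB]
    exact norm_mul_exp_arg_mul_I B
  · dsimp only
    rw [hθ, max_eq_left (div_nonpos_of_nonpos_of_nonneg (by linarith [(abs_le.1 hr).2]) d0.le),
      max_eq_left (div_nonpos_of_nonpos_of_nonneg (by linarith [(abs_le.1 hr).1]) d0.le)]
    simp

theorem ker_pl {δ p q : ℝ} (hp : δ < p) (hq : δ < q) : ∃ ρ : ℝ → ℝ, Continuous ρ ∧ StrictMono ρ ∧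
    (∀ t, t ≤ δ → ρ t = t) ∧ ρ p = q := by
  have b : 0 < (q - δ) / (p - δ) := div_pos (sub_pos.2 hq) (sub_pos.2 hp)
  refine ⟨fun t => min t δ + (q - δ) / (p - δ) * max 0 (t - δ), by fun_prop, fun x y h => ?_,
    fun t ht => ?_, ?_⟩
  · refine (le_or_gt δ x).elim (fun c => ?_) fun c => ?_
    · dsimp only
      rw [min_eq_right c, min_eq_right (c.trans h.le), max_eq_right (sub_nonneg.2 c),
        max_eq_right (sub_nonneg.2 (c.trans h.le))]
      gcongr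
    · exact add_lt_add_of_lt_of_le (by rw [min_eq_left c.le]; exact lt_min h c) (by gcongr)
  · dsimp only
    rw [min_eq_left ht, max_eq_left (sub_nonpos.2 ht), mul_zero, add_zero]
  · dsimp only
    rw [min_eq_right hp.le, max_eq_right (sub_pos.2 hp).le, div_mul_cancel₀ _ (sub_pos.2 hp).ne']
    ring

theorem ker_exit {f : ℝ → ℝ} {b R : ℝ} (hb : 0 ≤ b) (hf : ContinuousOn f (Icc 0 b)) (h0 : f 0 < R)
    (h1 : R ≤ f b) : ∃ t, 0 < t ∧ t ≤ b ∧ f t = R ∧ ∀ s, 0 ≤ s → s < t → f s < R := by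
  have hc : IsCompact (Icc 0 b ∩ f ⁻¹' {R}) := isCompact_Icc.of_isClosed_subset
    (hf.preimage_isClosed_of_isClosed isClosed_Icc isClosed_singleton) inter_subset_left
  obtain ⟨x, x1, x2⟩ := intermediate_value_Icc hb hf ⟨h0.le, h1⟩
  obtain ⟨t, ⟨t1, t2⟩, t3⟩ := hc.exists_isLeast ⟨x, x1, x2⟩
  refine ⟨t, t1.1.lt_of_ne fun e => h0.ne (e ▸ t2), t1.2, t2, fun s s0 s1 => ?_⟩
  by_contra c
  have sub : Icc 0 s ⊆ Icc 0 b := Icc_subset_Icc_right (s1.le.trans t1.2)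
  obtain ⟨y, y1, y2⟩ := intermediate_value_Icc s0 (hf.mono sub) ⟨h0.le, not_lt.1 c⟩
  exact (y1.2.trans_lt s1).not_ge (t3 ⟨sub y1, y2⟩)

/-- Straightening the image of a diameter. -/
theorem Germ.straight {a R : ℝ} {φ : ℂ → ℂ} (g : Germ a φ) (h0 : φ 0 = 0) (hR : 0 < R) :
    ∃ h : ℂ ≃ₜ ℂ, Supp h (closedBall 0 R) ∧ ∃ δ, 0 < δ ∧ δ < a ∧ δ ≤ R ∧
      ∀ t : ℝ, |t| ≤ δ → h (φ t) = t := by
  have a0 := half_pos g.pos
  have mb : ∀ t : ℝ, |t| ≤ a / 2 → (t : ℂ) ∈ ball (0 : ℂ) a := fun t ht => by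
    simpa using ht.trans_lt (half_lt_self g.pos)
  have nz : ∀ t : ℝ, |t| ≤ a / 2 → t ≠ 0 → 0 < ‖φ t‖ := fun t ht c => norm_pos_iff.2 fun e =>
    c (ofReal_eq_zero.1 (g.inj (mb t ht) (mem_ball_self g.pos) (e.trans h0.symm)))
  obtain ⟨S, S0, S1, S2, S3⟩ : ∃ S, 0 < S ∧ S ≤ R ∧ S ≤ ‖φ ((a / 2 : ℝ) : ℂ)‖ ∧
      S ≤ ‖φ ((-(a / 2) : ℝ) : ℂ)‖ :=
    ⟨min R (min _ _), lt_min hR (lt_min (nz _ (abs_of_pos a0).le a0.ne')
      (nz _ (by rw [abs_neg, abs_of_pos a0]) (neg_ne_zero.2 a0.ne'))), min_le_left _ _,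
      (min_le_right _ _).trans (min_le_left _ _), (min_le_right _ _).trans (min_le_right _ _)⟩
  obtain ⟨p, p0, p1, p2, p3⟩ := ker_exit (f := fun t : ℝ => ‖φ t‖) a0.le
    (g.cont.comp continuous_ofReal.continuousOn fun t ht => mb t (by
      rw [abs_of_nonneg ht.1]; exact ht.2)).norm (by simpa [h0] using S0) S2
  obtain ⟨q, q0, q1, q2, q3⟩ := ker_exit (f := fun t : ℝ => ‖φ ((-t : ℝ) : ℂ)‖) a0.le
    (g.cont.comp (by fun_prop) fun t ht => mb (-t) (by
      rw [abs_neg, abs_of_nonneg ht.1]; exact ht.2)).norm (by simpa [h0] using S0) S3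
  obtain ⟨δ, d0, d1, d2, d3⟩ : ∃ δ, 0 < δ ∧ δ < S ∧ δ < p ∧ δ < q := by
    have h := lt_min S0 (lt_min p0 q0)
    have h' := half_lt_self h
    exact ⟨_, half_pos h, h'.trans_le (min_le_left _ _),
      h'.trans_le ((min_le_right _ _).trans (min_le_left _ _)),
      h'.trans_le ((min_le_right _ _).trans (min_le_right _ _))⟩
  have mt : ∀ t ∈ Icc (-q) p, (t : ℂ) ∈ ball (0 : ℂ) a := fun t ht =>
    mb t (abs_le.2 ⟨by linarith only [ht.1, q1], by linarith only [ht.2, p1]⟩)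
  have qp : -q < p := by linarith only [d0, d2, d3]
  obtain ⟨c, c1, c2, c3, c4, c5, c6⟩ := ker_spiral d0 d1 q2 p2 fun e => qp.ne
    (ofReal_injective (g.inj (mt _ ⟨le_rfl, qp.le⟩) (mt _ ⟨qp.le, le_rfl⟩) e))
  obtain ⟨ρ, r1, r2, r3, r4⟩ := ker_pl d2 d1
  obtain ⟨σ, s1, s2, s3, s4⟩ := ker_pl d3 d1
  obtain ⟨κ, k1, k2, k3, k4, k5⟩ : ∃ κ : ℝ → ℝ, Continuous κ ∧ StrictMono κ ∧
      (∀ t, |t| ≤ δ → κ t = t) ∧ κ p = S ∧ κ (-q) = -S :=
    ⟨fun t => -σ (-ρ t), by fun_prop, fun x y h => neg_lt_neg (s2 (neg_lt_neg (r2 h))),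
      fun t ht => by
        dsimp only
        rw [r3 t (abs_le.1 ht).2, s3 _ (by linarith only [(abs_le.1 ht).1]), neg_neg],
      by dsimp only; rw [r4, s3 _ (by linarith only [d0, d1]), neg_neg],
      by dsimp only; rw [r3 _ (by linarith only [d0, d3]), neg_neg, s4]⟩
  obtain ⟨τ, t1, t2, t3, t4⟩ : ∃ τ : ℝ → ℝ, Continuous τ ∧ StrictMono τ ∧ τ 0 = -q ∧ τ 1 = p :=
    ⟨fun s => -q + s * (p + q), by fun_prop, fun x y h => by
      have : 0 < p + q := by linarith only [d0, d2, d3]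
      dsimp only
      gcongr, by simp, by simp⟩
  have m1 : ∀ s ∈ Icc (0 : ℝ) 1, τ s ∈ Icc (-q) p := fun s hs =>
    ⟨t3 ▸ t2.monotone hs.1, t4 ▸ t2.monotone hs.2⟩
  have m2 : ∀ s ∈ Ioo (0 : ℝ) 1, τ s ∈ Ioo (-q) p := fun s hs => ⟨t3 ▸ t2 hs.1, t4 ▸ t2 hs.2⟩
  have A1 : PArc (closedBall 0 S) fun s : ℝ => φ (τ s) := by
    refine ⟨g.cont.comp (by fun_prop) fun s hs => mt _ (m1 s hs), fun s hs s' hs' e => t2.injective
      (ofReal_injective (g.inj (mt _ (m1 s hs)) (mt _ (m1 s' hs')) e)), ?_, ?_, ?_, ?_,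
      fun s hs => ?_⟩
    · rw [t3]; exact mem_closedBall_zero_iff.2 q2.le
    · rw [t3, ker_int, mem_ball_zero_iff]; exact q2.not_lt
    · rw [t4]; exact mem_closedBall_zero_iff.2 p2.le
    · rw [t4, ker_int, mem_ball_zero_iff]; exact p2.not_lt
    · rw [ker_int, mem_ball_zero_iff]
      rcases le_total 0 (τ s) with b | b
      · exact p3 _ b (m2 s hs).2
      · simpa only [neg_neg] using q3 (-τ s) (neg_nonneg.2 b) (by linarith only [(m2 s hs).1])
  have A2 : PArc (closedBall 0 S) fun s : ℝ => c (κ (τ s)) := by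
    have m3 : ∀ s ∈ Icc (0 : ℝ) 1, κ (τ s) ∈ Icc (-S) S := fun s hs =>
      ⟨k5 ▸ k2.monotone (m1 s hs).1, k4 ▸ k2.monotone (m1 s hs).2⟩
    refine ⟨by fun_prop, fun s hs s' hs' e => t2.injective (k2.injective
      (c3 (m3 s hs) (m3 s' hs') e)), ?_, ?_, ?_, ?_, fun s hs => ?_⟩
    · rw [t3, k5, c4]; exact mem_closedBall_zero_iff.2 q2.le
    · rw [t3, k5, c4, ker_int, mem_ball_zero_iff]; exact q2.not_lt
    · rw [t4, k4, c5]; exact mem_closedBall_zero_iff.2 p2.le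
    · rw [t4, k4, c5, ker_int, mem_ball_zero_iff]; exact p2.not_lt
    · rw [ker_int, mem_ball_zero_iff, c2]
      exact abs_lt.2 ⟨k5 ▸ k2 (m2 s hs).1, k4 ▸ k2 (m2 s hs).2⟩
  obtain ⟨h, h1, h2⟩ := arc_lemma (isCompact_closedBall 0 S) (convex_closedBall 0 S) A1 A2
    (by simp only [t3, k5, c4]) (by simp only [t4, k4, c5])
  refine ⟨h, h1.mono (closedBall_subset_closedBall S1), δ, d0, by linarith only [p1, d0, d2], d1.le.trans S1,
    fun t ht => ?_⟩
  obtain ⟨s, hs, rfl⟩ := intermediate_value_Icc zero_le_one t1.continuousOn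
    (show t ∈ Icc (τ 0) (τ 1) by
      rw [t3, t4]; exact ⟨by linarith only [(abs_le.1 ht).1, d3], by linarith only [(abs_le.1 ht).2, d2]⟩)
  rw [h2 s hs, k3 _ ht, c6 _ ht]

/-- Up to a compactly supported homeomorphism a germ is the identity or the conjugation. -/
theorem Germ.norm {a R : ℝ} {φ : ℂ → ℂ} (g : Germ a φ) (h0 : φ 0 = 0) (hR : 0 < R) :
    ∃ h : ℂ ≃ₜ ℂ, Supp h (closedBall 0 R) ∧ h 0 = 0 ∧ ∃ ε, 0 < ε ∧ ε < a ∧
      ((∀ z, ‖z‖ ≤ ε → h (φ z) = z) ∨ ∀ z, ‖z‖ ≤ ε → h (φ z) = conj z) := by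
  obtain ⟨h, h1, δ, d0, d1, d2, d3⟩ := g.straight h0 hR
  obtain ⟨k, k1, ε, e0, e1⟩ := (g.comp h).line d0 d1 d3
  refine ⟨k * h, (k1.mono (closedBall_subset_closedBall d2)).mul h1, ?_, min ε δ, lt_min e0 d0,
    (min_le_right _ _).trans_lt d1, e1.imp (fun b z hz => b z (hz.trans (min_le_left _ _)))
      fun b z hz => b z (hz.trans (min_le_left _ _))⟩
  rcases e1 with b | b <;> simpa only [Homeomorph.mul_apply, h0, map_zero] using b 0 (by simpa only [norm_zero] using e0.le)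

end Pool.Agent.MP_646035_al.MC
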