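import Pool.Agent.MP_646035_al.Cx.Ker1
import Pool.Agent.MP_646035_al.MC.Stmt

/-!
Isotopies supported in charts.
-/

namespace Pool.Agent.MP_646035_al.MC

open Set Topology Metric Complex Pool.Agent.MP_4a6971_al.H83

variable {X Z : Type} [TopologicalSpace X] [TopologicalSpace Z]

/-- The homeomorphisms that are isotopic to the identity through admissible ones. -/
def Marks.Iso (c : Marks X) : Subgroup (X ≃ₜ X) where
  carrier := {f | ∃ H : C(unitInterval × X, X), (∀ t, ∃ h ∈ c.Adm, ∀ x, H (t, x) = h x) ∧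
    (∀ x, H (0, x) = x) ∧ ∀ x, H (1, x) = f x}
  one_mem' := ⟨ContinuousMap.snd, fun _ => ⟨1, one_mem _, fun _ => rfl⟩, fun _ => rfl, fun _ => rfl⟩
  mul_mem' := by
    rintro f h ⟨H, a, b, e⟩ ⟨K, a', b', e'⟩
    refine ⟨⟨fun p => H (p.1, K p), by fun_prop⟩, fun t => ?_,
      fun x => (b _).trans (b' x), fun x => (e _).trans (congrArg f (e' x))⟩
    obtain ⟨u, u1, u2⟩ := a t
    obtain ⟨v, v1, v2⟩ := a' t
    exact ⟨u * v, mul_mem u1 v1, fun x => (u2 _).trans (congrArg u (v2 x))⟩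
  inv_mem' := by
    rintro f ⟨H, a, b, e⟩
    obtain ⟨f', f1, f2⟩ := a 1
    obtain rfl : f' = f := Homeomorph.ext fun x => (f2 x).symm.trans (e x)
    refine ⟨⟨fun p => H (unitInterval.symm p.1, f'.symm p.2), by fun_prop⟩, fun t => ?_,
      fun x => ?_, fun x => ?_⟩
    · obtain ⟨u, u1, u2⟩ := a (unitInterval.symm t)
      exact ⟨u * f'⁻¹, mul_mem u1 (inv_mem f1), fun x => u2 _⟩
    · simpa using e (f'.symm x)
    · simpa using b (f'.symm x)

theorem Marks.mem_zero {c : Marks X} {f : c.Homeo} : f ∈ c.Zero ↔ f.1 ∈ c.Iso := Iff.rfl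

theorem Marks.iso_le (c : Marks X) : c.Iso ≤ c.Adm := by
  rintro f ⟨H, a, -, e⟩
  obtain ⟨f', f1, f2⟩ := a 1
  rwa [← show f' = f from Homeomorph.ext fun x => (f2 x).symm.trans (e x)]

theorem Marks.iso_of {c : Marks X} {K : ℝ → X ≃ₜ X} (hc : Continuous fun p : ℝ × X => K p.1 p.2)
    (ha : ∀ t, K t ∈ c.Adm) : K 1 * (K 0)⁻¹ ∈ c.Iso :=
  ⟨⟨fun p => K p.1 ((K 0).symm p.2), hc.comp (f := fun p : unitInterval × X =>
      ((p.1 : ℝ), (K 0).symm p.2)) (by fun_prop)⟩,
    fun t => ⟨K t * (K 0)⁻¹, mul_mem (ha t) (inv_mem (ha 0)), fun _ => rfl⟩,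
    fun x => (K 0).apply_symm_apply x, fun _ => rfl⟩

theorem ker_ext_cont [T2Space X] {T : Type} [TopologicalSpace T] {D : Z → X}
    (hD : IsOpenEmbedding D) {C : Set Z} (hC : IsCompact C) {k : T → Z → Z}
    (hk : Continuous fun p : T × Z => k p.1 p.2) (hs : ∀ t z, z ∉ C → k t z = z) {K : T → X → X}
    (e1 : ∀ t z, K t (D z) = D (k t z)) (e2 : ∀ t x, x ∉ range D → K t x = x) :
    Continuous fun p : T × X => K p.1 p.2 := by
  refine continuous_iff_continuousAt.2 ?_
  rintro ⟨t, x⟩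
  by_cases a : x ∈ range D
  · obtain ⟨z, rfl⟩ := a
    refine ((IsOpenEmbedding.id (X := T)).prodMap hD).continuousAt_iff (x := (t, z)) |>.1
      (Continuous.continuousAt ?_)
    exact (hD.continuous.comp hk).congr fun p => (e1 p.1 p.2).symm
  · refine continuousAt_snd.congr (Filter.eventually_of_mem (continuousAt_snd.preimage_mem_nhds
      ((hC.image hD.continuous).isClosed.isOpen_compl.mem_nhds
        fun b => a (image_subset_range _ _ b))) fun w hw => ?_)
    by_cases b : w.2 ∈ range D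
    · obtain ⟨z, hz⟩ := b
      change w.2 = K w.1 w.2
      rw [← hz, e1, hs _ z fun c => hw (hz ▸ mem_image_of_mem D c)]
    · exact (e2 _ _ b).symm

/-- Extension by the identity along a chart. -/
theorem ker_ext [T2Space X] {D : Z → X} (hD : IsOpenEmbedding D) {C : Set Z} (hC : IsCompact C) :
    ∃ e : (Z ≃ₜ Z) → X ≃ₜ X, ∀ k : Z ≃ₜ Z, (∀ z, z ∉ C → k z = z) →
      (∀ z, e k (D z) = D (k z)) ∧ ∀ x, x ∉ range D → e k x = x := by
  have ex : ∀ k : Z ≃ₜ Z, (∀ z, z ∉ C → k z = z) → ∃ f : X → X, Continuous f ∧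
      (∀ z, f (D z) = D (k z)) ∧ ∀ x, x ∉ range D → f x = x := fun k hk => by
    have e1 : ∀ z, Function.extend D (D ∘ k) id (D z) = D (k z) := fun z =>
      hD.injective.extend_apply _ _ z
    have e2 : ∀ x, x ∉ range D → Function.extend D (D ∘ k) id x = x := fun x hx =>
      Function.extend_apply' _ _ x hx
    exact ⟨_, (ker_ext_cont (T := Unit) hD hC (k := fun _ => k) (by fun_prop) (fun _ => hk)
      (K := fun _ => Function.extend D (D ∘ k) id) (fun _ => e1) fun _ => e2).comp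
        (Continuous.prodMk_right ()), e1, e2⟩
  have : ∀ k : Z ≃ₜ Z, ∃ K : X ≃ₜ X, (∀ z, z ∉ C → k z = z) →
      (∀ z, K (D z) = D (k z)) ∧ ∀ x, x ∉ range D → K x = x := fun k => by
    by_cases hk : ∀ z, z ∉ C → k z = z
    · obtain ⟨f, a, b, c⟩ := ex k hk
      obtain ⟨f', a', b', c'⟩ := ex k.symm fun z hz => k.symm_apply_eq.2 (hk z hz).symm
      refine ⟨⟨⟨f, f', fun x => ?_, fun x => ?_⟩, a, a'⟩, fun _ => ⟨b, c⟩⟩
      · by_cases e : x ∈ range D
        · obtain ⟨z, rfl⟩ := e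
          rw [b, b', k.symm_apply_apply]
        · rw [c x e, c' x e]
      · by_cases e : x ∈ range D
        · obtain ⟨z, rfl⟩ := e
          rw [b', b, k.apply_symm_apply]
        · rw [c' x e, c x e]
    · exact ⟨1, fun h => (hk h).elim⟩
  choose e he using this
  exact ⟨e, he⟩

/-- Extension of a family. -/
theorem ker_ext_fam [T2Space X] {D : Z → X} (hD : IsOpenEmbedding D) {C : Set Z}
    (hC : IsCompact C) {k : ℝ → Z ≃ₜ Z} (hk : Continuous fun p : ℝ × Z => k p.1 p.2)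
    (hs : ∀ t z, z ∉ C → k t z = z) :
    ∃ K : ℝ → X ≃ₜ X, Continuous (fun p : ℝ × X => K p.1 p.2) ∧
      (∀ t z, K t (D z) = D (k t z)) ∧ ∀ t x, x ∉ range D → K t x = x := by
  obtain ⟨e, he⟩ := ker_ext hD hC
  exact ⟨fun t => e (k t), ker_ext_cont hD hC hk hs (K := fun t => e (k t))
    (fun t => (he _ (hs t)).1) fun t => (he _ (hs t)).2,
    fun t => (he _ (hs t)).1, fun t => (he _ (hs t)).2⟩

/-- The inverses of a compactly supported family depend continuously on the parameter. -/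
theorem ker_inv_cont [T2Space Z] {C : Set Z} (hC : IsCompact C) {k : unitInterval → Z ≃ₜ Z}
    (hk : Continuous fun p : unitInterval × Z => k p.1 p.2) (hs : ∀ t z, z ∉ C → k t z = z) :
    Continuous fun p : unitInterval × Z => (k p.1).symm p.2 := by
  obtain ⟨F, hF⟩ := homeo_of_supp (f := fun p : unitInterval × Z => (p.1, k p.1 p.2))
    (continuous_fst.prodMk hk) ⟨fun p q e => by
      obtain ⟨t, z⟩ := p
      obtain ⟨s, w⟩ := q
      obtain ⟨rfl, e2⟩ := Prod.ext_iff.1 e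
      exact Prod.ext rfl ((k t).injective e2),
      fun q => ⟨(q.1, (k q.1).symm q.2), by simp⟩⟩ (isCompact_univ.prod hC)
    fun p hp => Prod.ext rfl (hs _ _ fun a => hp ⟨trivial, a⟩)
  refine (continuous_snd.comp F.symm.continuous).congr fun p => ?_
  change (F.symm p).2 = _
  rw [show F.symm p = (p.1, (k p.1).symm p.2) from F.symm_apply_eq.2 (by simp [hF])]

/-- The profile that is `1` up to radius `1` and `0` from radius `2` on. -/
noncomputable def bump (r : ℝ) : ℝ := max 0 (min 1 (2 - r))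

theorem bump_cont : Continuous bump := by unfold bump; fun_prop

theorem bump_one {r : ℝ} (h : r ≤ 1) : bump r = 1 := by
  rw [bump, min_eq_left (by linarith), max_eq_right zero_le_one]

theorem bump_zero {r : ℝ} (h : 2 ≤ r) : bump r = 0 :=
  max_eq_left ((min_le_right _ _).trans (by linarith))

theorem bump_anti : Antitone bump := fun _ _ h => by unfold bump; gcongr

theorem bump_mem (r : ℝ) : bump r ∈ Icc (0 : ℝ) 1 :=
  ⟨le_max_left _ _, max_le zero_le_one (min_le_left _ _)⟩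

/-- Radial contraction of the unit disc. -/
theorem ker_shrink {s : ℝ} (h0 : 0 ≤ s) (h1 : s < 1) :
    ∃ τ : ℂ ≃ₜ ℂ, ∀ z, τ z = (1 - s * bump ‖z‖) • z := by
  have pos : ∀ r, 0 < 1 - s * bump r := fun r => by
    nlinarith only [(bump_mem r).2, h0, h1]
  have nm : ∀ z : ℂ, ‖(1 - s * bump ‖z‖) • z‖ = (1 - s * bump ‖z‖) * ‖z‖ := fun z => by
    rw [norm_smul, Real.norm_of_nonneg (pos _).le]
  have mono : StrictMonoOn (fun r => (1 - s * bump r) * r) (Ici 0) := fun x hx y _ h => by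
    have := mul_le_mul_of_nonneg_left (bump_anti h.le) h0
    exact mul_lt_mul' (by linarith) h hx (pos y)
  have bc := bump_cont
  refine homeo_of_supp (by fun_prop) ⟨fun z w e => ?_, fun w => ?_⟩
    (isCompact_closedBall (0 : ℂ) 2) fun z hz => ?_
  · have e1 : ‖z‖ = ‖w‖ := mono.injOn (norm_nonneg z) (norm_nonneg w)
      ((nm z).symm.trans ((congrArg norm e).trans (nm w)))
    dsimp only at e
    rw [e1] at e
    exact smul_right_injective ℂ (pos _).ne' e
  · by_cases hw : w = 0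
    · exact ⟨0, by simp [hw]⟩
    have w0 := norm_pos_iff.2 hw
    obtain ⟨r, r1, r2⟩ := intermediate_value_Icc (a := 0) (b := ‖w‖ + 2) (by positivity)
      (f := fun r => (1 - s * bump r) * r) (by fun_prop) (show ‖w‖ ∈ _ from
        ⟨by simp, by simp [bump_zero (show 2 ≤ ‖w‖ + 2 by linarith)]⟩)
    have n : ‖(r / ‖w‖) • w‖ = r := by
      rw [norm_smul, Real.norm_of_nonneg (div_nonneg r1.1 w0.le), div_mul_cancel₀ _ w0.ne']
    refine ⟨(r / ‖w‖) • w, ?_⟩
    dsimp only at r2 ⊢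
    rw [n, smul_smul, ← mul_div_assoc, r2, div_self w0.ne', one_smul]
  · rw [bump_zero (le_of_lt (by simpa using hz)), mul_zero, sub_zero, one_smul]

/-- A family of radial contractions that ends in a map taking the unit disc into a small disc. -/
theorem ker_shrink_fam {r : ℝ} (hr : 0 < r) : ∃ τ : ℝ → ℂ ≃ₜ ℂ,
    Continuous (fun p : ℝ × ℂ => τ p.1 p.2) ∧ (∀ t z, z ∉ closedBall (0 : ℂ) 2 → τ t z = z) ∧
      τ 0 = 1 ∧ (∀ t z, ∃ a : ℝ, 0 < a ∧ a ≤ 1 ∧ τ t z = a • z) ∧
        ∀ z, ‖z‖ ≤ 1 → ‖τ 1 z‖ ≤ r := by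
  have m0 : 0 < min r 1 := lt_min hr one_pos
  have a0 : ∀ t : ℝ, 0 ≤ max 0 (min t 1) * (1 - min r 1) := fun t =>
    mul_nonneg (le_max_left _ _) (sub_nonneg.2 (min_le_right _ _))
  have a1 : ∀ t : ℝ, max 0 (min t 1) * (1 - min r 1) < 1 := fun t =>
    (mul_le_of_le_one_left (sub_nonneg.2 (min_le_right _ _))
      (max_le zero_le_one (min_le_right _ _))).trans_lt (by linarith)
  choose τ hτ using fun t => ker_shrink (a0 t) (a1 t)
  have bc := bump_cont
  refine ⟨τ, by simp only [hτ]; fun_prop, fun t z hz => ?_, Homeomorph.ext fun z => ?_,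
    fun t z => ⟨_, ?_, ?_, hτ t z⟩, fun z hz => ?_⟩
  · rw [hτ, bump_zero (le_of_lt (by simpa using hz)), mul_zero, sub_zero, one_smul]
  · simp [hτ]
  · nlinarith only [(bump_mem ‖z‖).2, a0 t, a1 t]
  · nlinarith only [(bump_mem ‖z‖).1, a0 t]
  · rw [hτ, bump_one hz, min_self, max_eq_right zero_le_one, one_mul, mul_one, sub_sub_cancel,
      norm_smul, Real.norm_of_nonneg m0.le]
    exact (mul_le_of_le_one_right m0.le hz).trans (min_le_left _ _)

/-- A family of rotations of the unit disc. -/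
theorem ker_rot_fam (θ : ℝ) : ∃ ρ : ℝ → ℂ ≃ₜ ℂ,
    ∀ t z, ρ t z = exp ((t * θ * bump ‖z‖ : ℝ) * I) * z := by
  have bc := bump_cont
  have n : ∀ (a : ℝ) (z : ℂ), ‖exp (a * I) * z‖ = ‖z‖ := fun a z => by
    rw [norm_mul, norm_exp_ofReal_mul_I, one_mul]
  refine ⟨fun t => ⟨⟨fun z => exp ((t * θ * bump ‖z‖ : ℝ) * I) * z,
    fun z => exp ((-(t * θ * bump ‖z‖) : ℝ) * I) * z, fun z => ?_, fun z => ?_⟩,
    by dsimp only; fun_prop, by dsimp only; fun_prop⟩, fun _ _ => rfl⟩ <;>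
  · dsimp only
    rw [n, ← mul_assoc, ← exp_add]
    simp

/-- An isotopy that fixes small discs can be replaced by one that fixes the unit discs. -/
theorem Marks.grow [T2Space X] {c : Marks X} {f : X ≃ₜ X} (hf : f ∈ c.Adm) {r : ℝ} (hr : 0 < r)
    {K : ℝ → X ≃ₜ X} (hc : Continuous fun p : ℝ × X => K p.1 p.2) (h0 : K 0 = 1) (h1 : K 1 = f)
    (hP : ∀ t x, K t x ∈ c.P ↔ x ∈ c.P) (hd : ∀ t i z, ‖z‖ ≤ r → K t (c.d i z) = c.d i z) :
    f ∈ c.Iso := by
  obtain ⟨τ, t1, t2, t3, t4, t5⟩ := ker_shrink_fam hr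
  have hD : IsOpenEmbedding fun p : Fin c.b × ℂ => c.d p.1 p.2 := by
    refine .of_continuous_injective_isOpenMap (continuous_prod_of_discrete_left.2
      fun i => (c.emb i).continuous) (fun p q e => ?_)
      (isOpenMap_prod_of_discrete_left.2 fun i => (c.emb i).isOpenMap)
    obtain ⟨i, z⟩ := p
    obtain ⟨j, w⟩ := q
    obtain rfl : i = j := c.disj _ _ _ _ e
    exact Prod.ext rfl ((c.emb i).injective e)
  have hC : IsCompact ((univ : Set (Fin c.b)) ×ˢ closedBall (0 : ℂ) 2) :=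
    isCompact_univ.prod (isCompact_closedBall 0 2)
  obtain ⟨T, T1, T2, T3⟩ := ker_ext_fam hD hC
    (k := fun t => (Homeomorph.refl _).prodCongr (τ t))
    (show Continuous fun p : ℝ × Fin c.b × ℂ => (p.2.1, τ p.1 p.2.2) from
      continuous_snd.fst.prodMk (t1.comp (f := fun p : ℝ × Fin c.b × ℂ => (p.1, p.2.2))
        (by fun_prop)))
    fun t z hz => Prod.ext rfl (t2 t z.2 fun a => hz ⟨trivial, a⟩)
  have T4 : ∀ t i z, T t (c.d i z) = c.d i (τ t z) := fun t i z => T2 t (i, z)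
  have T5 : ∀ t x, T t x ∈ c.P ↔ x ∈ c.P := fun t x => by
    by_cases a : x ∈ range fun p : Fin c.b × ℂ => c.d p.1 p.2
    · obtain ⟨p, rfl⟩ := a
      rw [T2]
      exact iff_of_false (c.avoid _ _) (c.avoid _ _)
    · rw [T3 t x a]
  have T6 : ∀ t x, (T t).symm x ∈ c.P ↔ x ∈ c.P := fun t x => by
    rw [← T5 t, Homeomorph.apply_symm_apply]
  have T0 : T 0 = 1 := Homeomorph.ext fun x => by
    by_cases a : x ∈ range fun p : Fin c.b × ℂ => c.d p.1 p.2
    · obtain ⟨p, rfl⟩ := a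
      rw [T4, t3]
      rfl
    · exact T3 0 x a
  have ic := ker_inv_cont (hC.image hD.continuous) (k := fun t => T t)
    (T1.comp (f := fun p : unitInterval × X => ((p.1 : ℝ), p.2)) (by fun_prop)) fun t x hx => by
      by_cases a : x ∈ range fun p : Fin c.b × ℂ => c.d p.1 p.2
      · obtain ⟨p, rfl⟩ := a
        rw [T4, t2 _ _ fun a => hx ⟨p, ⟨trivial, a⟩, rfl⟩]
      · exact T3 t x a
  have A : (T 1)⁻¹ * f * T 1 ∈ c.Iso := by
    have := Marks.iso_of (c := c) (K := fun t => (T 1)⁻¹ * K t * T 1)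
      ((T 1).symm.continuous.comp (hc.comp (f := fun p : ℝ × X => (p.1, T 1 p.2)) (by fun_prop)))
      fun t => ⟨fun x => (T6 1 _).trans ((hP t _).trans (T5 1 x)), fun i z hz =>
        (T 1).symm_apply_eq.2 (by
          change K t (T 1 (c.d i z)) = _
          rw [T4, hd t i _ (t5 z hz)])⟩
    simpa only [h1, h0, mul_one, inv_mul_cancel, inv_one] using this
  have B : (T 1)⁻¹ * f * T 1 * f⁻¹ ∈ c.Iso := by
    refine ⟨⟨fun p => (T p.1).symm (f (T p.1 (f.symm p.2))), ic.comp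
      (f := fun p : unitInterval × X => (p.1, f (T p.1 (f.symm p.2))))
      (continuous_fst.prodMk (f.continuous.comp (T1.comp
        (f := fun p : unitInterval × X => ((p.1 : ℝ), f.symm p.2)) (by fun_prop))))⟩,
      fun t => ⟨(T t)⁻¹ * f * T t * f⁻¹, mul_mem ⟨fun x => (T6 t _).trans
        ((hf.1 _).trans (T5 t x)), fun i z hz => (T t).symm_apply_eq.2 ?_⟩ (inv_mem hf),
        fun _ => rfl⟩, fun x => ?_, fun _ => rfl⟩
    · change f (T t (c.d i z)) = _
      obtain ⟨a, a0, a1, a2⟩ := t4 t z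
      rw [T4, hf.2 i _ (by
        rw [a2, norm_smul, Real.norm_of_nonneg a0.le]
        exact mul_le_one₀ a1 (norm_nonneg _) hz)]
    · change (T 0).symm (f (T 0 (f.symm x))) = x
      rw [T0]
      exact f.apply_symm_apply x
  simpa only [mul_assoc, mul_inv_rev, inv_inv, mul_inv_cancel_left, inv_mul_cancel_left, inv_mul_cancel, mul_one] using mul_mem (inv_mem B) A

end Pool.Agent.MP_646035_al.MC
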