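import Pool.Agent.MP_646035_al.MC.Goal
import Pool.Agent.MP_4a6971_al.H83.Klein
import Pool.Agent.MP_4a6971_al.H83.Hyper

attribute [-instance] Semiring.toMonoid SMulWithZero.toSMulZeroClass
  DivisionCommMonoid.toDivisionMonoid AddCommMonoid.toAddMonoid MonTypeEquivalenceMon.monMonoid
  AddMonoidWithOne.toAddMonoid AddCommGroup.toAddGroup Algebra.toSMul
  ESeminormedAddMonoid.toAddMonoid NonUnitalRingHomClass.toMulHomClass RKHS.instFunLike Prod.instSMul
  SetLike.GradeZero.instMonoid MonoidWithZero.toMonoid CommSemiring.toSemiring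
  DivisionSemiring.toSemiring AddMonoidWithOne.toOne IdemSemiring.toCanonicallyOrderedAdd
  instSMulZeroClass MulZeroClass.toMul Valued.toUniformSpace AddQuantale.instAddLeftMono
  TotallySeparatedSpace.t2Space MonoidWithZeroHomClass.toMonoidHomClass
  NonUnitalRing.toNonUnitalNonAssocRing SubtractionMonoid.toSubNegMonoid
  NonUnitalAlgSemiHomClass.toMulHomClass

/-!
Lifts of admissible homeomorphisms to the hyperbolic plane, the group of induced automorphisms, and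
the homomorphism from the mapping class group.
-/

namespace Pool.Agent.MP_646035_al.MC

open Set Topology Pool.Agent.MP_4a6971_al.H66 Pool.Agent.MP_4a6971_al.H83
  Pool.Agent.MP_4a6971_al.Mcg

variable {Γ : Type} [Group Γ] {B : Type} [TopologicalSpace B]

/-! ### The action of a `Fuchs` group on the plane -/

theorem lift_hyp_ne {u : Isom} (h : Hyp u) (x : X) : u • x ≠ x := by
  obtain ⟨f, t, hf⟩ := h.fr
  intro e
  have a := hf.one x.1
  rw [show u • x.1 = x.1 from congrArg Subtype.val e, dil_smul] at a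
  have b := congrArg Prod.fst a
  have c := (x.2.smul f).2
  have d : Real.exp (-t) < 1 := Real.exp_lt_one_iff.2 (by linarith [hf.pos])
  simp only at b
  nlinarith only [b, c, d]

namespace Fuchs

variable (Y : Fuchs Γ)

theorem free {γ : Γ} {x : X} (h : Y.σ γ • x = x) : γ = 1 :=
  by_contra fun e => lift_hyp_ne (Y.hyp γ e) x h

theorem cancel {γ δ : Γ} (x : X) (h : Y.σ γ • x = Y.σ δ • x) : γ = δ := by
  have : δ⁻¹ * γ = 1 := Y.free (x := x) (by rw [map_mul, map_inv, mul_smul, h, inv_smul_smul])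
  exact (inv_mul_eq_one.1 this).symm

theorem finite_meet {C C' : Set X} (h : IsCompact C) (h' : IsCompact C') :
    {γ : Γ | ∃ x ∈ C, Y.σ γ • x ∈ C'}.Finite := by
  obtain ⟨R, hR⟩ := subset_Dsc h oX
  obtain ⟨R', hR'⟩ := subset_Dsc h' oX
  refine (Y.proper (2 * R' * R)).subset ?_
  rintro w ⟨x, hx, hx'⟩
  have a : cd oX x ≤ R := hR hx
  have b : cd oX (Y.σ w • x) ≤ R' := hR' hx'
  have c := cd_tri oX (Y.σ w • x) (Y.σ w • oX)
  rw [cd_smul, cd_comm (Y.σ w • x), cd_comm x] at c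
  have d := one_le_cd oX x
  have e := one_le_cd oX (Y.σ w • x)
  change cd oX (Y.σ w • oX) ≤ _
  refine c.trans ?_
  gcongr
  linarith

/-- A strict map whose fibres are the orbits is a quotient covering of its range. -/
theorem quot {π : X → B} (h : IsStrictMap π) (fib : ∀ x y, π x = π y ↔ ∃ γ, x = Y.σ γ • y) :
    @IsQuotientCoveringMap X (range π) _ _ (rangeFactorization π) Γ _
      (MulAction.compHom X Y.σ) := by
  let _ := MulAction.compHom X Y.σ
  have : ContinuousConstSMul Γ X := ⟨fun γ => continuous_const_smul (Y.σ γ)⟩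
  have : ProperlyDiscontinuousSMul Γ X := ⟨fun {K L} a b => (Y.finite_meet a b).subset (by
    rintro γ ⟨_, ⟨x, hx, rfl⟩, hy⟩
    exact ⟨x, hx, hy⟩)⟩
  have : IsCancelSMul Γ X := isCancelSMul_iff_eq_one_of_smul_eq.2 fun γ x e => Y.free e
  refine IsQuotientMap.isQuotientCoveringMap_of_properlyDiscontinuousSMul h ?_
  intro x y
  rw [Subtype.ext_iff]
  exact (fib x y).trans ⟨fun ⟨γ, e⟩ => ⟨γ, e.symm⟩, fun ⟨γ, e⟩ => ⟨γ, e.symm⟩⟩

/-- An equivariant homeomorphism does not separate two ends that lie on one side of an axis. -/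
theorem side_of (F : X ≃ₜ X) (φ : MulAut Γ) (hF : ∀ γ x, F (Y.σ γ • x) = Y.σ (φ γ) • F x)
    {α β γ : Γ} (h : Y.Same α β γ) : ¬ Y.Apart (φ α) (φ β) (φ γ) := by
  obtain ⟨-, -, -, E, N, M, hE, hN, hM, a, b⟩ := h
  rintro ⟨n1, -, -, E', N', M', hE', hN', hM', a', b'⟩
  obtain ⟨R', hR'⟩ := norm_pt (Y.hyp _ n1) hE' 0
  obtain ⟨R, hR⟩ := (((isCompact_Dsc oX R').image F.symm.continuous).image
    (f := fun x => bf E x) (by fun_prop)).bddAbove
  have key : ∀ x : X, bf E' (F x) = 0 → bf E x ≤ R := fun x hx => by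
    obtain ⟨k, hk⟩ := hR' (F x).1 (F x).2 (le_of_eq (abs_eq_zero.2 hx))
    have e : F (Y.σ (α ^ k) • x) ∈ Dsc oX R' := by
      rw [hF, map_zpow, map_zpow]
      exact hk
    have := hR ⟨_, ⟨_, e, rfl⟩, rfl⟩
    simp only [Homeomorph.symm_apply_apply] at this
    rwa [map_zpow, ← hE.zpow k, bf_smul] at this
  have pre := preconn_beyond (E := -E) (by simpa using hE.1) (-R)
  obtain ⟨k, hk⟩ := hN.grow E o R H2_o a
  obtain ⟨l, hl⟩ := hN'.grow E' (F oX).1 0 (F oX).2 a'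
  obtain ⟨k', hk'⟩ := hM.grow E o R H2_o b
  obtain ⟨l', hl'⟩ := hM'.grow (-E') (F oX).1 0 (F oX).2 (by simpa using b')
  have p1 : Y.σ (β ^ (k + l)) • oX ∈ {x | bf (-E) x < -R} := by
    have := hk (k + l) (by omega)
    rw [← map_pow] at this
    rw [mem_ofPred_eq, bf_neg]
    exact neg_lt_neg this
  have p2 : Y.σ (γ ^ (k' + l')) • oX ∈ {x | bf (-E) x < -R} := by
    have := hk' (k' + l') (by omega)
    rw [← map_pow] at this
    rw [mem_ofPred_eq, bf_neg]
    exact neg_lt_neg this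
  have q1 : 0 < bf E' (F (Y.σ (β ^ (k + l)) • oX)) := by
    rw [hF, map_pow, map_pow]
    exact hl _ (by omega)
  have q2 : bf E' (F (Y.σ (γ ^ (k' + l')) • oX)) < 0 := by
    rw [hF, map_pow, map_pow]
    have := hl' (k' + l') (by omega)
    rw [Bf_neg_left] at this
    exact neg_pos.1 this
  obtain ⟨x, hx, e⟩ := pre.intermediate_value p2 p1 (f := fun x => bf E' (F x))
    (by fun_prop) ⟨q2.le, q1.le⟩
  have := key x e
  simp only [mem_ofPred_eq, bf_neg] at hx
  linarith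

/-- `F` is a lift of `f` that induces `φ`. -/
structure Lifts (π : X → B) (f : B ≃ₜ B) (F : X ≃ₜ X) (φ : MulAut Γ) : Prop where
  lift : ∀ x, π (F x) = f (π x)
  act : ∀ γ x, F (Y.σ γ • x) = Y.σ (φ γ) • F x

/-- The homeomorphism of the plane given by an element of the group. -/
noncomputable def deck (γ : Γ) : X ≃ₜ X := Homeomorph.smul (Y.σ γ)

@[simp] theorem deck_apply (γ : Γ) (x : X) : Y.deck γ x = Y.σ γ • x := rfl

variable {Y} {π : X → B} {f f' : B ≃ₜ B} {F F' : X ≃ₜ X} {φ φ' : MulAut Γ}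

theorem Lifts.one : Y.Lifts π 1 1 1 := ⟨fun _ => rfl, fun _ _ => rfl⟩

theorem Lifts.mul (a : Y.Lifts π f F φ) (b : Y.Lifts π f' F' φ') :
    Y.Lifts π (f * f') (F * F') (φ * φ') :=
  ⟨fun x => (a.lift _).trans (congrArg f (b.lift x)),
    fun γ x => (congrArg F (b.act γ x)).trans (a.act _ _)⟩

theorem Lifts.inv (a : Y.Lifts π f F φ) : Y.Lifts π f⁻¹ F⁻¹ φ⁻¹ := by
  refine ⟨fun x => ?_, fun γ x => ?_⟩
  · change π (F.symm x) = f.symm (π x)
    rw [f.eq_symm_apply, ← a.lift, F.apply_symm_apply]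
  · change F.symm (Y.σ γ • x) = Y.σ (φ.symm γ) • F.symm x
    rw [F.symm_apply_eq, a.act, F.apply_symm_apply, φ.apply_symm_apply]

/-- The automorphism is determined by the lift. -/
theorem Lifts.aut_eq (a : Y.Lifts π f F φ) (b : Y.Lifts π f' F φ') : φ = φ' := by
  ext γ
  exact Y.cancel (F oX) ((a.act γ oX).symm.trans (b.act γ oX))

theorem Lifts.side (a : Y.Lifts π f F φ) {α β γ : Γ} (h : Y.Same α β γ) :
    ¬ Y.Apart (φ α) (φ β) (φ γ) := Y.side_of F φ a.act h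

end Fuchs

/-! ### Covering data -/

/-- The marked points and the centres of the discs. -/
def Marks.ctr (c : Marks B) : Set B := {y | y ∈ c.P ∨ ∃ i, y = c.d i 0}

theorem Marks.ctr_finite (c : Marks B) : c.ctr.Finite :=
  (c.P.finite_toSet.union (finite_range fun i => c.d i 0)).subset fun _ h =>
    h.imp id fun ⟨i, e⟩ => ⟨i, e.symm⟩

theorem Marks.adm_ctr {c : Marks B} {f : B ≃ₜ B} (h : f ∈ c.Adm) (y : B) :
    f y ∈ c.ctr ↔ y ∈ c.ctr := by
  refine or_congr (h.1 y) (exists_congr fun i => ?_)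
  nth_rewrite 1 [← h.2 i 0 (by simp)]
  exact f.injective.eq_iff

/-- The automorphisms induced by the lifts of the elements of `c.Homeo`. -/
def Fuchs.A (Y : Fuchs Γ) (c : Marks B) (π : X → B) : Subgroup (MulAut Γ) where
  carrier := {φ | ∃ f ∈ c.Homeo, ∃ F, Y.Lifts π f F φ}
  one_mem' := ⟨1, one_mem _, 1, Fuchs.Lifts.one⟩
  mul_mem' := fun ⟨_, a, _, b⟩ ⟨_, a', _, b'⟩ => ⟨_, mul_mem a a', _, b.mul b'⟩
  inv_mem' := fun ⟨_, a, _, b⟩ => ⟨_, inv_mem a, _, b.inv⟩

theorem Fuchs.mem_A {Y : Fuchs Γ} {c : Marks B} {π : X → B} {φ : MulAut Γ} :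
    φ ∈ Y.A c π ↔ ∃ f ∈ c.Homeo, ∃ F, Y.Lifts π f F φ := Iff.rfl

theorem Fuchs.Lifts.mem_A {Y : Fuchs Γ} {c : Marks B} {π : X → B} {f : c.Homeo} {F : X ≃ₜ X}
    {φ : MulAut Γ} (a : Y.Lifts π f.1 F φ) : φ ∈ Y.A c π := ⟨f.1, f.2, F, a⟩

theorem Fuchs.side_A (Y : Fuchs Γ) (c : Marks B) (π : X → B) :
    ∀ φ ∈ Y.A c π, ∀ α β γ, Y.Same α β γ → ¬ Y.Apart (φ α) (φ β) (φ γ) := by
  rintro φ ⟨f, -, F, a⟩ α β γ s
  exact a.side s

/-- `π` presents the complement of the centres as the quotient of the plane. -/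
structure Cov (Y : Fuchs Γ) (c : Marks B) (π : X → B) : Prop where
  strict : IsStrictMap π
  rng : ∀ y, y ∈ range π ↔ y ∉ c.ctr
  fib : ∀ x y, π x = π y ↔ ∃ γ, x = Y.σ γ • y

namespace Cov

variable {Y : Fuchs Γ} {c : Marks B} {π : X → B}

theorem of_open (h1 : Continuous π) (h2 : IsOpenMap π) (h3 : ∀ y, y ∈ range π ↔ y ∉ c.ctr)
    (h4 : ∀ x y, π x = π y ↔ ∃ γ, x = Y.σ γ • y) : Cov Y c π := ⟨h2.isStrictMap h1, h3, h4⟩

variable (h : Cov Y c π)
include h

theorem cont : Continuous π := h.strict.continuous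

theorem quot : @IsQuotientCoveringMap X (range π) _ _ (rangeFactorization π) Γ _
    (MulAction.compHom X Y.σ) := Y.quot h.strict h.fib

theorem cov : IsCoveringMap (rangeFactorization π) :=
  letI := MulAction.compHom X Y.σ
  h.quot.isCoveringMap

theorem map_smul (γ : Γ) (x : X) : π (Y.σ γ • x) = π x := (h.fib _ _).2 ⟨γ, rfl⟩

theorem not_ctr (x : X) : π x ∉ c.ctr := (h.rng _).1 ⟨x, rfl⟩

theorem isOpen_range [T1Space B] : IsOpen (range π) := by
  have : range π = c.ctrᶜ := Set.ext h.rng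
  rw [this]
  exact c.ctr_finite.isClosed.isOpen_compl

theorem isLocalHomeomorph [T1Space B] : IsLocalHomeomorph π :=
  h.isOpen_range.isOpenEmbedding_subtypeVal.isLocalHomeomorph.comp h.cov.isLocalHomeomorph

theorem isOpenMap [T1Space B] : IsOpenMap π := h.isLocalHomeomorph.isOpenMap

/-- Uniqueness of lifts. -/
theorem eq_of_eq {A : Type} [TopologicalSpace A] [PreconnectedSpace A] {u v : A → X}
    (hu : Continuous u) (hv : Continuous v) (e : ∀ a, π (u a) = π (v a)) (a : A)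
    (ha : u a = v a) : u = v :=
  h.cov.eq_of_comp_eq hu hv (funext fun a => Subtype.ext (e a)) a ha

/-- Uniqueness of lifts on a preconnected set. -/
theorem eqOn_of_eq {A : Type} [TopologicalSpace A] {S : Set A} (hS : IsPreconnected S)
    {u v : A → X} (hu : ContinuousOn u S) (hv : ContinuousOn v S)
    (e : ∀ a ∈ S, π (u a) = π (v a)) {a : A} (haS : a ∈ S) (ha : u a = v a) : EqOn u v S :=
  h.cov.eqOn_of_comp_eqOn hS hu hv (fun a ha => Subtype.ext (e a ha)) haS ha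

/-- Two lifts of a map from a connected space differ by an element of the group. -/
theorem exists_deck {A : Type} [TopologicalSpace A] [ConnectedSpace A] {u v : A → X}
    (hu : Continuous u) (hv : Continuous v) (e : ∀ a, π (u a) = π (v a)) :
    ∃ γ, ∀ a, u a = Y.σ γ • v a :=
  letI := MulAction.compHom X Y.σ
  Lift_deck h.quot hu hv fun a => Subtype.ext (e a)

theorem lifts_deck (γ : Γ) : Y.Lifts π 1 (Y.deck γ) (MulAut.conj γ) :=
  ⟨h.map_smul γ, fun δ x => by simp only [Fuchs.deck_apply, MulAut.conj_apply, map_mul, map_inv, mul_smul, inv_smul_smul]⟩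

theorem lifts_uniq {f : B ≃ₜ B} {F F' : X ≃ₜ X} {φ φ' : MulAut Γ} (a : Y.Lifts π f F φ)
    (b : Y.Lifts π f F' φ') : ∃ γ, F = Y.deck γ * F' ∧ φ = MulAut.conj γ * φ' := by
  obtain ⟨γ, hγ⟩ := h.exists_deck F.continuous F'.continuous
    fun x => (a.lift x).trans (b.lift x).symm
  have e : F = Y.deck γ * F' := Homeomorph.ext hγ
  refine ⟨γ, e, ?_⟩
  subst e
  exact a.aut_eq ((h.lifts_deck γ).mul b)

/-- A homeomorphism of the plane that covers `f` induces an automorphism. -/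
theorem exists_aut {f : B ≃ₜ B} {F : X ≃ₜ X} (e : ∀ x, π (F x) = f (π x)) :
    ∃ φ, Y.Lifts π f F φ := by
  let _ := MulAction.compHom X Y.σ
  have r : ∀ y, y ∈ range π ↔ f y ∈ range π := fun y => by
    refine ⟨?_, ?_⟩
    · rintro ⟨x, rfl⟩
      exact ⟨F x, e x⟩
    · rintro ⟨x, hx⟩
      exact ⟨F.symm x, f.injective (by rw [← e, F.apply_symm_apply, hx])⟩
  obtain ⟨φ, a⟩ := Lift_act h.quot (f.subtype r) F fun x => Subtype.ext (e x)
  exact ⟨φ, e, a.act⟩

/-- A homeomorphism that preserves the set of centres has a lift. -/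
theorem exists_lifts' {f : B ≃ₜ B} (hf : ∀ y, f y ∈ c.ctr ↔ y ∈ c.ctr) :
    ∃ F φ, Y.Lifts π f F φ := by
  let _ := MulAction.compHom X Y.σ
  have r : ∀ y, y ∈ range π ↔ f y ∈ range π := fun y => by rw [h.rng, h.rng, hf]
  obtain ⟨F, φ, a⟩ := exists_isLift h.quot (f.subtype r)
  exact ⟨F, φ, fun x => congrArg Subtype.val (a.lift x), a.act⟩

theorem exists_lifts {f : B ≃ₜ B} (hf : f ∈ c.Adm) : ∃ F φ, Y.Lifts π f F φ :=
  h.exists_lifts' (Marks.adm_ctr hf)

/-- The lift with a prescribed value. -/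
theorem exists_lifts_at {f : B ≃ₜ B} (hf : f ∈ c.Adm) {x y : X} (e : π y = f (π x)) :
    ∃ F φ, Y.Lifts π f F φ ∧ F x = y := by
  obtain ⟨F, φ, a⟩ := h.exists_lifts hf
  obtain ⟨γ, hγ⟩ := (h.fib y (F x)).1 (e.trans (a.lift x).symm)
  exact ⟨_, _, by simpa using (h.lifts_deck γ).mul a, hγ.symm⟩

/-- The lift of an isotopy through maps that preserve the centres, starting at the identity. -/
theorem lift_isotopy' (H : C(unitInterval × B, B))
    (a : ∀ t, ∃ k : B ≃ₜ B, (∀ y, k y ∈ c.ctr ↔ y ∈ c.ctr) ∧ ∀ x, H (t, x) = k x)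
    (b : ∀ x, H (0, x) = x) :
    ∃ G : unitInterval → X ≃ₜ X, Continuous (fun p : unitInterval × X => G p.1 p.2) ∧
      (∀ t x, π (G t x) = H (t, π x)) ∧ (∀ t γ x, G t (Y.σ γ • x) = Y.σ γ • G t x) ∧
      G 0 = 1 := by
  have hπ := h.cont
  have mem : ∀ p : unitInterval × X, H (p.1, π p.2) ∈ range π := fun p => by
    obtain ⟨k, k1, k2⟩ := a p.1
    rw [h.rng, k2, k1]
    exact h.not_ctr _
  let K : C(unitInterval × X, range π) := ⟨fun p => ⟨H (p.1, π p.2), mem p⟩, by fun_prop⟩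
  have K0 : ∀ x, K (0, x) = rangeFactorization π (ContinuousMap.id X x) :=
    fun x => Subtype.ext (b _)
  obtain ⟨M, m, m0⟩ : ∃ M : C(unitInterval × X, X), (∀ p, π (M p) = H (p.1, π p.2)) ∧
      ∀ x, M (0, x) = x :=
    ⟨h.cov.liftHomotopy K _ K0,
      fun p => congrArg Subtype.val (congrFun (h.cov.liftHomotopy_lifts K _ K0) p),
      h.cov.liftHomotopy_zero K _ K0⟩
  have eqv : ∀ t δ x, M (t, Y.σ δ • x) = Y.σ δ • M (t, x) := fun t δ x =>
    congrFun (h.eq_of_eq (u := fun t => M (t, Y.σ δ • x)) (v := fun t => Y.σ δ • M (t, x))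
      (by fun_prop) (by fun_prop) (fun t => by rw [m, h.map_smul, h.map_smul, m]) 0
      (by simp only [m0])) t
  have hom : ∀ t, ∃ G : X ≃ₜ X, ∀ x, G x = M (t, x) := fun t => by
    obtain ⟨k, k1, k2⟩ := a t
    obtain ⟨F, φ, l⟩ := h.exists_lifts' k1
    obtain ⟨γ, hγ⟩ := h.exists_deck (u := fun x => M (t, x)) (v := F) (by fun_prop) F.continuous
      fun x => by rw [m, k2, l.lift]
    exact ⟨Y.deck γ * F, fun x => (hγ x).symm⟩
  choose G hG using hom
  refine ⟨G, M.continuous.congr fun p => (hG _ _).symm, fun t x => by rw [hG, m],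
    fun t γ x => by rw [hG, hG, eqv], Homeomorph.ext fun x => by rw [hG, m0]; rfl⟩

/-- The lift of an isotopy through admissible maps that starts at the identity. -/
theorem lift_isotopy (H : C(unitInterval × B, B)) (a : ∀ t, ∃ k ∈ c.Adm, ∀ x, H (t, x) = k x)
    (b : ∀ x, H (0, x) = x) :
    ∃ G : unitInterval → X ≃ₜ X, Continuous (fun p : unitInterval × X => G p.1 p.2) ∧
      (∀ t x, π (G t x) = H (t, π x)) ∧ (∀ t γ x, G t (Y.σ γ • x) = Y.σ γ • G t x) ∧
      G 0 = 1 :=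
  h.lift_isotopy' H (fun t => (a t).imp fun _ k => ⟨Marks.adm_ctr k.1, k.2⟩) b

/-- An element of `c.Zero` has a lift that commutes with the group. -/
theorem lifts_of_zero {f : c.Homeo} (hf : f ∈ c.Zero) : ∃ F, Y.Lifts π f.1 F 1 := by
  obtain ⟨H, a, b, e⟩ := hf
  obtain ⟨G, -, g1, g2, -⟩ := h.lift_isotopy H a b
  exact ⟨G 1, fun x => by rw [g1, e], g2 1⟩

theorem inn_le : Inn Γ ≤ Y.A c π := by
  rintro _ ⟨γ, rfl⟩
  exact ⟨1, one_mem _, _, h.lifts_deck γ⟩

theorem mk_eq {f : c.Homeo} {F F' : X ≃ₜ X} {φ φ' : MulAut Γ} (a : Y.Lifts π f.1 F φ)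
    (b : Y.Lifts π f.1 F' φ') :
    (QuotientGroup.mk ⟨φ, a.mem_A⟩ : OutA (Y.A c π)) = QuotientGroup.mk ⟨φ', b.mem_A⟩ := by
  obtain ⟨γ, -, e⟩ := h.lifts_uniq a b
  rw [QuotientGroup.eq, Subgroup.mem_subgroupOf]
  refine ⟨φ⁻¹ γ⁻¹, ?_⟩
  have : φ' = (MulAut.conj γ)⁻¹ * φ := by rw [e, inv_mul_cancel_left]
  ext δ
  simp only [MulAut.inv_apply, map_inv, MulAut.conj_symm_apply, this, Subgroup.coe_mul, InvMemClass.coe_inv, MulAut.mul_apply, map_mul, MulEquiv.symm_apply_apply]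

/-- The homomorphism from the mapping class group onto the group of outer automorphisms. -/
theorem exists_j : ∃ j : c.MCG →* OutA (Y.A c π), Function.Surjective j ∧
    (∀ (f : c.Homeo) F φ (a : Y.Lifts π f.1 F φ),
      j (QuotientGroup.mk f) = QuotientGroup.mk ⟨φ, a.mem_A⟩) ∧
    ∀ f : c.Homeo, j (QuotientGroup.mk f) = 1 ↔ ∃ F, Y.Lifts π f.1 F 1 := by
  choose L Φ hL using fun f : c.Homeo => h.exists_lifts f.2.2
  let J : c.Homeo →* OutA (Y.A c π) :=
    MonoidHom.mk' (fun f => QuotientGroup.mk ⟨Φ f, (hL f).mem_A⟩) fun f f' =>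
      h.mk_eq (hL _) ((hL f).mul (hL f'))
  have hJ : ∀ (f : c.Homeo) F φ (a : Y.Lifts π f.1 F φ),
      J f = QuotientGroup.mk ⟨φ, a.mem_A⟩ := fun f F φ a => h.mk_eq (hL f) a
  have ker : ∀ f : c.Homeo, J f = 1 ↔ ∃ F, Y.Lifts π f.1 F 1 := fun f => by
    refine ⟨fun e => ?_, fun ⟨F, a⟩ => hJ f F 1 a⟩
    obtain ⟨γ, hγ⟩ := Subgroup.mem_subgroupOf.1 ((QuotientGroup.eq_one_iff _).1 e)
    have := (h.lifts_deck γ).inv.mul (hL f)
    rw [hγ] at this
    exact ⟨_, by simpa using this⟩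
  refine ⟨QuotientGroup.lift _ J fun f hf => (ker f).2 (h.lifts_of_zero hf), ?_, hJ, ker⟩
  intro q
  obtain ⟨⟨φ, f, hf, F, a⟩, rfl⟩ := QuotientGroup.mk_surjective q
  exact ⟨QuotientGroup.mk ⟨f, hf⟩, hJ ⟨f, hf⟩ F φ a⟩

end Cov

end Pool.Agent.MP_646035_al.MC
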