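import Pool.Agent.MP_646035_al.Cx.Ker1

/-!
A germ of a homeomorphism of the plane is isotopic to the identity or to the conjugation.
-/

namespace Pool.Agent.MP_646035_al.MC

open Pool.Agent.MP_4a6971_al.H83

theorem local_id {f : ℂ → ℂ} {r : ℝ} (hr : 0 < r) (hc : ContinuousOn f (Metric.ball 0 r))
    (hi : Set.InjOn f (Metric.ball 0 r))
    (ho : ∀ U ⊆ Metric.ball (0 : ℂ) r, IsOpen U → IsOpen (f '' U)) (h0 : f 0 = 0) :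
    ∃ H : ℝ → ℂ ≃ₜ ℂ, Continuous (fun p : ℝ × ℂ => H p.1 p.2) ∧
      (∀ t z, 1 ≤ ‖z‖ → H t z = z) ∧ (∀ t, H t 0 = 0) ∧ H 0 = 1 ∧ ∃ δ, 0 < δ ∧
        ((∀ z, ‖z‖ ≤ δ → H 1 (f z) = z) ∨ ∀ z, ‖z‖ ≤ δ → H 1 (f z) = (starRingEnd ℂ) z) := by
  obtain ⟨h, a, b, δ, d, -, e⟩ := Germ.norm ⟨hr, hc, hi, ho⟩ h0 one_pos
  obtain ⟨H, h1, h2, h3, h4, rfl⟩ := ker_alex a b
  exact ⟨H, h1, fun t z hz => h2 t z (by simpa [ker_int] using hz), h3, h4, δ, d, e⟩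

end Pool.Agent.MP_646035_al.MC
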