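import Pool.Agent.MP_646035_al.Cx.DiscPlane
import Pool.Agent.MP_646035_al.MC.Stmt

/-!
Moving points and discs in a connected surface. The mapping class group only depends on the number
of marked points and of discs.
-/

namespace Pool.Agent.MP_646035_al.MC

open Set Topology Metric Pool.Agent.MP_4a6971_al.H83 Pool.Agent.MP_4a6971_al.Mcg

variable {X : Type} [TopologicalSpace X]

/-- Every point is the centre of a chart. -/
def Loc (X : Type) [TopologicalSpace X] : Prop :=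
  ∀ x : X, ∃ d : ℂ → X, IsOpenEmbedding d ∧ d 0 = x

/-- The homeomorphisms isotopic to the identity with compact support in `U`. -/
def Mv (U : Set X) : Subgroup (X ≃ₜ X) where
  carrier := {f | ∃ (H : ℝ → X ≃ₜ X) (K : Set X), IsCompact K ∧ K ⊆ U ∧
    Continuous (fun p : ℝ × X => H p.1 p.2) ∧ (∀ t x, x ∉ K → H t x = x) ∧ H 0 = 1 ∧ H 1 = f}
  one_mem' := ⟨fun _ => 1, ∅, isCompact_empty, empty_subset _, continuous_snd, fun _ _ _ => rfl,
    rfl, rfl⟩
  mul_mem' := by
    rintro f h ⟨H, K, a, b, c, d, e, rfl⟩ ⟨H', K', a', b', c', d', e', rfl⟩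
    refine ⟨fun t => H t * H' t, K ∪ K', a.union a', union_subset b b',
      c.comp (continuous_fst.prodMk c'), fun t x hx => ?_, by simp only [e, e', mul_one], rfl⟩
    change H t (H' t x) = x
    rw [d' t x fun m => hx (Or.inr m), d t x fun m => hx (Or.inl m)]
  inv_mem' := by
    rintro f ⟨H, K, a, b, c, d, e, rfl⟩
    refine ⟨fun t => H (1 - t) * (H 1)⁻¹, K, a, b,
      c.comp ((continuous_const.sub continuous_fst).prodMk
        ((H 1).symm.continuous.comp continuous_snd)), fun t x hx => ?_, by simp, by simp [e]⟩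
    change H (1 - t) ((H 1).symm x) = x
    rw [(H 1).symm_apply_eq.2 (d 1 x hx).symm, d _ x hx]

theorem Mv.mono {U V : Set X} (h : U ⊆ V) : Mv U ≤ Mv V := by
  rintro f ⟨H, K, a, b, c⟩
  exact ⟨H, K, a, b.trans h, c⟩

theorem Mv.fix {U : Set X} {f : X ≃ₜ X} (h : f ∈ Mv U) {x : X} (hx : x ∉ U) : f x = x := by
  obtain ⟨H, K, -, b, -, d, -, rfl⟩ := h
  exact d 1 x fun m => hx (b m)

theorem Mv.mem {U : Set X} {f : X ≃ₜ X} (h : f ∈ Mv U) {x : X} : f x ∈ U ↔ x ∈ U := by
  refine ⟨fun b => by_contra fun c => c (Mv.fix h c ▸ b), fun b => by_contra fun c => c ?_⟩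
  rwa [f.injective (Mv.fix h c)]

open Classical in
/-- Extension by the identity along a chart. -/
noncomputable def extF (d : ℂ → X) (f : ℂ → ℂ) (x : X) : X :=
  if x ∈ range d then d (f (Function.invFun d x)) else x

omit [TopologicalSpace X] in
theorem extF_d {d : ℂ → X} (hd : Function.Injective d) (f : ℂ → ℂ) (z : ℂ) :
    extF d f (d z) = d (f z) := by
  rw [extF, if_pos ⟨z, rfl⟩, Function.leftInverse_invFun hd z]

omit [TopologicalSpace X] in
theorem extF_out {d : ℂ → X} (hd : Function.Injective d) {f : ℂ → ℂ} {K : Set ℂ}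
    (h : ∀ z, z ∉ K → f z = z) {x : X} (hx : x ∉ d '' K) : extF d f x = x := by
  by_cases m : x ∈ range d
  · obtain ⟨z, rfl⟩ := m
    rw [extF_d hd, h z fun c => hx ⟨z, c, rfl⟩]
  · exact if_neg m

omit [TopologicalSpace X] in
theorem extF_inv {d : ℂ → X} (hd : Function.Injective d) {f g : ℂ → ℂ} (h : ∀ z, g (f z) = z)
    (x : X) : extF d g (extF d f x) = x := by
  by_cases m : x ∈ range d
  · obtain ⟨z, rfl⟩ := m
    rw [extF_d hd, extF_d hd, h]
  · have e : ∀ u, extF d u x = x := fun u => if_neg m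
    rw [e, e]

variable [T2Space X]

theorem extF_cont {T : Type} [TopologicalSpace T] {d : ℂ → X} (hd : IsOpenEmbedding d)
    {F : T → ℂ → ℂ} (hF : Continuous fun p : T × ℂ => F p.1 p.2) {K : Set ℂ} (hK : IsCompact K)
    (h : ∀ t z, z ∉ K → F t z = z) : Continuous fun p : T × X => extF d (F p.1) p.2 := by
  refine continuous_iff_continuousAt.2 ?_
  rintro ⟨t, x⟩
  by_cases m : x ∈ range d
  · obtain ⟨z, rfl⟩ := m
    have he : IsOpenEmbedding (Prod.map (id : T → T) d) := IsOpenEmbedding.id.prodMap hd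
    refine (he.continuousAt_iff (x := (t, z))).1 ?_
    have : ((fun p : T × X => extF d (F p.1) p.2) ∘ Prod.map (id : T → T) d) =
        fun p : T × ℂ => d (F p.1 p.2) := funext fun p => extF_d hd.injective _ _
    rw [this]
    exact (hd.continuous.comp hF).continuousAt
  · have o : IsOpen {p : T × X | p.2 ∉ d '' K} :=
      (hK.image hd.continuous).isClosed.isOpen_compl.preimage continuous_snd
    refine continuous_snd.continuousAt.congr (Filter.eventually_of_mem
      (o.mem_nhds fun c => m (image_subset_range _ _ c)) fun p hp => ?_)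
    exact (extF_out hd.injective (h p.1) hp).symm

/-- A compactly supported homeomorphism of the plane, extended along a chart. -/
noncomputable def extH {d : ℂ → X} (hd : IsOpenEmbedding d) {K : Set ℂ} (hK : IsCompact K)
    (φ : ℂ ≃ₜ ℂ) (h : ∀ z, z ∉ K → φ z = z) : X ≃ₜ X where
  toFun := extF d φ
  invFun := extF d φ.symm
  left_inv := extF_inv hd.injective φ.symm_apply_apply
  right_inv := extF_inv hd.injective φ.apply_symm_apply
  continuous_toFun := (extF_cont (T := Unit) hd (F := fun _ => φ)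
    (φ.continuous.comp continuous_snd) hK fun _ => h).comp (Continuous.prodMk_right ())
  continuous_invFun := (extF_cont (T := Unit) hd (F := fun _ => φ.symm)
    (φ.symm.continuous.comp continuous_snd) hK
    fun _ z hz => φ.symm_apply_eq.2 (h z hz).symm).comp (Continuous.prodMk_right ())

/-- A compactly supported isotopy of the plane, extended along a chart. -/
theorem Mv.ext_family {U : Set X} {d : ℂ → X} (hd : IsOpenEmbedding d) {K : Set ℂ}
    (hK : IsCompact K) (hU : d '' K ⊆ U) {H : ℝ → ℂ ≃ₜ ℂ}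
    (hH : Continuous fun p : ℝ × ℂ => H p.1 p.2) (h : ∀ t z, z ∉ K → H t z = z) (h0 : H 0 = 1) :
    ∃ f ∈ Mv U, (∀ z, f (d z) = d (H 1 z)) ∧ ∀ x, x ∉ d '' K → f x = x := by
  refine ⟨extH hd hK (H 1) (h 1), ⟨fun t => extH hd hK (H t) (h t), d '' K,
    hK.image hd.continuous, hU, extF_cont hd (F := fun t => H t) hH hK h,
    fun t x hx => extF_out hd.injective (h t) hx, Homeomorph.ext fun x => ?_, rfl⟩,
    extF_d hd.injective _, fun x hx => extF_out hd.injective (h 1) hx⟩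
  change extF d (H 0) x = x
  by_cases m : x ∈ range d
  · obtain ⟨z, rfl⟩ := m
    rw [extF_d hd.injective, h0]
    rfl
  · exact if_neg m

/-- A homeomorphism supported in a compact convex set of a chart. -/
theorem Mv.ext {U : Set X} {d : ℂ → X} (hd : IsOpenEmbedding d) {K : Set ℂ} (hK : IsCompact K)
    (hc : Convex ℝ K) (hU : d '' K ⊆ U) {φ : ℂ ≃ₜ ℂ} (hφ : Supp φ K) :
    ∃ f ∈ Mv U, (∀ z, f (d z) = d (φ z)) ∧ ∀ x, x ∉ d '' K → f x = x := by
  obtain ⟨H, a, b, c, rfl⟩ := alexander hK hc hφ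
  exact Mv.ext_family hd hK hU a (fun t z hz => b t z fun m => hz (interior_subset m)) c

omit [T2Space X] in
theorem collar {U : Set X} (hU : IsOpen U) {d : ℂ → X} (hd : Continuous d) {a : ℝ} (ha : 0 ≤ a)
    (h : d '' closedBall 0 a ⊆ U) : ∃ R, a < R ∧ d '' closedBall 0 R ⊆ U := by
  obtain ⟨δ, δ0, hδ⟩ := (isCompact_closedBall (0 : ℂ) a).exists_cthickening_subset_open
    (hU.preimage hd) (image_subset_iff.1 h)
  rw [cthickening_closedBall δ0.le ha] at hδ
  exact ⟨δ + a, by linarith, image_subset_iff.2 hδ⟩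

/-- Slide lemma. -/
theorem Mv.slide (hX : Loc X) {U : Set X} (hU : IsOpen U) (hc : IsPreconnected U) {x y : X}
    (hx : x ∈ U) (hy : y ∈ U) : ∃ f ∈ Mv U, f x = y := by
  refine hc.induction₂' (fun x y => ∃ f ∈ Mv U, f x = y) (fun x hx => ?_) ?_ hx hy
  · obtain ⟨d, hd, rfl⟩ := hX x
    obtain ⟨R, R0, hR⟩ := collar hU hd.continuous le_rfl (by simpa using hx)
    refine Filter.Eventually.filter_mono nhdsWithin_le_nhds (Filter.eventually_of_mem
      (hd.isOpenMap.image_mem_nhds (ball_mem_nhds 0 R0)) ?_)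
    rintro _ ⟨q, hq, rfl⟩
    have hB : interior (closedBall (0 : ℂ) R) = ball 0 R := interior_closedBall' 0 R
    obtain ⟨φ, a, b, -⟩ := Pool.Agent.MP_4a6971_al.H83.slide (isCompact_closedBall (0 : ℂ) R)
      (convex_closedBall 0 R) (p := 0) (q := q) (hB ▸ mem_ball_self R0) (hB ▸ hq)
    obtain ⟨f, f1, f2, -⟩ := Mv.ext hd (isCompact_closedBall 0 R) (convex_closedBall 0 R) hR a
    have e : f (d 0) = d q := by rw [f2, b]
    exact ⟨⟨f, f1, e⟩, f⁻¹, inv_mem f1, f.symm_apply_eq.2 e.symm⟩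
  · rintro x y z - - - ⟨f, a, rfl⟩ ⟨g, b, rfl⟩
    exact ⟨g * f, mul_mem b a, rfl⟩

/-- Two discs in a round disc of a chart. -/
theorem Mv.disc_chart {U : Set X} {d : ℂ → X} (hd : IsOpenEmbedding d) {R : ℝ}
    (hU : d '' closedBall 0 R ⊆ U) {a b : ℂ → X} (ha : IsOpenEmbedding a) (hb : IsOpenEmbedding b)
    (ma : a '' closedBall 0 1 ⊆ d '' ball 0 R) (mb : b '' closedBall 0 1 ⊆ d '' ball 0 R) :
    ∃ f ∈ Mv U, f '' (a '' closedBall 0 1) = b '' closedBall 0 1 := by
  have hB : interior (closedBall (0 : ℂ) R) = ball 0 R := interior_closedBall' 0 R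
  have key : ∀ u : ℂ → X, IsOpenEmbedding u → u '' closedBall 0 1 ⊆ d '' ball 0 R →
      ∃ e : ℂ → ℂ, ContinuousOn e (closedBall 0 1) ∧ InjOn e (closedBall 0 1) ∧
        IsOpen (e '' ball 0 1) ∧ e '' closedBall 0 1 ⊆ interior (closedBall 0 R) ∧
        d '' (e '' closedBall 0 1) = u '' closedBall 0 1 := by
    intro u hu mu
    have h1 : ∀ z : ℂ, ∃ w, z ∈ closedBall (0 : ℂ) 1 → w ∈ ball (0 : ℂ) R ∧ d w = u z := fun z => by
      by_cases hz : z ∈ closedBall (0 : ℂ) 1
      · obtain ⟨w, h⟩ := mu ⟨z, hz, rfl⟩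
        exact ⟨w, fun _ => h⟩
      · exact ⟨0, fun c => absurd c hz⟩
    choose e he using h1
    refine ⟨e, hd.isInducing.continuousOn_iff.2
      (hu.continuous.continuousOn.congr fun z hz => (he z hz).2), fun z hz w hw h => ?_, ?_, ?_, ?_⟩
    · exact hu.injective ((he z hz).2.symm.trans ((congrArg d h).trans (he w hw).2))
    · have : e '' ball 0 1 = d ⁻¹' (u '' ball 0 1) := by
        refine Subset.antisymm ?_ ?_
        · rintro _ ⟨z, hz, rfl⟩
          exact ⟨z, hz, (he z (ball_subset_closedBall hz)).2.symm⟩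
        · rintro w ⟨z, hz, h⟩
          exact ⟨z, hz, hd.injective ((he z (ball_subset_closedBall hz)).2.trans h)⟩
      rw [this]
      exact (hu.isOpenMap _ isOpen_ball).preimage hd.continuous
    · rintro _ ⟨z, hz, rfl⟩
      exact hB ▸ (he z hz).1
    · rw [image_image]
      exact image_congr fun z hz => (he z hz).2
  obtain ⟨e, e1, e2, e3, e4, e5⟩ := key a ha ma
  obtain ⟨e', e1', e2', e3', e4', e5'⟩ := key b hb mb
  obtain ⟨φ, φ1, φ2⟩ := disc_convex (isCompact_closedBall 0 R) (convex_closedBall 0 R) e1 e2 e3 e4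
    e1' e2' e3' e4'
  obtain ⟨f, f1, f2, -⟩ := Mv.ext hd (isCompact_closedBall 0 R) (convex_closedBall 0 R) hU φ1
  refine ⟨f, f1, ?_⟩
  rw [← e5, ← e5', ← φ2, image_image f, image_image d φ]
  exact image_congr fun z _ => f2 z

/-- Two collared discs in a connected open set. -/
theorem Mv.disc (hX : Loc X) {U : Set X} (hU : IsOpen U) (hc : IsPreconnected U) {a b : ℂ → X}
    (ha : IsOpenEmbedding a) (hb : IsOpenEmbedding b) (ma : a '' closedBall 0 1 ⊆ U)
    (mb : b '' closedBall 0 1 ⊆ U) :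
    ∃ f ∈ Mv U, f '' (a '' closedBall 0 1) = b '' closedBall 0 1 := by
  obtain ⟨f₀, m₀, e₀⟩ := Mv.slide hX hU hc (ma ⟨0, by simp, rfl⟩) (mb ⟨0, by simp, rfl⟩)
  have ha' : IsOpenEmbedding fun z => f₀ (a z) := f₀.isOpenEmbedding.comp ha
  obtain ⟨R, R1, hR⟩ := collar hU ha'.continuous zero_le_one (by
    rintro _ ⟨z, hz, rfl⟩
    exact (Mv.mem m₀).2 (ma ⟨z, hz, rfl⟩))
  obtain ⟨R', R1', hR'⟩ := collar hU hb.continuous zero_le_one mb
  obtain ⟨r, r0, hr⟩ := collar (U := b '' ball 0 1 ∩ (fun z => f₀ (a z)) '' ball 0 1)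
    ((hb.isOpenMap _ isOpen_ball).inter (ha'.isOpenMap _ isOpen_ball)) ha'.continuous le_rfl (by
      rw [closedBall_zero, image_singleton, singleton_subset_iff]
      exact ⟨⟨0, by simp, e₀.symm⟩, 0, by simp, rfl⟩)
  have hs : IsOpenEmbedding fun z => f₀ (a ((r : ℂ) * z)) :=
    ha'.comp (Homeomorph.mulLeft₀ (r : ℂ) (by exact_mod_cast r0.ne')).isOpenEmbedding
  have ms : (fun z => f₀ (a ((r : ℂ) * z))) '' closedBall 0 1 ⊆
      b '' ball 0 1 ∩ (fun z => f₀ (a z)) '' ball 0 1 := by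
    rintro _ ⟨z, hz, rfl⟩
    refine hr ⟨r * z, ?_, rfl⟩
    rw [mem_closedBall_zero_iff] at hz ⊢
    rw [norm_mul, Complex.norm_real, Real.norm_of_nonneg r0.le]
    exact mul_le_of_le_one_right r0.le hz
  obtain ⟨f₁, m₁, e₁⟩ := Mv.disc_chart ha' hR ha' hs (image_mono (closedBall_subset_ball R1))
    fun x hx => image_mono (ball_subset_ball R1.le) (ms hx).2
  obtain ⟨f₂, m₂, e₂⟩ := Mv.disc_chart hb hR' hs hb
    (fun x hx => image_mono (ball_subset_ball R1'.le) (ms hx).1)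
    (image_mono (closedBall_subset_ball R1'))
  refine ⟨f₂ * f₁ * f₀, mul_mem (mul_mem m₂ m₁) m₀, ?_⟩
  rw [← e₂, ← e₁]
  simp only [image_image]
  rfl

theorem annulus_preconnected {a : ℝ} (ha : 0 ≤ a) (R : ℝ) :
    IsPreconnected (ball (0 : ℂ) R \ closedBall 0 a) := by
  have : ball (0 : ℂ) R \ closedBall 0 a =
      (fun p : ℝ × ℝ => (p.1 : ℂ) * Complex.exp (p.2 * Complex.I)) '' (Ioo a R ×ˢ univ) := by
    refine Subset.antisymm (fun z hz => ⟨(‖z‖, Complex.arg z), ⟨⟨?_, ?_⟩, trivial⟩,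
      Complex.norm_mul_exp_arg_mul_I z⟩) ?_
    · simpa using hz.2
    · simpa using hz.1
    · rintro _ ⟨p, ⟨⟨h1, h2⟩, -⟩, rfl⟩
      have : ‖(p.1 : ℂ) * Complex.exp (p.2 * Complex.I)‖ = p.1 := by
        rw [norm_mul, Complex.norm_exp_ofReal_mul_I, mul_one, Complex.norm_real,
          Real.norm_of_nonneg (ha.trans h1.le)]
      exact ⟨by rwa [mem_ball_zero_iff, this], by rwa [mem_closedBall_zero_iff, this, not_le]⟩
  rw [this]
  exact (isPreconnected_Ioo.prod isPreconnected_univ).image _ (by fun_prop)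

/-- A point or a collared disc does not disconnect a connected open set. -/
theorem sdiff_disc {U : Set X} (hU : IsOpen U) (hc : IsPreconnected U) {d : ℂ → X}
    (hd : IsOpenEmbedding d) {a : ℝ} (ha : 0 ≤ a) (h : d '' closedBall 0 a ⊆ U) :
    IsPreconnected (U \ d '' closedBall 0 a) := by
  obtain ⟨R, hR, hRU⟩ := collar hU hd.continuous ha h
  have cl : IsClosed (d '' closedBall 0 a) :=
    ((isCompact_closedBall 0 a).image hd.continuous).isClosed
  have hA : IsPreconnected (d '' (ball 0 R \ closedBall 0 a)) :=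
    (annulus_preconnected ha R).image _ hd.continuous.continuousOn
  have sA : d '' (ball 0 R \ closedBall 0 a) ⊆ U \ d '' closedBall 0 a := by
    rintro _ ⟨z, hz, rfl⟩
    exact ⟨hRU ⟨z, ball_subset_closedBall hz.1, rfl⟩,
      fun m => hz.2 (hd.injective.mem_set_image.1 m)⟩
  have inA : ∀ x ∈ d '' ball 0 R, x ∉ d '' closedBall 0 a →
      x ∈ d '' (ball 0 R \ closedBall 0 a) := by
    rintro _ ⟨z, hz, rfl⟩ m
    exact ⟨z, ⟨hz, fun c => m ⟨z, c, rfl⟩⟩, rfl⟩
  have key : ∀ u v : Set X, IsOpen u → IsOpen v → U \ d '' closedBall 0 a ⊆ u ∪ v →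
      (U \ d '' closedBall 0 a) ∩ (u ∩ v) = ∅ → d '' (ball 0 R \ closedBall 0 a) ⊆ u →
      U \ d '' closedBall 0 a ⊆ u ∨ U \ d '' closedBall 0 a ⊆ v := by
    intro u v hu hv cov dis hAu
    have := isPreconnected_iff_subset_of_disjoint.1 hc (u ∪ d '' ball 0 R)
      (v \ d '' closedBall 0 a) (hu.union (hd.isOpenMap _ isOpen_ball)) (hv.sdiff cl)
      (fun x hx => by
        by_cases m : x ∈ d '' closedBall 0 a
        · exact Or.inl (Or.inr (image_mono (closedBall_subset_ball hR) m))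
        · exact (cov ⟨hx, m⟩).imp Or.inl fun c => ⟨c, m⟩)
      (eq_empty_of_forall_notMem fun x hx => by
        have : x ∈ (U \ d '' closedBall 0 a) ∩ (u ∩ v) :=
          ⟨⟨hx.1, hx.2.2.2⟩, hx.2.1.elim id fun c => hAu (inA x c hx.2.2.2), hx.2.2.1⟩
        rw [dis] at this
        exact this)
    exact this.imp (fun s x hx => (s hx.1).elim id fun c => hAu (inA x c hx.2))
      fun s x hx => (s hx.1).1
  refine isPreconnected_iff_subset_of_disjoint.2 fun u v hu hv cov dis => ?_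
  rcases isPreconnected_iff_subset_of_disjoint.1 hA u v hu hv (sA.trans cov)
    (subset_eq_empty (inter_subset_inter_left _ sA) dis) with s | s
  · exact key u v hu hv cov dis s
  · exact (key v u hv hu (union_comm u v ▸ cov) (inter_comm u v ▸ dis) s).symm

/-- Finitely many disjoint points and collared discs do not disconnect. -/
theorem sdiff_discs {ι : Type} {U : Set X} (hU : IsOpen U) (hc : IsPreconnected U)
    {d : ι → ℂ → X} (hd : ∀ i, IsOpenEmbedding (d i)) {a : ι → ℝ} (ha : ∀ i, 0 ≤ a i)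
    (h : ∀ i, d i '' closedBall 0 (a i) ⊆ U)
    (dj : ∀ i j, i ≠ j → Disjoint (d i '' closedBall 0 (a i)) (d j '' closedBall 0 (a j)))
    (s : Finset ι) : IsOpen (U \ ⋃ i ∈ s, d i '' closedBall 0 (a i)) ∧
      IsPreconnected (U \ ⋃ i ∈ s, d i '' closedBall 0 (a i)) := by
  classical
  induction s using Finset.induction_on with
  | empty => simpa only [Finset.notMem_empty, iUnion_of_empty, iUnion_empty, sdiff_empty] using ⟨hU, hc⟩
  | insert j s hj ih =>
    rw [Finset.set_biUnion_insert, union_comm, ← Set.sdiff_sdiff]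
    refine ⟨ih.1.sdiff ((isCompact_closedBall 0 _).image (hd j).continuous).isClosed,
      sdiff_disc ih.1 ih.2 (hd j) (ha j) fun x hx => ⟨h j hx, fun m => ?_⟩⟩
    obtain ⟨i, hi, m⟩ := mem_iUnion₂.1 m
    exact disjoint_left.1 (dj j i fun e => hj (e ▸ hi)) hx m

/-- Two finite families of disjoint points (`a i = 0`) and collared discs (`a i = 1`) in a connected
open set are carried onto each other. -/
theorem Mv.marks (hX : Loc X) {ι : Type} [Finite ι] {U : Set X} (hU : IsOpen U)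
    (hc : IsPreconnected U) {a : ι → ℝ} (ha : ∀ i, a i = 0 ∨ a i = 1) {d d' : ι → ℂ → X}
    (hd : ∀ i, IsOpenEmbedding (d i)) (hd' : ∀ i, IsOpenEmbedding (d' i))
    (h : ∀ i, d i '' closedBall 0 (a i) ⊆ U) (h' : ∀ i, d' i '' closedBall 0 (a i) ⊆ U)
    (dj : ∀ i j, i ≠ j → Disjoint (d i '' closedBall 0 (a i)) (d j '' closedBall 0 (a j)))
    (dj' : ∀ i j, i ≠ j → Disjoint (d' i '' closedBall 0 (a i)) (d' j '' closedBall 0 (a j))) :
    ∃ f ∈ Mv U, ∀ i, f '' (d i '' closedBall 0 (a i)) = d' i '' closedBall 0 (a i) := by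
  classical
  have a0 : ∀ i, 0 ≤ a i := fun i => (ha i).elim (fun e => e.ge) fun e => e ▸ zero_le_one
  suffices H : ∀ s : Finset ι, ∃ f ∈ Mv U, ∀ i ∈ s,
      f '' (d i '' closedBall 0 (a i)) = d' i '' closedBall 0 (a i) by
    have := Fintype.ofFinite ι
    obtain ⟨f, m, e⟩ := H Finset.univ
    exact ⟨f, m, fun i => e i (Finset.mem_univ i)⟩
  intro s
  induction s using Finset.induction_on with
  | empty => exact ⟨1, one_mem _, by simp⟩
  | insert j s hj ih =>
    obtain ⟨f, m, e⟩ := ih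
    obtain ⟨o, c⟩ := sdiff_discs hU hc hd' a0 h' dj' s
    have k : (fun z => f (d j z)) '' closedBall 0 (a j) ⊆
        U \ ⋃ i ∈ s, d' i '' closedBall 0 (a i) := by
      rintro _ ⟨z, hz, rfl⟩
      refine ⟨(Mv.mem m).2 (h j ⟨z, hz, rfl⟩), fun u => ?_⟩
      obtain ⟨i, hi, u⟩ := mem_iUnion₂.1 u
      rw [← e i hi, f.injective.mem_set_image] at u
      exact disjoint_left.1 (dj j i fun e => hj (e ▸ hi)) ⟨z, hz, rfl⟩ u
    have k' : d' j '' closedBall 0 (a j) ⊆ U \ ⋃ i ∈ s, d' i '' closedBall 0 (a i) := fun x hx =>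
      ⟨h' j hx, fun u => by
        obtain ⟨i, hi, u⟩ := mem_iUnion₂.1 u
        exact disjoint_left.1 (dj' j i fun e => hj (e ▸ hi)) hx u⟩
    obtain ⟨g, mg, eg⟩ : ∃ g ∈ Mv (U \ ⋃ i ∈ s, d' i '' closedBall 0 (a i)),
        g '' ((fun z => f (d j z)) '' closedBall 0 (a j)) = d' j '' closedBall 0 (a j) := by
      rcases ha j with u | u <;> rw [u] at k k' ⊢
      · obtain ⟨g, mg, eg⟩ := Mv.slide hX o c (k ⟨0, by simp, rfl⟩) (k' ⟨0, by simp, rfl⟩)
        exact ⟨g, mg, by simpa using eg⟩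
      · exact Mv.disc hX o c (f.isOpenEmbedding.comp (hd j)) (hd' j) k k'
    refine ⟨g * f, mul_mem (Mv.mono Set.sdiff_subset mg) m, fun i hi => ?_⟩
    rcases Finset.mem_insert.1 hi with rfl | hi
    · rw [← eg]
      simp only [image_image]
      rfl
    · have : (g * f) '' (d i '' closedBall 0 (a i)) = g '' (f '' (d i '' closedBall 0 (a i))) :=
        (image_image g f _).symm
      rw [this, e i hi]
      exact (image_congr fun x hx => Mv.fix mg fun u => u.2 (mem_iUnion₂.2 ⟨i, hi, hx⟩)).trans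
        (image_id' _)

omit [T2Space X]

open CategoryTheory AlgebraicTopology in
/-- Homotopy invariance. -/
theorem actsTrivially_of_homotopy (n : ℕ) {f : X ≃ₜ X} (H : C(unitInterval × X, X))
    (h0 : ∀ x, H (0, x) = x) (h1 : ∀ x, H (1, x) = f x) : ActsTrivially n f := by
  have := TopCat.Homotopy.congr_homologyMap_singularChainComplexFunctor
    (C := ModuleCat.{0} ℤ) (f := 𝟙 (TopCat.of X)) (g := TopCat.ofHom ⟨f, f.continuous⟩)
    ⟨H, h0, h1⟩ (ModuleCat.of ℤ ℤ) n
  exact this.symm.trans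
    (((singularHomologyFunctor (ModuleCat.{0} ℤ) n).obj (ModuleCat.of ℤ ℤ)).map_id _)

theorem Mv.homeoPlus {U : Set X} : Mv U ≤ HomeoPlus X := by
  rintro f ⟨H, K, -, -, c, -, e, rfl⟩
  exact actsTrivially_of_homotopy 2 ⟨fun p => H p.1 p.2,
    c.comp ((continuous_subtype_val.comp continuous_fst).prodMk continuous_snd)⟩
    (fun x => by simp only [ContinuousMap.coe_mk, Icc.coe_zero, e, Homeomorph.one_apply]) fun x => rfl

open CategoryTheory AlgebraicTopology in
theorem ActsTrivially_conj {n : ℕ} {f : X ≃ₜ X} (hf : ActsTrivially n f) (h : X ≃ₜ X) :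
    ActsTrivially n (h * f * h⁻¹) := by
  obtain ⟨F, hF⟩ : ∃ F, F = (singularHomologyFunctor (ModuleCat.{0} ℤ) n).obj (ModuleCat.of ℤ ℤ) :=
    ⟨_, rfl⟩
  have m : ∀ u v : X ≃ₜ X,
      F.map (TopCat.ofHom ⟨u * v, (u * v).continuous⟩ : TopCat.of X ⟶ TopCat.of X) =
        F.map (TopCat.ofHom ⟨v, v.continuous⟩) ≫ F.map (TopCat.ofHom ⟨u, u.continuous⟩) :=
    fun u v => F.map_comp (TopCat.ofHom ⟨v, v.continuous⟩ : TopCat.of X ⟶ TopCat.of X)
      (TopCat.ofHom ⟨u, u.continuous⟩)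
  unfold ActsTrivially at hf ⊢
  rw [← hF] at hf ⊢
  rw [m, m, hf, Category.id_comp, ← m, mul_inv_cancel]
  exact F.map_id _

instance : (HomeoPlus X).Normal := ⟨fun _ hf h => ActsTrivially_conj hf h⟩

/-- The complement of the marked points and the closed discs. -/
def Marks.free (c : Marks X) : Set X := {x | x ∉ c.P ∧ ∀ i z, ‖z‖ ≤ 1 → c.d i z ≠ x}

theorem Marks.adm_of_fix (c : Marks X) {f : X ≃ₜ X} (h : ∀ x, x ∉ c.free → f x = x) :
    f ∈ c.Adm := by
  have hP : ∀ x ∈ c.P, f x = x := fun x hx => h x fun m => m.1 hx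
  refine ⟨fun x => ⟨fun m => ?_, fun m => (hP x m).symm ▸ m⟩,
    fun i z hz => h _ fun m => m.2 i z hz rfl⟩
  rwa [f.injective (hP _ m)] at m

theorem Marks.mv_le (c : Marks X) : Mv c.free ≤ c.Homeo := fun _ h =>
  ⟨Mv.homeoPlus h, c.adm_of_fix fun _ => Mv.fix h⟩

theorem Marks.mv_zero (c : Marks X) {f : c.Homeo} (h : f.1 ∈ Mv c.free) : f ∈ c.Zero := by
  obtain ⟨H, K, -, b, e, k, h0, h1⟩ := h
  exact ⟨⟨fun p => H p.1 p.2,
    e.comp ((continuous_subtype_val.comp continuous_fst).prodMk continuous_snd)⟩,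
    fun t => ⟨H t, c.adm_of_fix fun x hx => k t x fun m => hx (b m), fun _ => rfl⟩,
    fun x => by simp only [ContinuousMap.coe_mk, Icc.coe_zero, h0, Homeomorph.one_apply], fun x => by simp only [ContinuousMap.coe_mk, Icc.coe_one, h1]⟩

/-- Conjugation by a homeomorphism that carries marks to marks. -/
theorem Marks.conj_adm {c c' : Marks X} {h : X ≃ₜ X} (hP : ∀ x, h x ∈ c'.P ↔ x ∈ c.P)
    (hD : ∀ i z, ‖z‖ ≤ 1 → ∃ j w, ‖w‖ ≤ 1 ∧ h (c.d j w) = c'.d i z) {f : X ≃ₜ X}
    (hf : f ∈ c.Adm) : h * f * h⁻¹ ∈ c'.Adm := by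
  refine ⟨fun x => ?_, fun i z hz => ?_⟩
  · change h (f (h.symm x)) ∈ c'.P ↔ _
    rw [hP, hf.1, ← hP, h.apply_symm_apply]
  · obtain ⟨j, w, hw, e⟩ := hD i z hz
    change h (f (h.symm _)) = _
    rw [← e, h.symm_apply_apply, hf.2 j w hw]

theorem Marks.conj_zero {c c' : Marks X} {h : X ≃ₜ X}
    (hA : ∀ f ∈ c.Adm, h * f * h⁻¹ ∈ c'.Adm) {f : c.Homeo} {f' : c'.Homeo}
    (e : f'.1 = h * f.1 * h⁻¹) (hf : f ∈ c.Zero) : f' ∈ c'.Zero := by
  obtain ⟨H, a, b, k⟩ := hf
  refine ⟨⟨fun p => h (H (p.1, h.symm p.2)), by fun_prop⟩, fun t => ?_, fun x => ?_, fun x => ?_⟩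
  · obtain ⟨u, u1, u2⟩ := a t
    exact ⟨h * u * h⁻¹, hA u u1, fun x => congrArg h (u2 _)⟩
  · simp [b]
  · rw [e]
    exact congrArg h (k _)

/-- Conjugation induces an isomorphism of the mapping class groups. -/
theorem Marks.mcg_conj {c c' : Marks X} {h : X ≃ₜ X}
    (hA : ∀ f ∈ c.Adm, h * f * h⁻¹ ∈ c'.Adm) (hA' : ∀ f ∈ c'.Adm, h⁻¹ * f * h ∈ c.Adm) :
    ∃ (ε : c.Homeo ≃* c'.Homeo) (e : c.MCG ≃* c'.MCG), (∀ f, (ε f).1 = h * f.1 * h⁻¹) ∧
      ∀ f : c.Homeo, e (QuotientGroup.mk f) = QuotientGroup.mk (ε f) := by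
  let ε : c.Homeo ≃* c'.Homeo :=
    { toFun := fun f => ⟨h * f.1 * h⁻¹, ActsTrivially_conj f.2.1 h, hA _ f.2.2⟩
      invFun := fun f => ⟨h⁻¹ * f.1 * h, ActsTrivially_conj f.2.1 h⁻¹, hA' _ f.2.2⟩
      left_inv := fun f => Subtype.ext (by simp only; group)
      right_inv := fun f => Subtype.ext (by simp only; group)
      map_mul' := fun f g => Subtype.ext (by simp only [Subgroup.coe_mul]; group) }
  refine ⟨ε, QuotientGroup.congr c.Zero c'.Zero ε ?_, fun _ => rfl, fun _ => rfl⟩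
  refine le_antisymm ?_ fun f hf => ⟨ε.symm f, ?_, ε.apply_symm_apply f⟩
  · rintro _ ⟨f, hf, rfl⟩
    exact Marks.conj_zero hA rfl hf
  · exact Marks.conj_zero (h := h⁻¹) (by simpa only [inv_inv] using hA') (by rw [inv_inv]; rfl) hf

/-- Points of `P` as discs of radius `0`. -/
theorem Marks.family (hX : Loc X) (c : Marks X) : ∃ d : c.P ⊕ Fin c.b → ℂ → X,
    (∀ i, IsOpenEmbedding (d i)) ∧ (∀ p, d (.inl p) 0 = p) ∧ (∀ i, d (.inr i) = c.d i) ∧
    ∀ i j, i ≠ j → Disjoint (d i '' closedBall 0 (Sum.elim (fun _ => 0) (fun _ => 1) i))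
      (d j '' closedBall 0 (Sum.elim (fun _ => 0) (fun _ => 1) j)) := by
  choose u u1 u2 using hX
  refine ⟨Sum.elim (fun p => u p) c.d, ?_, fun p => u2 p, fun _ => rfl, ?_⟩
  · rintro (p | i)
    exacts [u1 p, c.emb i]
  · rintro (p | i) (q | j) hne
    · simpa [u2] using fun e => hne (congrArg _ (Subtype.ext e))
    · simp only [Sum.elim_inl, Sum.elim_inr, closedBall_zero, image_singleton, u2,
        disjoint_singleton_left]
      rintro ⟨z, -, e⟩
      exact c.avoid j z ((show c.d j z = p from e) ▸ p.2)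
    · simp only [Sum.elim_inl, Sum.elim_inr, closedBall_zero, image_singleton, u2,
        disjoint_singleton_right]
      rintro ⟨z, -, e⟩
      exact c.avoid i z ((show c.d i z = q from e) ▸ q.2)
    · refine disjoint_left.2 ?_
      rintro _ ⟨z, -, rfl⟩ ⟨w, -, e⟩
      exact hne (congrArg _ (c.disj _ _ _ _ e).symm)

variable [T2Space X]

theorem Marks.free_open_conn [PreconnectedSpace X] (hX : Loc X) (c : Marks X) :
    IsOpen c.free ∧ IsPreconnected c.free := by
  obtain ⟨d, d1, d2, d3, d4⟩ := c.family hX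
  have := sdiff_discs isOpen_univ isPreconnected_univ d1
    (by rintro (p | i) <;> simp) (fun _ => subset_univ _) d4 Finset.univ
  have e : c.free = univ \ ⋃ i ∈ (Finset.univ : Finset (c.P ⊕ Fin c.b)),
      d i '' closedBall 0 (Sum.elim (fun _ => 0) (fun _ => 1) i) := by
    ext x
    simp only [free, ne_eq, mem_ofPred_eq, Finset.mem_univ, iUnion_true, mem_sdiff, mem_univ, mem_iUnion, mem_image, mem_closedBall, dist_zero_right, Sum.exists, Sum.elim_inl, norm_le_zero_iff, exists_eq_left, d2, Subtype.exists, exists_prop, exists_eq_right, Sum.elim_inr, d3, not_or, not_exists, not_and, true_and]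
  rwa [e]

/-- Slide lemma relative to the marks. -/
theorem Marks.slide [PreconnectedSpace X] (hX : Loc X) (c : Marks X) {x y : X} (hx : x ∈ c.free)
    (hy : y ∈ c.free) : ∃ f : c.Homeo, f ∈ c.Zero ∧ f.1 ∈ Mv c.free ∧ f.1 x = y := by
  obtain ⟨f, m, e⟩ := Mv.slide hX (c.free_open_conn hX).1 (c.free_open_conn hX).2 hx hy
  exact ⟨⟨f, c.mv_le m⟩, c.mv_zero m, m, e⟩

/-- Standard position. -/
theorem Marks.std [PreconnectedSpace X] (hX : Loc X) (c c' : Marks X) (σ : c.P ≃ c'.P)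
    (τ : Fin c.b ≃ Fin c'.b) : ∃ h ∈ Mv (univ : Set X), (∀ p : c.P, h p = σ p) ∧
      ∀ i, h '' (c.d i '' closedBall 0 1) = c'.d (τ i) '' closedBall 0 1 := by
  obtain ⟨d, d1, d2, d3, d4⟩ := c.family hX
  obtain ⟨d', d1', d2', d3', d4'⟩ := c'.family hX
  obtain ⟨h, m, e⟩ := Mv.marks hX isOpen_univ isPreconnected_univ
    (a := Sum.elim (fun _ => 0) (fun _ => 1)) (by rintro (p | i) <;> simp) d1
    (d' := fun i => d' (σ.sumCongr τ i)) (fun _ => d1' _) (fun _ => subset_univ _)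
    (fun _ => subset_univ _) d4 (fun i j hne => by
      have := d4' _ _ ((σ.sumCongr τ).injective.ne hne)
      rcases i with p | i <;> rcases j with q | j <;> exact this)
  refine ⟨h, m, fun p => ?_, fun i => ?_⟩
  · simpa [d2, d2'] using e (.inl p)
  · simpa [d3, d3'] using e (.inr i)

/-- The mapping class group only depends on the numbers of marked points and of discs. -/
theorem Marks.mcg_equiv [PreconnectedSpace X] (hX : Loc X) (c c' : Marks X)
    (hP : c.P.card = c'.P.card) (hb : c.b = c'.b) : Nonempty (c.MCG ≃* c'.MCG) := by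
  obtain ⟨h, -, e1, e2⟩ := Marks.std hX c c' (Finset.equivOfCardEq hP) (finCongr hb)
  have k : ∀ x, h x ∈ c'.P ↔ x ∈ c.P := fun x => by
    refine ⟨fun m => ?_, fun m => e1 ⟨x, m⟩ ▸ Subtype.prop _⟩
    obtain ⟨p, hp⟩ := (Finset.equivOfCardEq hP).surjective ⟨_, m⟩
    have := e1 p
    rw [hp] at this
    exact h.injective this ▸ p.2
  obtain ⟨-, e, -⟩ := Marks.mcg_conj (c := c) (c' := c') (h := h)
    (fun f => Marks.conj_adm k fun i z hz => by
      obtain ⟨j, rfl⟩ := (finCongr hb).surjective i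
      obtain ⟨_, ⟨w, hw, rfl⟩, e⟩ := (e2 j).ge ⟨z, mem_closedBall_zero_iff.2 hz, rfl⟩
      exact ⟨j, w, mem_closedBall_zero_iff.1 hw, e⟩)
    (fun f hf => by
      have := Marks.conj_adm (c := c') (c' := c) (h := h⁻¹) (fun x => by
        rw [← k]
        exact Iff.of_eq (congrArg (· ∈ c'.P) (h.apply_symm_apply x))) (fun i z hz => by
          obtain ⟨w, hw, e⟩ := (e2 i).le ⟨_, ⟨z, mem_closedBall_zero_iff.2 hz, rfl⟩, rfl⟩
          exact ⟨_, w, mem_closedBall_zero_iff.1 hw, h.symm_apply_eq.2 e⟩) hf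
      rwa [inv_inv] at this)
  exact ⟨e⟩

end Pool.Agent.MP_646035_al.MC
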