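import Pool.Agent.MP_4a6971_al.H83.Final

attribute [-instance] Prod.instSMul RKHS.instFunLike instCoeOTCOfCoeTC
  NonUnitalRingHomClass.toMulHomClass RCLike.charZero_rclike AddQuantale.instAddLeftMono
  NumberField.to_charZero MonTypeEquivalenceMon.monMonoid Distrib.toMul TestFunctionClass.toDFunLike
  ContDiffMapSupportedInClass.toDFunLike Multiplicative.smul NonUnitalAlgSemiHomClass.toMulHomClass
  LeftPreLieAlgebra.toModule littleWedderburn LieAdmissibleAlgebra.toModule Valued.toUniformSpace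
  instCoeHTCOfCoeHeadOfCoeOTC

/-!
The surface of genus one is the torus.
-/

namespace Pool.Agent.MP_646035_al.MC

open Set Topology Metric Pool.Agent.MP_4a6971_al Mcg H66 H83

/-- The sides of the square. -/
def torSide (i : I 1) (t : ℝ) : ℂ :=
  if i = 0 then ⟨-1 + 2 * t, -1⟩ else if i = 1 then ⟨1, -1 + 2 * t⟩ else
    if i = 2 then ⟨1 - 2 * t, 1⟩ else ⟨-1, 1 - 2 * t⟩

theorem tor_cases (i : I 1) : i = 0 ∨ i = 1 ∨ i = 2 ∨ i = 3 := by
  revert i
  decide

theorem tor0 (t : ℝ) : torSide 0 t = ⟨-1 + 2 * t, -1⟩ := rfl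

theorem tor1 (t : ℝ) : torSide 1 t = ⟨1, -1 + 2 * t⟩ := rfl

theorem tor2 (t : ℝ) : torSide 2 t = ⟨1 - 2 * t, 1⟩ := rfl

theorem tor3 (t : ℝ) : torSide 3 t = ⟨-1, 1 - 2 * t⟩ := rfl

theorem tor_mk {f g : ℝ → ℝ} (hf : Continuous f) (hg : Continuous g) :
    Continuous fun t => (⟨f t, g t⟩ : ℂ) :=
  Complex.equivRealProdCLM.symm.continuous.comp (hf.prodMk hg)

theorem tor_cyc : Cyc torSide where
  cont i := by
    rcases tor_cases i with rfl | rfl | rfl | rfl <;>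
      exact (tor_mk (by fun_prop) (by fun_prop)).continuousOn
  next i := by
    rcases tor_cases i with rfl | rfl | rfl | rfl
    · exact (tor0 1).trans (Eq.trans (by norm_num) (tor1 0).symm)
    · exact (tor1 1).trans (Eq.trans (by norm_num) (tor2 0).symm)
    · exact (tor2 1).trans (Eq.trans (by norm_num) (tor3 0).symm)
    · exact (tor3 1).trans (Eq.trans (by norm_num) (tor0 0).symm)
  fib i j t ht t' ht' h := by
    obtain ⟨t0, t1⟩ := ht
    obtain ⟨s0, s1⟩ := ht'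
    rcases tor_cases i with rfl | rfl | rfl | rfl <;>
      rcases tor_cases j with rfl | rfl | rfl | rfl <;>
      simp only [tor0, tor1, tor2, tor3, Complex.mk.injEq] at h <;>
      obtain ⟨h1, h2⟩ := h <;>
      first
      | exact Or.inl ⟨rfl, by linarith only [h1, h2]⟩
      | exact Or.inr (Or.inl ⟨by decide, by linarith only [t1, h1, h2], by linarith only [s0, h2, h1]⟩)
      | exact Or.inr (Or.inr ⟨by decide, by linarith only [t0, h1, h2], by linarith only [s1, h2, h1]⟩)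
      | (exfalso; linarith)

theorem tor_fr : (⋃ i, torSide i '' Icc 0 1) = frontier (Icc (-1 : ℝ) 1 ×ℂ Icc (-1 : ℝ) 1) := by
  rw [Complex.frontier_reProdIm, closure_Icc, frontier_Icc (by norm_num)]
  ext z
  simp only [mem_iUnion, mem_image, mem_union, Complex.mem_reProdIm, mem_Icc, mem_insert_iff,
    mem_singleton_iff]
  constructor
  · rintro ⟨i, t, ⟨t0, t1⟩, rfl⟩
    rcases tor_cases i with rfl | rfl | rfl | rfl
    · exact Or.inl ⟨by rw [tor0]; constructor <;> linarith only [t0, t1], Or.inl rfl⟩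
    · exact Or.inr ⟨Or.inr rfl, by rw [tor1]; constructor <;> linarith⟩
    · exact Or.inl ⟨by rw [tor2]; constructor <;> linarith, Or.inr rfl⟩
    · exact Or.inr ⟨Or.inl rfl, by rw [tor3]; constructor <;> linarith⟩
  · rintro (⟨⟨a, b⟩, h | h⟩ | ⟨h | h, a, b⟩)
    · exact ⟨0, (z.re + 1) / 2, ⟨by linarith, by linarith⟩,
        Complex.ext (by rw [tor0]; ring) h.symm⟩
    · exact ⟨2, (1 - z.re) / 2, ⟨by linarith, by linarith⟩,
        Complex.ext (by rw [tor2]; ring) h.symm⟩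
    · exact ⟨3, (1 - z.im) / 2, ⟨by linarith, by linarith⟩,
        Complex.ext h.symm (by rw [tor3]; ring)⟩
    · exact ⟨1, (z.im + 1) / 2, ⟨by linarith, by linarith⟩,
        Complex.ext h.symm (by rw [tor1]; ring)⟩

/-- The square is mapped to a quarter of the surface. -/
theorem tor_quarter :
    ∃ (σ : Multiplicative (ZMod 2 × ZMod 2) →* (Surface 1 ≃ₜ Surface 1)) (Ψ : ℂ → Surface 1),
      ContinuousOn Ψ (Icc (-1 : ℝ) 1 ×ℂ Icc (-1 : ℝ) 1) ∧
      (∀ y, ∃ κ, ∃ z ∈ Icc (-1 : ℝ) 1 ×ℂ Icc (-1 : ℝ) 1, σ κ (Ψ z) = y) ∧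
      ∀ κ, ∀ z ∈ Icc (-1 : ℝ) 1 ×ℂ Icc (-1 : ℝ) 1, ∀ z' ∈ Icc (-1 : ℝ) 1 ×ℂ Icc (-1 : ℝ) 1,
        σ κ (Ψ z) = Ψ z' ↔
          z = z' ∧ (κ.toAdd.1 = 0 ∨ z.im ^ 2 = 1) ∧ (κ.toAdd.2 = 0 ∨ z.re ^ 2 = 1) := by
  obtain ⟨σ, Φ, α, hΦ, hα, hs, hsur, hfix, hfib⟩ := exists_model 1
  obtain ⟨b, b1, b2, b3⟩ := tor_cyc.exists_match hα
  rw [tor_fr] at b1 b2
  rw [hs, ← frontier_closedBall (0 : ℂ) one_ne_zero] at b2
  have hcv : Convex ℝ (Icc (-1 : ℝ) 1 ×ℂ Icc (-1 : ℝ) 1) :=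
    ((convex_Icc _ _).linear_preimage Complex.reLm).inter
      ((convex_Icc _ _).linear_preimage Complex.imLm)
  obtain ⟨h, h1, -, h3⟩ := exists_cone (isCompact_Icc.reProdIm isCompact_Icc) hcv
    ⟨0, by simp only [Complex.interior_reProdIm, interior_Icc, Complex.mem_reProdIm, Complex.zero_re, mem_Ioo, Left.neg_neg_iff, zero_lt_one, and_self, Complex.zero_im]⟩ (isCompact_closedBall (0 : ℂ) 1)
    (convex_closedBall 0 1) ⟨0, by rw [interior_closedBall _ one_ne_zero]; simp⟩ b1 b2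
  have hm : ∀ z ∈ Icc (-1 : ℝ) 1 ×ℂ Icc (-1 : ℝ) 1, h z ∈ closedBall (0 : ℂ) 1 := fun z hz =>
    h1 ▸ ⟨z, hz, rfl⟩
  have hside : ∀ i, ∀ t ∈ Icc (0 : ℝ) 1, h (torSide i t) = α i t := fun i t ht => by
    rw [h3 (tor_fr ▸ mem_iUnion.2 ⟨i, t, ht, rfl⟩), b3 i t ht]
  have fx : ∀ i, ∀ t ∈ Icc (0 : ℝ) 1, ∀ z, torSide i t = z → σ (colr i) (Φ (h z)) = Φ (h z) := by
    rintro i t ht _ rfl
    rw [hside i t ht]
    exact hfix i t ht
  have c0 : colr (0 : I 1) = Multiplicative.ofAdd (1, 0) := (Hyper_colr _).trans (by decide)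
  have c1 : colr (1 : I 1) = Multiplicative.ofAdd (0, 1) := (Hyper_colr _).trans (by decide)
  have c2 : colr (2 : I 1) = Multiplicative.ofAdd (1, 0) := (Hyper_colr _).trans (by decide)
  have c3 : colr (3 : I 1) = Multiplicative.ofAdd (0, 1) := (Hyper_colr _).trans (by decide)
  refine ⟨σ, fun z => Φ (h z), hΦ.comp h.continuous.continuousOn hm, fun y => ?_,
    fun κ z hz z' hz' => ⟨fun e => ?_, ?_⟩⟩
  · obtain ⟨κ, z, hz, rfl⟩ := hsur y
    rw [← h1] at hz
    obtain ⟨x, hx, rfl⟩ := hz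
    exact ⟨κ, x, hx, rfl⟩
  · obtain ⟨e1, e2⟩ := hfib κ _ (hm z hz) _ (hm z' hz') e
    refine ⟨h.injective e1, ?_⟩
    clear e
    induction e2 using Subgroup.closure_induction with
    | mem c hc =>
      obtain ⟨i, ⟨t, ht, a⟩, rfl⟩ := hc
      rw [← hside i t ht] at a
      rw [← h.injective a]
      rcases tor_cases i with rfl | rfl | rfl | rfl
      · exact ⟨Or.inr (by simp only [tor0, even_two, Even.neg_pow, one_pow]), Or.inl (by rw [c0]; rfl)⟩
      · exact ⟨Or.inl (by rw [c1]; rfl), Or.inr (by simp [tor1])⟩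
      · exact ⟨Or.inr (by simp [tor2]), Or.inl (by rw [c2]; rfl)⟩
      · exact ⟨Or.inl (by rw [c3]; rfl), Or.inr (by simp only [tor3, even_two, Even.neg_pow, one_pow])⟩
    | one => exact ⟨Or.inl rfl, Or.inl rfl⟩
    | mul c d _ _ hc hd =>
      refine ⟨?_, ?_⟩
      · rcases hc.1 with a | a
        · exact hd.1.imp_left fun a' => by simp [a, a']
        · exact Or.inr a
      · rcases hc.2 with a | a
        · exact hd.2.imp_left fun a' => by simp [a, a']
        · exact Or.inr a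
    | inv c _ hc => exact ⟨hc.1.imp_left fun a => by simp only [toAdd_inv, Prod.fst_neg, a, neg_zero], hc.2.imp_left fun a => by simp [a]⟩
  · rintro ⟨rfl, k1, k2⟩
    obtain ⟨⟨a, a'⟩, d, d'⟩ := hz
    have f1 : z.im ^ 2 = 1 → σ (Multiplicative.ofAdd (1, 0)) (Φ (h z)) = Φ (h z) := fun e => by
      rcases sq_eq_one_iff.1 e with e | e
      · exact c2 ▸ fx 2 ((1 - z.re) / 2) ⟨by linarith, by linarith only [a]⟩ z
          (Complex.ext (by rw [tor2]; ring) e.symm)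
      · exact c0 ▸ fx 0 ((z.re + 1) / 2) ⟨by linarith, by linarith⟩ z
          (Complex.ext (by rw [tor0]; ring) e.symm)
    have f2 : z.re ^ 2 = 1 → σ (Multiplicative.ofAdd (0, 1)) (Φ (h z)) = Φ (h z) := fun e => by
      rcases sq_eq_one_iff.1 e with e | e
      · exact c1 ▸ fx 1 ((z.im + 1) / 2) ⟨by linarith, by linarith⟩ z
          (Complex.ext e.symm (by rw [tor1]; ring))
      · exact c3 ▸ fx 3 ((1 - z.im) / 2) ⟨by linarith, by linarith⟩ z
          (Complex.ext e.symm (by rw [tor3]; ring))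
    have all : ∀ k : Multiplicative (ZMod 2 × ZMod 2), k = 1 ∨
        (k = Multiplicative.ofAdd (1, 0) ∧ k.toAdd.1 ≠ 0) ∨
        (k = Multiplicative.ofAdd (0, 1) ∧ k.toAdd.2 ≠ 0) ∨
        (k = Multiplicative.ofAdd (1, 0) * Multiplicative.ofAdd (0, 1) ∧ k.toAdd.1 ≠ 0 ∧
          k.toAdd.2 ≠ 0) := by decide
    rcases all κ with e | ⟨e, n⟩ | ⟨e, n⟩ | ⟨e, n, n'⟩ <;> rw [e]
    · simp only [map_one, Homeomorph.one_apply]
    · exact f1 (k1.resolve_left n)
    · exact f2 (k2.resolve_left n)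
    · rw [map_mul, Homeomorph.mul_apply, f2 (k2.resolve_left n'), f1 (k1.resolve_left n)]

/-- The closed upper (`a = 0`) or lower (`a = 1`) half of the circle. -/
def torHalf (a : ZMod 2) : Set Circle := {u | 0 ≤ (if a = 0 then 1 else -1) * (u : ℂ).im}

theorem tor_sq (u : Circle) : (u : ℂ).re ^ 2 + (u : ℂ).im ^ 2 = 1 := by
  have := Circle.normSq_coe u
  rw [Complex.normSq_apply] at this
  linarith

theorem tor_mem (u : Circle) : (u : ℂ).re ∈ Icc (-1 : ℝ) 1 :=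
  abs_le.1 (abs_le_one_iff_mul_self_le_one.2 (by linarith only [tor_sq u, sq_nonneg (u : ℂ).im]))

theorem tor_half (u : Circle) : ∃ a, u ∈ torHalf a := by
  rcases le_total 0 (u : ℂ).im with h | h
  · exact ⟨0, by simpa only [torHalf, ↓ reduceIte, one_mul, mem_ofPred_eq] using h⟩
  · exact ⟨1, by simpa only [torHalf, one_ne_zero, ↓ reduceIte, neg_mul, one_mul, Left.nonneg_neg_iff, mem_ofPred_eq] using h⟩

theorem tor_ext {a a' : ZMod 2} {u u' : Circle} (h : u ∈ torHalf a) (h' : u' ∈ torHalf a') :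
    u = u' ↔ (u : ℂ).re = (u' : ℂ).re ∧ (-a' + a = 0 ∨ (u : ℂ).re ^ 2 = 1) := by
  have e := tor_sq u
  have e' := tor_sq u'
  constructor
  · rintro rfl
    refine ⟨rfl, ?_⟩
    rcases Hyper_z2 a with rfl | rfl <;> rcases Hyper_z2 a' with rfl | rfl <;>
      simp only [torHalf, ↓ reduceIte, one_mul, mem_ofPred_eq, one_ne_zero, neg_mul, Left.nonneg_neg_iff] at h h'
    · exact Or.inl rfl
    · exact Or.inr (by nlinarith only [e, h, h'])
    · exact Or.inr (by nlinarith only [e, h, h'])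
    · exact Or.inl rfl
  · rintro ⟨h1, h2⟩
    rw [← h1] at e'
    refine Circle.ext (Complex.ext h1 ?_)
    rcases h2 with h2 | h2
    · rw [neg_add_eq_zero] at h2
      subst h2
      rcases Hyper_z2 a' with rfl | rfl <;> simp only [torHalf, ↓ reduceIte, one_mul, mem_ofPred_eq, one_ne_zero, neg_mul, Left.nonneg_neg_iff] at h h' <;> nlinarith only [e, e', h, h']
    · have h3 : (u : ℂ).im = 0 := by nlinarith only [e, h2]
      have h4 : (u' : ℂ).im = 0 := by nlinarith only [e', h2]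
      rw [h3, h4]

theorem tor_ex {x : ℝ} (hx : x ∈ Icc (-1 : ℝ) 1) (a : ZMod 2) :
    ∃ u ∈ torHalf a, (u : ℂ).re = x := by
  have h0 : 0 ≤ 1 - x ^ 2 := by nlinarith only [hx.1, hx.2]
  have h1 := Real.mul_self_sqrt h0
  have h2 := Real.sqrt_nonneg (1 - x ^ 2)
  refine ⟨⟨⟨x, (if a = 0 then 1 else -1) * √(1 - x ^ 2)⟩, ?_⟩, ?_, rfl⟩
  · refine mem_sphere_zero_iff_norm.2 ?_
    rw [← sq_eq_sq₀ (norm_nonneg _) zero_le_one, Complex.sq_norm, Complex.normSq_mk]
    split_ifs <;> linarith only [h1]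
  · change 0 ≤ (if a = 0 then 1 else -1) * ((if a = 0 then 1 else -1) * √(1 - x ^ 2))
    split_ifs <;> linarith

theorem torus_homeo : Nonempty (Circle × Circle ≃ₜ Surface 1) := by
  obtain ⟨σ, Ψ, hc, hsur, hfib⟩ := tor_quarter
  choose s hs using tor_half
  have hm : ∀ p : Circle × Circle,
      (⟨(p.1 : ℂ).re, (p.2 : ℂ).re⟩ : ℂ) ∈ Icc (-1 : ℝ) 1 ×ℂ Icc (-1 : ℝ) 1 :=
    fun p => ⟨tor_mem p.1, tor_mem p.2⟩
  have key : ∀ (a b a' b' : ZMod 2) (p p' : Circle × Circle), p.2 ∈ torHalf a → p.1 ∈ torHalf b →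
      p'.2 ∈ torHalf a' → p'.1 ∈ torHalf b' →
      (σ (Multiplicative.ofAdd (a, b)) (Ψ ⟨(p.1 : ℂ).re, (p.2 : ℂ).re⟩) =
        σ (Multiplicative.ofAdd (a', b')) (Ψ ⟨(p'.1 : ℂ).re, (p'.2 : ℂ).re⟩) ↔ p = p') := by
    intro a b a' b' p p' h1 h2 h3 h4
    rw [← (σ _).symm_apply_eq, Prod.ext_iff, tor_ext h1 h3, tor_ext h2 h4]
    have := hfib ((Multiplicative.ofAdd (a', b'))⁻¹ * Multiplicative.ofAdd (a, b)) _ (hm p) _ (hm p')
    rw [map_mul, map_inv, Complex.mk.injEq] at this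
    exact this.trans ⟨fun h => ⟨⟨h.1.1, h.2.2⟩, h.1.2, h.2.1⟩,
      fun h => ⟨⟨h.1.1, h.2.1⟩, h.2.2, h.1.2⟩⟩
  let e : Circle × Circle → Surface 1 := fun p =>
    σ (Multiplicative.ofAdd (s p.2, s p.1)) (Ψ ⟨(p.1 : ℂ).re, (p.2 : ℂ).re⟩)
  have cont : Continuous e := by
    have cl : ∀ a, IsClosed (torHalf a) := fun a => isClosed_le continuous_const (by fun_prop)
    refine (locallyFinite_of_finite fun k : ZMod 2 × ZMod 2 =>
      torHalf k.2 ×ˢ torHalf k.1).continuous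
      (eq_univ_of_forall fun p => mem_iUnion.2 ⟨(s p.2, s p.1), hs _, hs _⟩)
      (fun k => (cl _).prod (cl _)) fun k => ?_
    have c1 : Continuous fun p : Circle × Circle => (⟨(p.1 : ℂ).re, (p.2 : ℂ).re⟩ : ℂ) :=
      Complex.equivRealProdCLM.symm.continuous.comp
        (f := fun p : Circle × Circle => ((p.1 : ℂ).re, (p.2 : ℂ).re)) (by fun_prop)
    exact ((σ (Multiplicative.ofAdd k)).continuous.comp_continuousOn
      (hc.comp c1.continuousOn fun p _ => hm p)).congr fun p hp =>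
        (key _ _ _ _ p p (hs _) (hs _) hp.2 hp.1).2 rfl
  refine ⟨Continuous.homeoOfEquivCompactToT2 (f := Equiv.ofBijective e
    ⟨fun p p' h => (key _ _ _ _ p p' (hs _) (hs _) (hs _) (hs _)).1 h, fun y => ?_⟩) cont⟩
  obtain ⟨κ, z, hz, rfl⟩ := hsur y
  obtain ⟨u, hu, e1⟩ := tor_ex hz.1 κ.toAdd.2
  obtain ⟨v, hv, e2⟩ := tor_ex hz.2 κ.toAdd.1
  refine ⟨(u, v), ((key _ _ _ _ (u, v) (u, v) (hs _) (hs _) hv hu).2 rfl).trans ?_⟩
  simp only [e1, e2]
  rfl

theorem torus_group : Nonempty (SurfaceGroup 1 ≃* Multiplicative (ℤ × ℤ)) := by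
  let a : SurfaceGroup 1 := PresentedGroup.of (Sum.inl 0)
  let b : SurfaceGroup 1 := PresentedGroup.of (Sum.inr 0)
  have hab : Commute a b := by
    have h : PresentedGroup.mk {surfaceRel 1} (surfaceRel 1) = 1 := PresentedGroup.one_of_mem rfl
    have e : surfaceRel 1 = FreeGroup.of (Sum.inl 0) * FreeGroup.of (Sum.inr 0) *
        (FreeGroup.of (Sum.inl 0))⁻¹ * (FreeGroup.of (Sum.inr 0))⁻¹ := by simp only [surfaceRel, List.ofFn_succ, Fin.isValue, List.ofFn_zero, List.prod_cons, List.prod_nil, mul_one]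
    exact commutatorElement_eq_one_iff_commute.1 ((congrArg (PresentedGroup.mk _) e).symm.trans h)
  let φ : SurfaceGroup 1 →* Multiplicative (ℤ × ℤ) := PresentedGroup.toGroup
    (f := Sum.elim (fun _ => Multiplicative.ofAdd (1, 0)) fun _ => Multiplicative.ofAdd (0, 1))
    (by
      rintro r rfl
      simp only [surfaceRel, List.ofFn_succ, Fin.isValue, List.ofFn_zero, List.prod_cons, List.prod_nil, mul_one, map_mul, FreeGroup.lift_apply_of, Sum.elim_inl, Sum.elim_inr, map_inv, mul_inv_cancel_comm, mul_inv_cancel])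
  let ψ : Multiplicative (ℤ × ℤ) →* SurfaceGroup 1 := MonoidHom.mk'
    (fun k => a ^ k.toAdd.1 * b ^ k.toAdd.2) fun k l => by
      simp only [toAdd_mul, Prod.fst_add, Prod.snd_add, zpow_add]
      exact ((hab.zpow_zpow _ _).mul_mul_mul_comm _ _)
  refine ⟨MonoidHom.toMulEquiv φ ψ (PresentedGroup.ext ?_) (MonoidHom.ext fun k => ?_)⟩
  · rintro (i | i) <;> obtain rfl : i = 0 := Subsingleton.elim _ _ <;> simp only [ψ, a, Fin.isValue, b, φ, MonoidHom.coe_comp, MonoidHom.mk'_apply, Function.comp_apply, PresentedGroup.toGroup.of, Sum.elim_inl, toAdd_ofAdd, zpow_ofNat, pow_one, pow_zero, mul_one, MonoidHom.id_apply, Sum.elim_inr, one_mul]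
  · apply Multiplicative.toAdd.injective
    simp [φ, ψ, a, b]

/-- The translations of the plane by periods. -/
noncomputable abbrev torAct : MulAction (Multiplicative (ℤ × ℤ)) (ℝ × ℝ) where
  smul k p := (p.1 + k.toAdd.1 * (2 * Real.pi), p.2 + k.toAdd.2 * (2 * Real.pi))
  one_smul p := by
    change (_, _) = p
    simp
  mul_smul k l p := by
    change (_, _) = (p.1 + _ + _, p.2 + _ + _)
    simp only [toAdd_mul, Prod.fst_add, Prod.snd_add, Int.cast_add]
    congr 1 <;> ring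

theorem torus_exp : @IsQuotientCoveringMap (ℝ × ℝ) (Circle × Circle) _ _
    (Prod.map Circle.exp Circle.exp) (Multiplicative (ℤ × ℤ)) _ torAct := by
  let _ := torAct
  have q := Circle.isAddQuotientCoveringMap_exp.isOpenQuotientMap
  have sm : ∀ (k : Multiplicative (ℤ × ℤ)) (p : ℝ × ℝ), k • p =
    (p.1 + k.toAdd.1 * (2 * Real.pi), p.2 + k.toAdd.2 * (2 * Real.pi)) := fun _ _ => rfl
  refine { (q.prodMap q).isQuotientMap with
    continuous_const_smul := fun k => by simp only [sm]; fun_prop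
    apply_eq_iff_mem_orbit := fun {p p'} => ?_
    disjoint := fun p => ⟨ball p 1, ball_mem_nhds p one_pos, ?_⟩ }
  · rw [Prod.ext_iff, Prod.map_fst, Prod.map_fst, Prod.map_snd, Prod.map_snd, Circle.exp_eq_exp,
      Circle.exp_eq_exp]
    constructor
    · rintro ⟨⟨m, h⟩, n, h'⟩
      exact ⟨Multiplicative.ofAdd (m, n), Prod.ext h.symm h'.symm⟩
    · rintro ⟨k, rfl⟩
      exact ⟨⟨_, rfl⟩, _, rfl⟩
  · rintro k ⟨_, ⟨x, h1, rfl⟩, h2⟩
    have h3 : dist (k • x) x < 2 := by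
      linarith [dist_triangle_right (k • x) x p, mem_ball.1 h1, mem_ball.1 h2]
    have h4 : ∀ (m : ℤ) (y : ℝ), dist (y + m * (2 * Real.pi)) y < 2 → m = 0 := fun m y h => by
      rw [dist_self_add_left, Real.norm_eq_abs, abs_mul, abs_of_pos Real.two_pi_pos] at h
      have h5 : |(m : ℝ)| < 1 := by nlinarith only [Real.pi_gt_three, h]
      exact Int.abs_lt_one_iff.1 (by exact_mod_cast h5)
    rw [sm, Prod.dist_eq, max_lt_iff] at h3
    exact Multiplicative.toAdd.injective (Prod.ext (h4 _ _ h3.1) (h4 _ _ h3.2))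

/-- The plane covers the surface of genus one. -/
theorem torus_cover : ∃ π : ℝ × ℝ → Surface 1,
    @IsQuotientCoveringMap (ℝ × ℝ) (Surface 1) _ _ π (Multiplicative (ℤ × ℤ)) _ torAct := by
  obtain ⟨e⟩ := torus_homeo
  let _ := torAct
  exact ⟨_, torus_exp.homeomorph_comp e⟩

/-- Squares preserve the orientation in genus one. -/
theorem torus_two (f : Surface 1 ≃ₜ Surface 1) : ActsTrivially 2 (f * f) := by
  obtain ⟨π, hπ⟩ := torus_cover
  obtain ⟨e⟩ := torus_group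
  let _ := torAct
  exact hom_two le_rfl hπ e f

end Pool.Agent.MP_646035_al.MC
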