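import Pool.Agent.MP_646035_al.Cx.Tw1
import Pool.Agent.MP_4a6971_al.H83.Hyper

attribute [-instance] Submonoid.instSMulSubtypeMem Semiring.toMonoid SMulWithZero.toSMulZeroClass
  GradedMonoid.GradeZero.mulAction MulActionWithZero.toMulAction Module.toDistribMulAction
  DivisionCommMonoid.toDivisionMonoid MonTypeEquivalenceMon.monMonoid Algebra.toSMul
  NonUnitalRingHomClass.toMulHomClass SubNegMonoid.toAddMonoid
  ESeminormedAddCommMonoid.toAddCommMonoid AddMonoidWithOne.toAddMonoid SemigroupWithZero.toSemigroup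
  MulSemiringAction.toDistribMulAction instSMulZeroClass CommSemiring.toSemiring Prod.mulAction
  SetLike.GradeZero.instMonoid ESeminormedAddMonoid.toAddMonoid AddQuantale.instAddLeftMono
  Distrib.toMul NonUnitalAlgSemiHomClass.toMulHomClass GroupConeClass.toSubmonoidClass
  MulDistribMulAction.toMulAction MonoidWithZero.toMonoid NonAssocSemiring.toMulZeroOneClass
  NonUnitalNonAssocSemiring.toAddCommMonoid DivisionSemiring.toSemiring Torsor.toMulAction
  MulAction.instMulAction MonoidWithZero.toMulZeroOneClass Submonoid.instDistribMulActionSubtypeMem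
  AddLeftCancelMonoid.toAddMonoid GradedMonoid.GradeZero.smul NumberField.to_charZero
  DivisionRing.toDivInvMonoid CStarAlgebra.instOrderClosedTopology GroupWithZero.toDivInvMonoid
  Valued.toUniformSpace SubringClass.toRing

/-!
The twist about a simple closed geodesic as a homeomorphism.
-/

namespace Pool.Agent.MP_646035_al.MC

open Set Topology Filter Pool.Agent.MP_4a6971_al.H66 Pool.Agent.MP_4a6971_al.H83

/-- The amount of shearing, continuous form. -/
noncomputable def tw2_c (η u : ℝ) : ℝ := max 0 (min 1 (1 / 2 - u / η))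

/-- The amount of shearing, with a jump at `0`. -/
noncomputable def tw2_j (η u : ℝ) : ℝ := if 0 ≤ u then tw2_c η u else tw2_c η u - 1

theorem tw2_far {η u : ℝ} (h : 0 < η) (hu : η / 2 ≤ |u|) : tw2_j η u = 0 := by
  unfold tw2_j tw2_c
  split_ifs with a
  · rw [abs_of_nonneg a] at hu
    have : 1 / 2 ≤ u / η := by rw [le_div_iff₀ h]; linarith
    exact max_eq_left ((min_le_right _ _).trans (by linarith only [this]))
  · rw [abs_of_neg (not_le.1 a)] at hu
    have : u / η ≤ -(1 / 2) := by rw [div_le_iff₀ h]; linarith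
    rw [min_eq_left (by linarith), max_eq_right zero_le_one, sub_self]

variable {Γ : Type} [Group Γ] {Y : Fuchs Γ} {E : V} {η : ℝ} {τ : Γ} {fl : ℝ → Isom}

theorem Flow.zero (h : Flow Y E τ fl) : fl 0 = 1 := by simpa using h.add 0 0

theorem Flow.neg (h : Flow Y E τ fl) : Flow Y E τ⁻¹ fun a => fl (-a) where
  cont := h.cont.comp (continuous_fst.neg.prodMk continuous_snd)
  add := fun a b => by rw [neg_add, h.add]
  one := by rw [map_inv, ← h.one, eq_inv_iff_mul_eq_one, ← h.add, neg_add_cancel, h.zero]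
  fix := fun a => h.fix _
  comm := fun a => h.comm _

theorem Flow.bf (h : Flow Y E τ fl) (a : ℝ) (x : X) : bf E (fl a • x) = bf E x := by
  nth_rewrite 1 [← h.fix a]
  exact bf_smul _ _ _

theorem tw2_mv (u : Isom) (N : V) (x : X) : bf N (u⁻¹ • x) = bf (u • N) x := by
  rw [← bf_smul u, smul_inv_smul]

open Classical in
/-- The equivariant shear; it jumps along the lifts of the curve. -/
noncomputable def tw2_s (Y : Fuchs Γ) (E : V) (η : ℝ) (fl : ℝ → Isom) (x : X) : X :=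
  if h : ∃ γ, |bf (Y.σ γ • E) x| ≤ η then
    (Y.σ h.choose * fl (tw2_j η (bf (Y.σ h.choose • E) x)) * (Y.σ h.choose)⁻¹) • x else x

theorem tw2_in (hC : Collar Y E η) (h : Flow Y E τ fl) {γ : Γ} {x : X}
    (hx : |bf (Y.σ γ • E) x| ≤ η) :
    tw2_s Y E η fl x = (Y.σ γ * fl (tw2_j η (bf (Y.σ γ • E) x)) * (Y.σ γ)⁻¹) • x := by
  have ex : ∃ γ, |bf (Y.σ γ • E) x| ≤ η := ⟨γ, hx⟩
  rw [tw2_s, dif_pos ex]
  have a := ex.choose_spec
  generalize ex.choose = β at a
  have e := hC.sep (γ⁻¹ * β) ((Y.σ γ)⁻¹ • x) (by rwa [tw2_mv]) (by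
    rwa [map_mul, map_inv, mul_smul, bf_smul])
  have e' : Y.σ β • E = Y.σ γ • E := by
    rwa [map_mul, map_inv, mul_smul, inv_smul_eq_iff] at e
  have c := h.comm (tw2_j η (bf (Y.σ γ • E) x)) _ e
  rw [map_mul, map_inv] at c
  rw [e']
  congr 1
  generalize fl (tw2_j η (bf (Y.σ γ • E) x)) = u at c ⊢
  calc _ = Y.σ γ * ((Y.σ γ)⁻¹ * Y.σ β * u) * (Y.σ β)⁻¹ := by group
    _ = _ := by rw [c]; group

theorem tw2_out (hC : Collar Y E η) (h : Flow Y E τ fl) {x : X}
    (hx : ∀ γ, η / 2 ≤ |bf (Y.σ γ • E) x|) : tw2_s Y E η fl x = x := by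
  by_cases ex : ∃ γ, |bf (Y.σ γ • E) x| ≤ η
  · obtain ⟨γ, a⟩ := ex
    rw [tw2_in hC h a, tw2_far hC.pos (hx γ), h.zero, mul_one, mul_inv_cancel, one_smul]
  · exact dif_neg ex

theorem tw2_equiv (hC : Collar Y E η) (h : Flow Y E τ fl) (β : Γ) (x : X) :
    tw2_s Y E η fl (Y.σ β • x) = Y.σ β • tw2_s Y E η fl x := by
  have mv : ∀ γ, bf (Y.σ (β * γ) • E) (Y.σ β • x) = bf (Y.σ γ • E) x := fun γ => by
    rw [map_mul, mul_smul, bf_smul]
  by_cases ex : ∃ γ, |bf (Y.σ γ • E) x| ≤ η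
  · obtain ⟨γ, a⟩ := ex
    rw [tw2_in hC h a, tw2_in hC h (γ := β * γ) (by rwa [mv]), mv, ← mul_smul, ← mul_smul, map_mul]
    congr 1
    group
  · push Not at ex
    have p := hC.pos
    rw [tw2_out hC h (x := x) fun γ => by linarith [ex γ], tw2_out hC h fun γ => ?_]
    rw [← mul_inv_cancel_left β γ, mv]
    linarith only [ex (β⁻¹ * γ), p]

theorem tw2_inv (hC : Collar Y E η) (h : Flow Y E τ fl) {fl' : ℝ → Isom} {τ' : Γ}
    (h' : Flow Y E τ' fl') (e : ∀ a, fl' a * fl a = 1) (x : X) :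
    tw2_s Y E η fl' (tw2_s Y E η fl x) = x := by
  by_cases ex : ∃ γ, |bf (Y.σ γ • E) x| ≤ η
  · obtain ⟨γ, a⟩ := ex
    have b : bf (Y.σ γ • E) (tw2_s Y E η fl x) = bf (Y.σ γ • E) x := by
      rw [tw2_in hC h a, mul_smul, mul_smul, bf_smul, h.bf, tw2_mv]
    rw [tw2_in hC h' (γ := γ) (by rwa [b]), b, tw2_in hC h a, ← mul_smul]
    generalize tw2_j η (bf (Y.σ γ • E) x) = r
    rw [show Y.σ γ * fl' r * (Y.σ γ)⁻¹ * (Y.σ γ * fl r * (Y.σ γ)⁻¹) =
      Y.σ γ * (fl' r * fl r) * (Y.σ γ)⁻¹ by group, e, mul_one, mul_inv_cancel, one_smul]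
  · push Not at ex
    have p := hC.pos
    rw [tw2_out hC h fun γ => by linarith [ex γ], tw2_out hC h' fun γ => by linarith only [ex γ, p]]

theorem tw2_ev (hE : Y.Curve E) (δ : ℝ) (x : X) :
    ∀ᶠ y in 𝓝 x, ∀ γ, δ < |bf (Y.σ γ • E) x| → δ < |bf (Y.σ γ • E) y| := by
  obtain ⟨α, hα, hE⟩ := hE.ax
  have a : ∀ᶠ y in 𝓝 x, cd oX y < cd oX x + 1 :=
    ContinuousAt.eventually_lt (by fun_prop) continuousAt_const (lt_add_one _)
  have b : ∀ᶠ y in 𝓝 x, ∀ N ∈ {F | (∃ γ, F = Y.σ γ • E) ∧ |Bf F o| ≤ (1 + 2 * |δ|) * (cd oX x + 1)},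
      δ < |bf N x| → δ < |bf N y| := by
    refine (eventually_all_finite (tw1_loc_fin Y hα hE _)).2 fun N _ => ?_
    by_cases c : δ < |bf N x|
    · exact (continuousAt_const.eventually_lt (continuous_bf N).abs.continuousAt c).mono
        fun y d _ => d
    · exact Eventually.of_forall fun y d => (c d).elim
  filter_upwards [a, b] with y a b γ c
  by_contra! d
  refine (b _ ⟨⟨γ, rfl⟩, ?_⟩ c).not_ge d
  have r := abs_Bf_le (E := Y.σ γ • E) (by simpa using hE.1) H2_o y.2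
  rw [ch_comm] at r
  change _ ≤ (1 + 2 * |bf (Y.σ γ • E) y|) * cd oX y at r
  have := one_le_cd oX y
  have := d.trans (le_abs_self δ)
  exact r.trans (mul_le_mul (by linarith) a.le (by linarith) (by positivity))

open Classical in
/-- The shear corrected along `E`. -/
noncomputable def tw2_t (Y : Fuchs Γ) (E : V) (η : ℝ) (τ : Γ) (fl : ℝ → Isom) (x : X) : X :=
  if 0 ≤ bf E x then tw2_s Y E η fl x else Y.σ τ • tw2_s Y E η fl x

theorem tw2_cc (η : ℝ) : Continuous (tw2_c η) := by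
  unfold tw2_c
  fun_prop

theorem tw2_cont_s (hE : Y.Curve E) (hC : Collar Y E η) (h : Flow Y E τ fl) {x : X}
    (hx : ∀ γ, bf (Y.σ γ • E) x ≠ 0) : ContinuousAt (tw2_s Y E η fl) x := by
  by_cases ex : ∃ γ, |bf (Y.σ γ • E) x| < η
  · obtain ⟨γ, a⟩ := ex
    have b : ∀ᶠ y in 𝓝 x, |bf (Y.σ γ • E) y| < η :=
      ContinuousAt.eventually_lt (by fun_prop) continuousAt_const a
    have c : ContinuousAt (fun y => tw2_j η (bf (Y.σ γ • E) y)) x := by
      have d := ((tw2_cc η).comp (continuous_bf (Y.σ γ • E))).continuousAt (x := x)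
      rcases (hx γ).lt_or_gt with e | e
      · refine (d.sub (continuousAt_const (y := 1))).congr ?_
        filter_upwards [(continuous_bf _).continuousAt.eventually_lt continuousAt_const e] with y e
        exact (if_neg e.not_ge).symm
      · refine d.congr ?_
        filter_upwards [continuousAt_const.eventually_lt (continuous_bf _).continuousAt e] with y e
        exact (if_pos e.le).symm
    have d : ContinuousAt (fun y => Y.σ γ • fl (tw2_j η (bf (Y.σ γ • E) y)) • (Y.σ γ)⁻¹ • y) x :=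
      (continuous_const_smul (Y.σ γ)).continuousAt.comp (h.cont.continuousAt.comp
        (f := fun y => (tw2_j η (bf (Y.σ γ • E) y), (Y.σ γ)⁻¹ • y))
        (c.prodMk (continuous_const_smul _).continuousAt))
    refine d.congr (b.mono fun y e => ?_)
    simp only [tw2_in hC h e.le, mul_smul]
  · push Not at ex
    have p := hC.pos
    refine continuousAt_id.congr ((tw2_ev hE (η / 2) x).mono fun y a => ?_)
    exact (tw2_out hC h fun γ => (a γ (by linarith [ex γ])).le).symm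

theorem tw2_cont_t (hE : Y.Curve E) (hC : Collar Y E η) (h : Flow Y E τ fl) {x : X}
    (hx : ∀ γ, Y.σ γ • E ≠ E → bf (Y.σ γ • E) x ≠ 0) : ContinuousAt (tw2_t Y E η τ fl) x := by
  rcases lt_trichotomy (bf E x) 0 with e | e | e
  · have d := tw2_cont_s hE hC h fun γ c => hx γ (fun b => e.ne (b ▸ c)) c
    refine (d.const_smul (Y.σ τ)).congr ?_
    filter_upwards [(continuous_bf _).continuousAt.eventually_lt continuousAt_const e] with y e
    exact (if_neg e.not_ge).symm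
  · have b : ∀ᶠ y in 𝓝 x, |bf E y| < η :=
      ContinuousAt.eventually_lt (by fun_prop) continuousAt_const (by simpa [e] using hC.pos)
    have d : Continuous fun y => fl (tw2_c η (bf E y)) • y :=
      h.cont.comp (((tw2_cc η).comp (continuous_bf E)).prodMk continuous_id)
    refine d.continuousAt.congr (b.mono fun y c => ?_)
    have := tw2_in hC h (γ := 1) (x := y) (by simpa only [map_one, one_smul] using c.le)
    simp only [map_one, one_smul, one_mul, inv_one, mul_one] at this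
    rw [tw2_t, this, tw2_j]
    split_ifs
    · rfl
    · rw [← h.one, ← mul_smul, ← h.add, add_sub_cancel]
  · have d := tw2_cont_s hE hC h fun γ c => hx γ (fun b => e.ne' (b ▸ c)) c
    refine d.congr ?_
    filter_upwards [continuousAt_const.eventually_lt (continuous_bf _).continuousAt e] with y e
    exact (if_pos e.le).symm

theorem Collar.ne (hC : Collar Y E η) {γ : Γ} (n : Y.σ γ • E ≠ E) {x : X} (hx : |bf E x| ≤ η) :
    bf (Y.σ γ • E) x ≠ 0 := fun e => n (hC.sep γ x hx (by simpa only [e, abs_zero] using hC.pos.le))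

theorem Collar.same (hC : Collar Y E η) {γ : Γ} (n : Y.σ γ • E ≠ E) {x y : X}
    (hx : |bf E x| ≤ η) (hy : |bf E y| ≤ η) : 0 < bf (Y.σ γ • E) x * bf (Y.σ γ • E) y := by
  by_contra! c
  have s := (cvx_strip E η).isPreconnected
  have f := (continuous_bf (Y.σ γ • E)).continuousOn (s := {x | |bf E x| ≤ η})
  rcases mul_nonpos_iff.1 c with ⟨a, b⟩ | ⟨a, b⟩
  · obtain ⟨z, u, v⟩ := s.intermediate_value hy hx f ⟨b, a⟩
    exact hC.ne n u v
  · obtain ⟨z, u, v⟩ := s.intermediate_value hx hy f ⟨a, b⟩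
    exact hC.ne n u v

variable [MulAction Γ X] {B : Type} [TopologicalSpace B] {π : X → B}

theorem tw2_desc (hσ : ∀ (γ : Γ) (x : X), γ • x = Y.σ γ • x) (hπ : IsQuotientCoveringMap π Γ)
    (hE : Y.Curve E) (hC : Collar Y E η) (h : Flow Y E τ fl) :
    ∃ f : B → B, Continuous f ∧ ∀ x, f (π x) = π (tw2_s Y E η fl x) := by
  have inv : ∀ γ x, π (Y.σ γ • x) = π x := fun γ x => by rw [← hσ, hπ.map_smul]
  have pt : ∀ x, π (tw2_t Y E η τ fl x) = π (tw2_s Y E η fl x) := fun x => by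
    unfold tw2_t
    split_ifs
    · rfl
    · exact inv _ _
  have c : Continuous fun x => π (tw2_s Y E η fl x) := by
    refine continuous_iff_continuousAt.2 fun x => ?_
    obtain ⟨β, hβ⟩ : ∃ β, ∀ γ, Y.σ γ • E ≠ E → bf (Y.σ γ • E) (Y.σ β • x) ≠ 0 := by
      by_cases ex : ∃ γ, bf (Y.σ γ • E) x = 0
      · obtain ⟨γ, a⟩ := ex
        refine ⟨γ⁻¹, fun γ' n => hC.ne n ?_⟩
        rw [map_inv, tw2_mv, a, abs_zero]
        exact hC.pos.le
      · exact ⟨1, fun γ _ e => ex ⟨γ, by simpa only [map_one, one_smul] using e⟩⟩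
    have d : ContinuousAt (fun y => π (tw2_t Y E η τ fl (Y.σ β • y))) x :=
      hπ.continuous.continuousAt.comp
        ((tw2_cont_t hE hC h hβ).comp (continuous_const_smul _).continuousAt)
    simpa only [pt, tw2_equiv hC h, inv] using d
  have key : ∀ x, π (tw2_s Y E η fl (Function.surjInv hπ.surjective (π x))) =
      π (tw2_s Y E η fl x) := fun x => by
    obtain ⟨γ, hγ⟩ := hπ.apply_eq_iff_mem_orbit.1 (Function.surjInv_eq hπ.surjective (π x))
    rw [← hγ]
    change π (tw2_s Y E η fl (γ • x)) = _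
    rw [hσ, tw2_equiv hC h, inv]
  refine ⟨fun b => π (tw2_s Y E η fl (Function.surjInv hπ.surjective b)), ?_, key⟩
  rw [hπ.toIsQuotientMap.continuous_iff]
  exact c.congr fun x => (key x).symm

/-- The twist about a curve on any quotient of the plane by the group. -/
theorem exists_twist (hσ : ∀ (γ : Γ) (x : X), γ • x = Y.σ γ • x)
    (hπ : IsQuotientCoveringMap π Γ) (hE : Y.Curve E) :
    ∃ (f : B ≃ₜ B) (F : X ≃ₜ X) (φ : MulAut Γ) (K : Set B) (η : ℝ), 0 < η ∧ IsLift π f F φ ∧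
      Y.IsTwist E φ ∧ Y.IsTwist E (φ * φ) ∧ IsCompact K ∧ K ≠ univ ∧ (∀ b, b ∉ K → f b = b) ∧
      (∀ N ∈ Y.per, ∀ x, bf N x ≤ η → π x ∉ K) ∧
      ∀ N ∈ Y.per, ∃ γ, ∀ x, bf N x < η → F x = Y.σ γ • x := by
  obtain ⟨η, hC⟩ := exists_collar Y hE
  obtain ⟨τ, hτ, ax⟩ := hE.ax
  obtain ⟨fl, h⟩ := exists_flow' Y hτ ax
  have p := hC.pos
  have inv : ∀ γ x, π (Y.σ γ • x) = π x := fun γ x => by rw [← hσ, hπ.map_smul]
  have can : ∀ {γ β : Γ} (x : X), Y.σ γ • x = Y.σ β • x → γ = β := fun x e =>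
    Lift_cancel hπ x (by rwa [hσ, hσ])
  obtain ⟨f, f1, f2⟩ := tw2_desc hσ hπ hE hC h
  obtain ⟨f', f1', f2'⟩ := tw2_desc hσ hπ hE hC h.neg
  let fh : B ≃ₜ B := ⟨⟨f, f', fun b => by
      obtain ⟨x, rfl⟩ := hπ.surjective b
      rw [f2, f2', tw2_inv hC h h.neg fun a => by rw [← h.add, neg_add_cancel, h.zero]],
    fun b => by
      obtain ⟨x, rfl⟩ := hπ.surjective b
      rw [f2', f2, tw2_inv hC h.neg h fun a => by rw [← h.add, add_neg_cancel, h.zero]]⟩, f1, f1'⟩
  obtain ⟨A, a1, a2⟩ := Klein_frame ax.1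
  obtain ⟨P, hP, -⟩ := exists_of_frame ax.1 a1 a2 η 0
  obtain ⟨Q, hQ, -⟩ := exists_of_frame ax.1 a1 a2 (-η) 0
  have hP' : |bf E P| ≤ η := by rw [hP, abs_of_pos p]
  have hQ' : |bf E Q| ≤ η := by rw [hQ, abs_neg, abs_of_pos p]
  obtain ⟨F, φ, hl, hF⟩ : ∃ (F : X ≃ₜ X) (φ : MulAut Γ), IsLift π fh F φ ∧
      F P = tw2_s Y E η fl P := by
    obtain ⟨F, φ, hl⟩ := exists_isLift hπ fh
    obtain ⟨γ, hγ⟩ := hπ.apply_eq_iff_mem_orbit.1 ((f2 P).symm.trans (hl.lift P).symm)
    obtain ⟨ψ, hψ⟩ := Lift_act hπ fh (F.trans (Homeomorph.smul (Y.σ γ))) fun x =>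
      (inv γ _).trans (hl.lift x)
    exact ⟨_, ψ, hψ, (hσ γ _).symm.trans hγ⟩
  have act : ∀ γ x, F (Y.σ γ • x) = Y.σ (φ γ) • F x := fun γ x => by
    rw [← hσ, ← hσ, hl.act]
  let U : Set X := {x | ∀ γ, Y.σ γ • E ≠ E → 0 < bf (Y.σ γ • E) P * bf (Y.σ γ • E) x}
  have cU : Cvx U := fun a ha b hb y hy γ n => by
    have := cvx_half' (bf (Y.σ γ • E) P • Y.σ γ • E) a (by simpa only [bf, Bf_smul_left, mem_ofPred_eq] using ha γ n) b
      (by simpa only [bf, Bf_smul_left, mem_ofPred_eq] using hb γ n) hy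
    simpa only [bf, gt_iff_lt, Bf_smul_left, mem_ofPred_eq] using this
  have FU : ∀ x ∈ U, F x = tw2_t Y E η τ fl x :=
    hπ.isCoveringMap.eqOn_of_comp_eqOn cU.isPreconnected F.continuous.continuousOn
      (fun x hx => (tw2_cont_t hE hC h fun γ n e => by simpa [e] using hx γ n).continuousWithinAt)
      (fun x _ => (hl.lift x).trans ((f2 x).trans (by
        change _ = π (tw2_t Y E η τ fl x)
        unfold tw2_t
        split_ifs
        · rfl
        · exact (inv _ _).symm)))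
      (fun γ n => hC.same n hP' hP') (hF.trans (if_pos (hP ▸ p.le)).symm)
  have QU : Q ∈ U := fun γ n => hC.same n hP' hQ'
  have t1 : ∀ β, Y.NoWall E P.1 (Y.σ β • P.1) → φ β = β := fun β w => by
    have a := FU (Y.σ β • P) fun γ _ => w γ
    have b : 0 < bf E P * bf E (Y.σ β • P) := by simpa only [bf, coe_smul, map_one, one_smul] using w 1
    rw [tw2_t, if_pos ((mul_pos_iff_of_pos_left (p.trans_eq hP.symm)).1 b).le, act, hF, tw2_equiv hC h] at a
    exact can _ a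
  have t2 : ∀ β, Y.NoWall E Q.1 (Y.σ β • Q.1) → φ β = τ * β * τ⁻¹ := fun β w => by
    have a := FU (Y.σ β • Q) fun γ n => by
      have u : 0 < bf (Y.σ γ • E) Q * bf (Y.σ γ • E) (Y.σ β • Q) := w γ
      have v := QU γ n
      nlinarith only [mul_pos u v, sq_nonneg (bf (Y.σ γ • E) Q)]
    have b : 0 < bf E Q * bf E (Y.σ β • Q) := by simpa only [bf, coe_smul, map_one, one_smul] using w 1
    have c : ¬ 0 ≤ bf E Q := by rw [hQ]; linarith only [p]
    rw [tw2_t, if_neg (by rw [hQ] at b; nlinarith only [p, b]), act, FU Q QU, tw2_t, if_neg c,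
      tw2_equiv hC h, ← mul_smul, ← mul_smul, ← map_mul, ← map_mul] at a
    rw [← can _ a, mul_inv_cancel_right]
  have t3 : φ τ = τ := t1 τ fun γ => by
    have e : bf E (Y.σ τ • P) = bf E P := by rw [← h.one, h.bf]
    by_cases n : Y.σ γ • E = E
    · rw [n]
      change 0 < bf E P * bf E (Y.σ τ • P)
      rw [e, hP]
      positivity
    · exact hC.same n hP' (y := Y.σ τ • P) (by rwa [e])
  obtain ⟨R, hR⟩ := norm_pt (Y.hyp τ hτ) ax η
  have out : ∀ x, (∀ γ, η / 2 < |bf (Y.σ γ • E) x|) →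
      π x ∉ π '' (Dsc oX R ∩ {x | |bf E x| ≤ η / 2}) := by
    rintro x hx ⟨y, ⟨-, a⟩, b⟩
    obtain ⟨γ, rfl⟩ := hπ.apply_eq_iff_mem_orbit.1 b
    refine (hx γ⁻¹).not_ge ?_
    rwa [map_inv, ← tw2_mv, inv_inv, ← hσ]
  have funnel : ∀ N ∈ Y.per, ∀ x, bf N x ≤ η → ∀ γ, η / 2 < |bf (Y.σ γ • E) x| :=
    fun N hN x hx γ => by
      by_contra! c
      have := hC.per _ (Y.per_smul γ⁻¹ N hN) ((Y.σ γ)⁻¹ • x) (by rw [tw2_mv]; linarith only [p, c])
      rw [map_inv, bf_smul] at this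
      exact this.not_ge hx
  refine ⟨fh, F, φ, π '' (Dsc oX R ∩ {x | |bf E x| ≤ η / 2}), η, p, hl,
    ⟨τ, P.1, Q.1, hτ, ax, P.2, Q.2, p.trans_eq hP.symm, by change bf E Q < 0; linarith only [p, hQ],
      fun γ n _ => QU γ n, t1, t2⟩,
    ⟨τ * τ, P.1, Q.1, fun e => (Y.hyp τ hτ).zpow_ne_one two_ne_zero (by
        rw [zpow_two, ← map_mul, e, map_one]),
      ⟨ax.1, by rw [map_mul, mul_smul, ax.2, ax.2]⟩, P.2, Q.2, p.trans_eq hP.symm,
      by change bf E Q < 0; linarith, fun γ n _ => QU γ n,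
      fun β w => by rw [MulAut.mul_apply, t1 β w, t1 β w], fun β w => ?_⟩,
    ((isCompact_Dsc oX R).inter_right (isClosed_le (by fun_prop) continuous_const)).image
      hπ.continuous, fun e => out P (fun γ => ?_) (e ▸ mem_univ _), fun b hb => ?_,
    fun N hN x hx => out x (funnel N hN x hx), fun N hN => ?_⟩
  · rw [MulAut.mul_apply, t2 β w, map_mul, map_mul, map_inv, t3, t2 β w]
    group
  · by_contra! c
    rw [hC.sep γ P hP' (by linarith only [p, c]), hP, abs_of_pos p] at c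
    linarith
  · obtain ⟨x, rfl⟩ := hπ.surjective b
    refine (f2 x).trans (congrArg π (tw2_out hC h fun γ => ?_))
    by_contra! c
    rw [← tw2_mv] at c
    obtain ⟨k, hk⟩ := hR _ ((Y.σ γ)⁻¹ • x).2 (c.le.trans (by linarith only [p]))
    refine hb ⟨Y.σ τ ^ k • (Y.σ γ)⁻¹ • x, ⟨hk, ?_⟩, by rw [← map_zpow, inv, ← map_inv, inv]⟩
    rw [mem_ofPred_eq, ← ax.zpow k, bf_smul]
    exact c.le
  · obtain ⟨β, -, hβ⟩ := Y.per_ax N hN
    have e : ∀ x, bf N x < η → π (F x) = π x := fun x hx => (hl.lift x).trans ((f2 x).trans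
      (congrArg π (tw2_out hC h fun γ => (funnel N hN x hx.le γ).le)))
    obtain ⟨A', b1, b2⟩ := Klein_frame hβ.1
    obtain ⟨z, hz, -⟩ := exists_of_frame hβ.1 b1 b2 0 0
    obtain ⟨γ, hγ⟩ := hπ.apply_eq_iff_mem_orbit.1 (e z (hz ▸ p))
    exact ⟨γ, hπ.isCoveringMap.eqOn_of_comp_eqOn (preconn_beyond hβ.1 η)
      F.continuous.continuousOn (continuous_const_smul (Y.σ γ)).continuousOn
      (fun x hx => (e x hx).trans (inv γ x).symm) (a := z) (hz ▸ p : bf N z < η)
      (hγ.symm.trans (hσ γ z))⟩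

end Pool.Agent.MP_646035_al.MC
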